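import Pool.Agent.LR82.Prob

/-!
# The van den Berg–Kesten inequality for increasing events, `p ≤ 1 / 2`
-/

set_option linter.unusedSectionVars false
set_option linter.style.whitespace false

open Finset

noncomputable section

namespace LR82

variable {α : Type*} [DecidableEq α]

/-- `A` and `B` have disjoint witnesses in `S` -/
def Occ (A B : Finset α → Prop) (S : Finset α) : Prop :=
  ∃ I J : Finset α, I ⊆ S ∧ J ⊆ S ∧ Disjoint I J ∧ A I ∧ B J

theorem Pr_empty (p : ℝ) (P : Finset α → Prop) [DecidablePred P] :
    Pr p ∅ P = if P ∅ then 1 else 0 := by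
  rw [Pr_eq, Ex_empty]

theorem Pr_insert (p : ℝ) {E : Finset α} {e : α} (he : e ∉ E) (P : Finset α → Prop) :
    Pr p (insert e E) P = (1 - p) * Pr p E P + p * Pr p E (fun A => P (insert e A)) := by
  classical
  unfold Pr
  rw [Ex_insert p he]

theorem Pr_or_and (p : ℝ) (E : Finset α) (P Q : Finset α → Prop) :
    Pr p E (fun A => P A ∨ Q A) + Pr p E (fun A => P A ∧ Q A) = Pr p E P + Pr p E Q := by
  classical
  unfold Pr
  rw [← Ex_add, ← Ex_add]
  refine Ex_congr fun A _ => ?_
  by_cases h : P A <;> by_cases h' : Q A <;> simp [h, h']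

/-- the inequality of van den Berg and Kesten -/
theorem Pr_bk {p : ℝ} (h0 : 0 ≤ p) (h1 : p ≤ 1 / 2) (E : Finset α) (A B : Finset α → Prop)
    (hA : ∀ I J, I ⊆ J → A I → A J) (hB : ∀ I J, I ⊆ J → B I → B J) :
    Pr p E (Occ A B) ≤ Pr p E A * Pr p E B := by
  classical
  induction E using Finset.induction_on generalizing A B with
  | empty =>
    rw [Pr_empty, Pr_empty, Pr_empty]
    by_cases h : Occ A B ∅
    · obtain ⟨I, J, hI, hJ, _, hAI, hBJ⟩ := h
      rw [Finset.subset_empty] at hI hJ
      subst hI
      subst hJ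
      simp only [hAI, hBJ, if_true, mul_one]
      split_ifs <;> norm_num
    · rw [if_neg h]
      refine mul_nonneg ?_ ?_ <;> split_ifs <;> norm_num
  | insert e E he ih =>
    have hp1 : p ≤ 1 := by linarith
    have hA1 : ∀ I J, I ⊆ J → A (insert e I) → A (insert e J) := fun I J h =>
      hA _ _ (Finset.insert_subset_insert e h)
    have hB1 : ∀ I J, I ⊆ J → B (insert e I) → B (insert e J) := fun I J h =>
      hB _ _ (Finset.insert_subset_insert e h)
    have k00 := ih A B hA hB
    have k10 := ih (fun I => A (insert e I)) B hA1 hB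
    have k01 := ih A (fun J => B (insert e J)) hA hB1
    have hstep : Pr p E (fun S => Occ A B (insert e S)) ≤
        Pr p E (fun S => Occ (fun I => A (insert e I)) B S ∨
          Occ A (fun J => B (insert e J)) S) := by
      refine Pr_mono h0 hp1 fun S hS => ?_
      rintro ⟨I, J, hI, hJ, hd, hAI, hBJ⟩
      by_cases heI : e ∈ I
      · have heJ : e ∉ J := fun h => (Finset.disjoint_left.1 hd heI) h
        refine Or.inl ⟨I.erase e, J, ?_, ?_, ?_, ?_, hBJ⟩
        · exact Finset.subset_insert_iff.1 hI
        · exact (Finset.subset_insert_iff_of_notMem heJ).1 hJ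
        · exact Finset.disjoint_of_subset_left (Finset.erase_subset e I) hd
        · show A (insert e (I.erase e))
          rwa [Finset.insert_erase heI]
      · have hI' : I ⊆ S := (Finset.subset_insert_iff_of_notMem heI).1 hI
        refine Or.inr ⟨I, J.erase e, hI', Finset.subset_insert_iff.1 hJ, ?_, hAI, ?_⟩
        · exact Finset.disjoint_of_subset_right (Finset.erase_subset e J) hd
        · show B (insert e (J.erase e))
          exact hB _ _ (Finset.insert_erase_subset e J) hBJ
    have hor := Pr_or_and p E (Occ (fun I => A (insert e I)) B) (Occ A (fun J => B (insert e J)))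
    have hand : Pr p E (Occ A B) ≤ Pr p E (fun S => Occ (fun I => A (insert e I)) B S ∧
          Occ A (fun J => B (insert e J)) S) := by
      refine Pr_mono h0 hp1 fun S _ => ?_
      rintro ⟨I, J, hI, hJ, hd, hAI, hBJ⟩
      exact ⟨⟨I, J, hI, hJ, hd, hA _ _ (Finset.subset_insert e I) hAI, hBJ⟩,
        ⟨I, J, hI, hJ, hd, hAI, hB _ _ (Finset.subset_insert e J) hBJ⟩⟩
    have ha : Pr p E A ≤ Pr p E (fun I => A (insert e I)) :=
      Pr_mono h0 hp1 fun S _ h => hA _ _ (Finset.subset_insert e S) h
    have hb : Pr p E B ≤ Pr p E (fun I => B (insert e I)) :=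
      Pr_mono h0 hp1 fun S _ h => hB _ _ (Finset.subset_insert e S) h
    rw [Pr_insert p he, Pr_insert p he A, Pr_insert p he B]
    set a0 := Pr p E A
    set a1 := Pr p E (fun I => A (insert e I))
    set b0 := Pr p E B
    set b1 := Pr p E (fun I => B (insert e I))
    have hkey : 0 ≤ p ^ 2 * ((a1 - a0) * (b1 - b0)) :=
      mul_nonneg (by positivity) (mul_nonneg (by linarith) (by linarith))
    have e1 : p * Pr p E (fun S => Occ A B (insert e S)) ≤
        p * (Pr p E (Occ (fun I => A (insert e I)) B) +
          Pr p E (Occ A (fun J => B (insert e J))) - Pr p E (Occ A B)) := by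
      refine mul_le_mul_of_nonneg_left ?_ h0
      linarith
    have e2 : (1 - 2 * p) * Pr p E (Occ A B) ≤ (1 - 2 * p) * (a0 * b0) :=
      mul_le_mul_of_nonneg_left k00 (by linarith)
    have e3 := mul_le_mul_of_nonneg_left k10 h0
    have e4 := mul_le_mul_of_nonneg_left k01 h0
    nlinarith [hkey, e1, e2, e3, e4]

end LR82
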