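import Pool.Agent.LR82.Ev1

/-!
# The first random graph: a long path with few coincidences
-/

set_option linter.unusedSectionVars false
set_option linter.style.whitespace false

open Finset

noncomputable section

namespace LR82

theorem exp_neg_quad {t : ℝ} (ht : 0 ≤ t) : Real.exp (-t) ≤ 1 - t + t ^ 2 / 2 := by
  have h1 := Real.quadratic_le_exp_of_nonneg ht
  rw [Real.exp_neg, inv_le_comm₀ (Real.exp_pos t) (by nlinarith [sq_nonneg (t - 1)])]
  refine le_trans ?_ h1
  rw [inv_le_comm₀ (by nlinarith [sq_nonneg (t - 1)]) (by positivity)]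
  rw [inv_le_comm₀ (by positivity) (by nlinarith [sq_nonneg (t - 1)])]
  rw [inv_le_iff_one_le_mul₀ (by nlinarith [sq_nonneg (t - 1)])]
  nlinarith [sq_nonneg (t ^ 2)]

theorem path_prob {e : ℝ} (he : 0 < e) (he1 : e ≤ 1 / 2) {n : ℕ} (hn : 200 ≤ e ^ 2 * n) :
    Pr ((1 + e) / n) (Epairs n) (fun A => ¬ HasPath A ⌊e ^ 2 / 100 * n⌋₊) ≤
      Real.exp (-(e ^ 3 * n / 64) + 1) := by
  have hnR : (0:ℝ) < n := by
    by_contra hcon
    have : (n:ℝ) = 0 := le_antisymm (not_lt.1 hcon) (by positivity)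
    rw [this] at hn
    norm_num at hn
  have hn800 : 800 ≤ (n:ℝ) := by
    have : e ^ 2 ≤ 1 / 4 := by nlinarith
    nlinarith
  set l : ℕ := ⌊e ^ 2 / 100 * n⌋₊ with hl
  set sm : ℕ := ⌊e / 8 * n⌋₊ with hsm
  set nu : ℝ := e / 8 * (1 - e / 8 - e ^ 2 / 50) with hnu
  have hnu0 : 0 ≤ nu := by
    rw [hnu]
    refine mul_nonneg (by positivity) ?_
    nlinarith
  set N0 : ℕ := ⌊nu * n ^ 2⌋₊ with hN0
  have hlu : (l:ℝ) ≤ e ^ 2 / 100 * n := Nat.floor_le (by positivity)
  have hsu : (sm:ℝ) ≤ e / 8 * n := Nat.floor_le (by positivity)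
  have hsl : e / 8 * n < sm + 1 := Nat.lt_floor_add_one _
  have hNu : (N0:ℝ) ≤ nu * n ^ 2 := Nat.floor_le (by positivity)
  have hNl : nu * n ^ 2 < N0 + 1 := Nat.lt_floor_add_one _
  have h0 : 0 ≤ (1 + e) / n := by positivity
  have h1 : (1 + e) / n ≤ 1 := by
    rw [div_le_one hnR]
    linarith
  have hc : N0 < (sm + 1) * (n - l - (sm + 1)) := by
    have h2 : (n:ℝ) - l - (sm + 1) ≤ ((n - l - (sm + 1) : ℕ) : ℝ) := by
      have h3 : n ≤ (n - l - (sm + 1)) + l + (sm + 1) := by omega
      have h4 : (n:ℝ) ≤ ((n - l - (sm + 1) : ℕ) : ℝ) + l + (sm + 1) := by exact_mod_cast h3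
      linarith
    have h3 : (n:ℝ) - e ^ 2 / 100 * n - e / 8 * n - 1 ≤ ((n - l - (sm + 1) : ℕ) : ℝ) := by
      linarith
    have h4 : 0 < (n:ℝ) - e ^ 2 / 100 * n - e / 8 * n - 1 := by nlinarith
    have h5 : (N0:ℝ) < (sm + 1) * ((n - l - (sm + 1) : ℕ) : ℝ) := by
      have h6 : (e / 8 * n) * ((n:ℝ) - e ^ 2 / 100 * n - e / 8 * n - 1) <
          (sm + 1) * ((n - l - (sm + 1) : ℕ) : ℝ) := by
        calc (e / 8 * n) * ((n:ℝ) - e ^ 2 / 100 * n - e / 8 * n - 1) <
            (sm + 1) * ((n:ℝ) - e ^ 2 / 100 * n - e / 8 * n - 1) :=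
              mul_lt_mul_of_pos_right hsl h4
          _ ≤ _ := mul_le_mul_of_nonneg_left h3 (by positivity)
      refine lt_of_le_of_lt (hNu.trans ?_) h6
      rw [hnu]
      have h7 : 0 ≤ e / 8 * n * (e ^ 2 / 100 * n - 1) := by
        refine mul_nonneg (by positivity) ?_
        linarith
      nlinarith
    exact_mod_cast h5
  have hmain := dfs_path h0 h1 (sm := sm) (l := l) (N0 := N0) (lam := e / 4) (by positivity) hc
  refine hmain.trans ?_
  set p : ℝ := (1 + e) / n with hp
  have h2 : (1 - p + p * Real.exp (-(e / 4))) ^ N0 ≤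
      Real.exp (-(p * (e / 4 - (e / 4) ^ 2 / 2) * N0)) := by
    have h3 := exp_neg_quad (t := e / 4) (by positivity)
    have h4 : 1 - p + p * Real.exp (-(e / 4)) ≤ Real.exp (-(p * (e / 4 - (e / 4) ^ 2 / 2))) := by
      have h5 := Real.add_one_le_exp (-(p * (e / 4 - (e / 4) ^ 2 / 2)))
      have h6 := mul_le_mul_of_nonneg_left h3 h0
      nlinarith
    have h5 : 0 ≤ 1 - p + p * Real.exp (-(e / 4)) := by
      have := mul_nonneg h0 (Real.exp_pos (-(e / 4))).le
      linarith
    calc _ ≤ Real.exp (-(p * (e / 4 - (e / 4) ^ 2 / 2))) ^ N0 := pow_le_pow_left₀ h5 h4 _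
      _ = _ := by
        rw [← Real.exp_nat_mul]
        congr 1
        ring
  refine (mul_le_mul_of_nonneg_left h2 (Real.exp_pos _).le).trans ?_
  rw [← Real.exp_add]
  refine Real.exp_le_exp.2 ?_
  push_cast
  have h3 : e / 4 * ((sm:ℝ) + l) ≤ e / 4 * ((e / 8 + e ^ 2 / 100) * n) := by
    refine mul_le_mul_of_nonneg_left ?_ (by positivity)
    linarith
  have h4 : (1 + e) * (nu * n) - 2 ≤ p * N0 := by
    rw [hp]
    have h5 : (1 + e) / n * (nu * n ^ 2 - 1) ≤ (1 + e) / n * N0 :=
      mul_le_mul_of_nonneg_left (by linarith) h0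
    refine le_trans ?_ h5
    have h6 : (1 + e) / n * (nu * n ^ 2 - 1) = (1 + e) * (nu * n) - (1 + e) / n := by
      field_simp
    rw [h6]
    linarith
  have h5 : (1 - e / 8) * ((1 + e) * nu) ≥ e / 8 + e ^ 2 / 100 + e ^ 2 / 16 := by
    rw [hnu]
    have h6 : (1 - e / 8) * (1 + e) * (1 - e / 8 - e ^ 2 / 50) ≥ 1 + 58 / 100 * e := by
      have e2 : 0 ≤ e * (1 / 2 - e) := mul_nonneg he.le (by linarith)
      have e3 : 0 ≤ e ^ 2 * (1 / 2 - e) := mul_nonneg (by positivity) (by linarith)
      have e4 : 0 ≤ e ^ 4 := by positivity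
      nlinarith
    have h7 := mul_le_mul_of_nonneg_left h6 (show 0 ≤ e / 8 by positivity)
    nlinarith
  have h6 : p * (e / 4 - (e / 4) ^ 2 / 2) * N0 = e / 4 * ((1 - e / 8) * (p * N0)) := by ring
  rw [h6]
  have h7 : (1 - e / 8) * ((1 + e) * (nu * n) - 2) ≤ (1 - e / 8) * (p * N0) :=
    mul_le_mul_of_nonneg_left h4 (by linarith)
  have h8 : (e / 8 + e ^ 2 / 100 + e ^ 2 / 16) * n ≤ (1 - e / 8) * ((1 + e) * nu) * n :=
    mul_le_mul_of_nonneg_right h5 hnR.le
  have h9 : (e / 8 + e ^ 2 / 100) * n + e ^ 2 / 16 * n - 2 ≤ (1 - e / 8) * (p * N0) := by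
    nlinarith
  have h10 := mul_le_mul_of_nonneg_left h9 (show 0 ≤ e / 4 by positivity)
  nlinarith

open Classical in
theorem Zb_card {n' : ℕ} {x : Fin n' → ℝ} {π : ℕ → Fin n'} {M N Lam : ℕ} (hπ : PInj π (M * N))
    {A : Finset (Sym2 (Fin n'))} (hA : ∀ i, i + 1 < M * N → s(π i, π (i + 1)) ∈ A) :
    (Zb M N Lam (fun i => x (π i))).card ≤ (Lam + 1) * ((Ybad x (Lam * M) A).card + 2) := by
  set a : ℕ → ℝ := fun i => x (π i) with ha
  set m := M * N with hm
  set L := Lam * M with hL
  set S : Finset ℕ := (range m).filter (fun i => BadAt m L a i) with hS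
  have hSc : S.card ≤ (Ybad x L A).card := by
    refine Finset.card_le_card_of_injOn (fun i => fun k : Fin (L + 1) => π (i + k)) ?_ ?_
    · intro i hi
      have hi' := Finset.mem_coe.1 hi
      rw [hS, Finset.mem_filter] at hi'
      obtain ⟨_, hiL, F, hF, hFn, hFs⟩ := hi'
      refine Finset.mem_coe.2 ?_
      unfold Ybad
      rw [Finset.mem_filter]
      refine ⟨Finset.mem_univ _, ⟨?_, ?_⟩, ?_⟩
      · intro k k' h
        have h1 := k.isLt
        have h2 := k'.isLt
        have h3 := hπ (i + k) (by omega) (i + k') (by omega) h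
        exact Fin.ext (by omega)
      · set F' : Finset (Fin L) := Finset.univ.filter (fun k : Fin L => i + (k:ℕ) ∈ F) with hF'
        have hFF : F = F'.image (fun k : Fin L => i + (k:ℕ)) := by
          ext k
          rw [Finset.mem_image]
          constructor
          · intro hk
            have h1 := Finset.mem_Ico.1 (hF hk)
            refine ⟨⟨k - i, by omega⟩, ?_, ?_⟩
            · rw [hF', Finset.mem_filter]
              refine ⟨Finset.mem_univ _, ?_⟩
              simp only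
              rwa [show i + (k - i) = k by omega]
            · simp only
              omega
          · rintro ⟨k', hk', rfl⟩
            exact (Finset.mem_filter.1 hk').2
        refine ⟨F', ?_, ?_⟩
        · rw [hFF] at hFn
          exact Finset.image_nonempty.1 hFn
        · rw [hFF, Finset.sum_image] at hFs
          · rw [← hFs]
            refine Finset.sum_congr rfl fun k _ => ?_
            simp only [Fin.val_succ, Fin.val_castSucc, ha]
            rw [Nat.add_assoc]
          · intro k _ k' _ h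
            exact Fin.ext (by simpa using h)
      · intro e he
        unfold Wp at he
        rw [Finset.mem_image] at he
        obtain ⟨k, _, rfl⟩ := he
        have h1 := k.isLt
        simp only [Fin.val_succ, Fin.val_castSucc]
        have h2 := hA (i + k) (by omega)
        rwa [Nat.add_assoc] at h2
    · intro i hi i' hi' h
      have h1 := congrFun h 0
      simp only [Fin.val_zero, Nat.add_zero] at h1
      have hi2 := (Finset.mem_filter.1 (Finset.mem_coe.1 hi)).1
      have hi2' := (Finset.mem_filter.1 (Finset.mem_coe.1 hi')).1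
      rw [Finset.mem_range] at hi2 hi2'
      exact hπ i hi2 i' hi2' h1
  have hsub : Zb M N Lam a ⊆ (range (Lam + 1) ∪ Finset.Ico (N - (Lam + 1)) N) ∪
      S.biUnion (fun i => Finset.Icc (i / M) (i / M + Lam)) := by
    intro c hc
    unfold Zb at hc
    rw [Finset.mem_filter, Finset.mem_range] at hc
    rcases hc.2 with h | h | ⟨i, hi, h1, h2⟩
    · exact Finset.mem_union_left _ (Finset.mem_union_left _ (Finset.mem_range.2 (by omega)))
    · exact Finset.mem_union_left _ (Finset.mem_union_right _ (Finset.mem_Ico.2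
        ⟨by omega, hc.1⟩))
    · refine Finset.mem_union_right _ (Finset.mem_biUnion.2 ⟨i, ?_, Finset.mem_Icc.2 ⟨h1, h2⟩⟩)
      rw [hS, Finset.mem_filter, Finset.mem_range]
      refine ⟨?_, hi⟩
      have := hi.1
      omega
  refine (Finset.card_le_card hsub).trans ((Finset.card_union_le _ _).trans ?_)
  have h1 := Finset.card_union_le (range (Lam + 1)) (Finset.Ico (N - (Lam + 1)) N)
  rw [Finset.card_range, Nat.card_Ico] at h1
  have h2 : (S.biUnion (fun i => Finset.Icc (i / M) (i / M + Lam))).card ≤ S.card * (Lam + 1) := by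
    refine Finset.card_biUnion_le.trans ((Finset.sum_le_card_nsmul _ _ (Lam + 1) ?_).trans ?_)
    · intro i _
      rw [Nat.card_Icc]
      omega
    · rw [smul_eq_mul]
  have h3 : S.card * (Lam + 1) ≤ (Ybad x L A).card * (Lam + 1) := Nat.mul_le_mul_right _ hSc
  have h4 : (Lam + 1) * ((Ybad x L A).card + 2) =
      (Ybad x L A).card * (Lam + 1) + (Lam + 1) + (Lam + 1) := by ring
  omega

end LR82
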