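import Pool.Agent.LR82.Chords
import Pool.Agent.LR82.G1

/-!
# Assembly
-/

set_option linter.unusedSectionVars false
set_option linter.style.whitespace false

open Finset

noncomputable section

namespace LR82

/-- `U` is determined up to isometry by the distances of the pairs in `G`, among all maps -/
def SRec {n : ℕ} (x : Fin n → ℝ) (G : Finset (Sym2 (Fin n))) (U : Finset (Fin n)) : Prop :=
  ∀ f : Fin n → ℝ, (∀ u v, s(u, v) ∈ G → |f u - f v| = |x u - x v|) →
    ∃ s t : ℝ, (s = 1 ∨ s = -1) ∧ ∀ u ∈ U, f u = s * x u + t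

/-- a path as a function -/
theorem exists_fun_of_hasPath {n l m : ℕ} {A : Finset (Sym2 (Fin n))} (h : HasPath A l)
    (hm : m ≤ l) (hm0 : 0 < m) : ∃ π : ℕ → Fin n, PInj π m ∧
      ∀ i, i + 1 < m → s(π i, π (i + 1)) ∈ A := by
  obtain ⟨P, hnd, hl, hch⟩ := h
  have hP0 : 0 < P.length := by omega
  refine ⟨fun i => if h : i < P.length then P.get ⟨i, h⟩ else P.get ⟨0, hP0⟩, ?_, ?_⟩
  · intro i hi j hj hij
    have hi' : i < P.length := by omega
    have hj' : j < P.length := by omega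
    simp only [hi', hj', dif_pos] at hij
    have := (List.nodup_iff_injective_get.1 hnd) hij
    exact congrArg Fin.val this
  · intro i hi
    have hi' : i < P.length := by omega
    have hi2 : i + 1 < P.length := by omega
    simp only [hi', hi2, dif_pos]
    exact (List.isChain_iff_getElem.1 hch) i (by omega)

/-- deterministic conclusion -/
theorem srec_of_good {n M N l r0 r1 D K j0 : ℕ} {x : Fin n → ℝ} (hx : Function.Injective x)
    {π : ℕ → Fin n} {A B : Finset (Sym2 (Fin n))} (hM : 0 < M)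
    (hl : 1 ≤ l) (hNl : 2 * N ≤ l * r1) (hr : 3 * r1 ≤ r0) (hr0 : 1 ≤ r0) (hKD : 6 * K ≤ D)
    (hπ : PInj π (M * N)) (hA : ∀ i, i + 1 < M * N → s(π i, π (i + 1)) ∈ A)
    (hG : Good M N l r0 r1 D K j0 (fun i => x (π i)) (adjB π B)) :
    ∃ U : Finset (Fin n), M * N ≤ U.card + 6 * r0 * M ∧ SRec x (A ∪ B) U := by
  classical
  obtain ⟨U, hU, hUc, hUφ⟩ := det_main hM hl hNl hr hr0 hKD
    (fun i hi j hj h => hπ i hi j hj (hx h)) hG
  refine ⟨U.image π, ?_, ?_⟩
  · rw [Finset.card_image_of_injOn]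
    · exact hUc
    · intro i hi j hj h
      exact hπ i (Finset.mem_range.1 (hU hi)) j (Finset.mem_range.1 (hU hj)) h
  · intro f hf
    have hv : Valid (M * N) (fun i => x (π i)) (adjB π B) (fun i => f (π i)) := by
      refine ⟨fun i hi => ?_, fun i _ j _ hij => ?_⟩
      · have h1 := hf (π i) (π (i + 1)) (Finset.mem_union_left _ (hA i hi))
        rw [abs_sub_comm, h1, abs_sub_comm]
      · exact hf _ _ (Finset.mem_union_right _ hij)
    obtain ⟨s, t, hs, h⟩ := hUφ _ hv
    refine ⟨s, t, hs, fun u hu => ?_⟩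
    rw [Finset.mem_image] at hu
    obtain ⟨i, hi, rfl⟩ := hu
    exact h i hi

theorem main_uniform {eps : ℝ} (heps : 0 < eps) : ∃ (C : ℝ) (n0 : ℕ), 0 < C ∧ ∀ n : ℕ, n0 ≤ n →
    ∀ x : Fin n → ℝ, Function.Injective x →
      Pr ((1 + eps) / n) (Epairs n) (fun G => ¬ ∃ U : Finset (Fin n),
        (min eps 1) ^ 2 / 1600 * n ≤ U.card ∧ SRec x G U) ≤ C / n := by
  classical
  set e : ℝ := min eps 1 / 2 with he
  have he0 : 0 < e := by
    have : 0 < min eps 1 := lt_min heps one_pos
    positivity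
  have he1 : e ≤ 1 / 2 := by
    have : min eps 1 ≤ 1 := min_le_right _ _
    linarith
  have he2 : 2 * e ≤ eps := by
    have : min eps 1 ≤ eps := min_le_left _ _
    linarith
  have hmin : min eps 1 = 2 * e := by
    rw [he]
    ring
  set clo : ℝ := e ^ 3 / 200 with hclo
  set chi : ℝ := 2 * eps * (e ^ 2 / 100) with hchi
  have hclo0 : 0 < clo := by positivity
  have hchi0 : 0 < chi := by positivity
  obtain ⟨A, M, N0, C1, hA36, hM, hC1, hch⟩ := chords_prob hclo0 hchi0
  have hMR : (1:ℝ) ≤ M := by exact_mod_cast hM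
  have hMR0 : (0:ℝ) < M := by linarith
  have hAR : (36:ℝ) ≤ A := by exact_mod_cast hA36
  set Lam : ℕ := 2 * (4 * A) + 1 with hLam
  set L : ℕ := Lam * M with hL
  set kap : ℝ := e ^ 2 / (200 * M) with hkap
  have hkap0 : 0 < kap := by positivity
  -- size conditions
  obtain ⟨n1, hn1⟩ := exists_nat_ge (200 / e ^ 2 + 200 * (1 + M) / e ^ 2 +
    (N0 + 8 * A * (Lam + 1)) / kap + 4 + (1 + eps))
  set C : ℝ := 3 * (64 / e ^ 3) + (3 ^ L * (4 * A * (Lam + 1))) / kap + C1 / kap with hC
  refine ⟨C, n1, by positivity, fun n hn x hx => ?_⟩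
  have hnR : (n1:ℝ) ≤ n := by exact_mod_cast hn
  have q1 : 0 ≤ 200 / e ^ 2 := by positivity
  have q2 : 0 ≤ 200 * (1 + M) / e ^ 2 := by positivity
  have q3 : 0 ≤ (N0 + 8 * A * (Lam + 1)) / kap := by positivity
  have hn200 : 200 ≤ e ^ 2 * n := by
    have h1 : 200 / e ^ 2 ≤ n := by linarith
    rw [div_le_iff₀ (by positivity)] at h1
    linarith
  have hnM : 200 * (1 + (M:ℝ)) ≤ e ^ 2 * n := by
    have h1 : 200 * (1 + (M:ℝ)) / e ^ 2 ≤ n := by linarith
    rw [div_le_iff₀ (by positivity)] at h1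
    linarith
  have hnN : (N0 + 8 * A * (Lam + 1) : ℝ) ≤ kap * n := by
    have h1 : (N0 + 8 * A * (Lam + 1)) / kap ≤ n := by linarith
    rw [div_le_iff₀ hkap0] at h1
    linarith
  have hn4 : (4:ℝ) ≤ n := by linarith
  have hneps : 1 + eps ≤ n := by linarith
  have hn0 : (0:ℝ) < n := by linarith
  -- probabilities
  set p : ℝ := (1 + eps) / n with hp
  set p1 : ℝ := (1 + e) / n with hp1
  have hp10 : 0 ≤ p1 := by positivity
  have hp1h : p1 ≤ 1 / 2 := by
    rw [hp1, div_le_iff₀ hn0]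
    linarith
  have hple : p ≤ 1 := by
    rw [hp, div_le_one hn0]
    exact hneps
  set q : ℝ := (p - p1) / (1 - p1) with hq
  have hpp : p - p1 = (eps - e) / n := by
    rw [hp, hp1]
    ring
  have hpp0 : 0 ≤ p - p1 := by
    rw [hpp]
    refine div_nonneg (by linarith) hn0.le
  have h1p : 0 < 1 - p1 := by linarith
  have hq0 : 0 ≤ q := div_nonneg hpp0 h1p.le
  have hq1 : q ≤ 1 := by
    rw [hq, div_le_one h1p]
    linarith
  have hcomb : p1 + q - p1 * q = p := by
    rw [hq]
    field_simp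
    ring
  have hqlo : e / n ≤ q := by
    have h1 : p - p1 ≤ q := by
      rw [hq, le_div_iff₀ h1p]
      nlinarith
    refine le_trans ?_ h1
    rw [hpp]
    exact div_le_div_of_nonneg_right (by linarith) hn0.le
  have hqhi : q ≤ 2 * eps / n := by
    have h1 : q ≤ 2 * (p - p1) := by
      rw [hq, div_le_iff₀ h1p]
      nlinarith
    refine h1.trans ?_
    rw [hpp, mul_div_assoc']
    exact div_le_div_of_nonneg_right (by linarith) hn0.le
  -- lengths
  set l : ℕ := ⌊e ^ 2 / 100 * n⌋₊ with hl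
  have hlu : (l:ℝ) ≤ e ^ 2 / 100 * n := Nat.floor_le (by positivity)
  have hll : e ^ 2 / 100 * n < l + 1 := Nat.lt_floor_add_one _
  set N : ℕ := l / M with hN
  have hNa : M * N ≤ l := Nat.mul_div_le l M
  have hNb : l < M * (N + 1) := by
    rw [hN, Nat.mul_comm]
    exact Nat.lt_mul_of_div_lt (Nat.lt_succ_self _) hM
  have hNaR : ((M * N : ℕ) : ℝ) ≤ l := by exact_mod_cast hNa
  have hNbR : (l:ℝ) + 1 ≤ M * N + M := by
    have : l + 1 ≤ M * N + M := by
      have : M * (N + 1) = M * N + M := by ring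
      omega
    exact_mod_cast this
  have hmlo : e ^ 2 / 200 * n ≤ ((M * N : ℕ) : ℝ) := by
    push_cast
    nlinarith
  have hNkap : kap * n ≤ N := by
    rw [hkap]
    push_cast at hmlo
    rw [div_mul_eq_mul_div, div_le_iff₀ (by positivity)]
    nlinarith
  have hNN0 : N0 ≤ N := by
    have h1 : (0:ℝ) ≤ 8 * A * (Lam + 1) := by positivity
    have : (N0:ℝ) ≤ N := by linarith
    exact_mod_cast this
  have hNbig : 8 * (A:ℝ) * (Lam + 1) ≤ N := by
    have h1 : (0:ℝ) ≤ N0 := by positivity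
    linarith
  obtain ⟨hN2A, D, K, j0, hKD, hprob⟩ := hch N hNN0
  have hApos : 0 < A := by omega
  have hNR : (0:ℝ) < N := by
    have : 0 < N := by omega
    exact_mod_cast this
  set r1 : ℕ := N / A with hr1
  have hr1a : A * r1 ≤ N := Nat.mul_div_le N A
  have hr1b : N < A * (r1 + 1) := by
    rw [hr1, Nat.mul_comm]
    exact Nat.lt_mul_of_div_lt (Nat.lt_succ_self _) hApos
  have hr1c : N ≤ 2 * A * r1 := by nlinarith
  have hr1p : 1 ≤ r1 := by
    rcases Nat.eq_zero_or_pos r1 with h | h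
    · rw [h] at hr1c
      omega
    · exact h
  -- threshold for the bad windows
  set t : ℝ := N / (4 * A * (Lam + 1)) with ht
  have ht0 : 0 < t := by positivity
  have hZ : ∀ A1 : Finset (Sym2 (Fin n)), ((Ybad x L A1).card : ℝ) < t →
      (Lam + 1) * ((Ybad x L A1).card + 2) ≤ r1 := by
    intro A1 hY
    have h1 : (((Lam + 1) * ((Ybad x L A1).card + 2) : ℕ) : ℝ) ≤ r1 := by
      push_cast
      have h2 : ((Ybad x L A1).card : ℝ) * (4 * A * (Lam + 1)) < N := by
        rw [ht, lt_div_iff₀ (by positivity)] at hY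
        exact hY
      have h3 : (N:ℝ) ≤ 2 * A * r1 := by exact_mod_cast hr1c
      have h4 : (0:ℝ) < 4 * A := by positivity
      have h5 : 4 * A * (((Lam:ℝ) + 1) * ((Ybad x L A1).card + 2)) ≤ 4 * A * r1 := by
        nlinarith
      exact le_of_mul_le_mul_left h5 h4
    exact_mod_cast h1
  -- split the graph
  set Ev : Finset (Sym2 (Fin n)) → Prop := fun G => ∃ U : Finset (Fin n),
        (min eps 1) ^ 2 / 1600 * n ≤ U.card ∧ SRec x G U with hEv
  have hsplit : Pr p (Epairs n) (fun G => ¬ Ev G) =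
      Ex p1 (Epairs n) (fun A1 => Pr q (Epairs n) (fun B => ¬ Ev (A1 ∪ B))) := by
    rw [Pr_eq, ← hcomb, ← Ex_union p1 q (Epairs n) (fun G => if ¬ Ev G then (1:ℝ) else 0)]
    exact Ex_congr fun A1 _ => (Pr_eq _ _ _).symm
  have hbound : Ex p1 (Epairs n) (fun A1 => Pr q (Epairs n) (fun B => ¬ Ev (A1 ∪ B))) ≤
      Ex p1 (Epairs n) (fun A1 => (if ¬ HasPath A1 l then (1:ℝ) else 0) +
        ((if t ≤ (Ybad x L A1).card then (1:ℝ) else 0) + C1 / N)) := by
    refine Ex_mono hp10 (by linarith) fun A1 _ => ?_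
    have hC1N : 0 ≤ C1 / N := by positivity
    by_cases hP : HasPath A1 l
    · by_cases hY : t ≤ (Ybad x L A1).card
      · rw [if_neg (by simpa using hP), if_pos hY]
        have := Pr_le_one hq0 hq1 (Epairs n) (fun B => ¬ Ev (A1 ∪ B))
        linarith
      · rw [if_neg (by simpa using hP), if_neg hY, zero_add, zero_add]
        push Not at hY
        have hm0 : 0 < M * N := Nat.mul_pos hM (by omega)
        obtain ⟨π, hπ, hπA⟩ := exists_fun_of_hasPath hP hNa hm0
        have hqm1 : clo ≤ q * (M * N : ℕ) := by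
          have h1 : e / n * (e ^ 2 / 200 * n) ≤ q * (M * N : ℕ) :=
            mul_le_mul hqlo hmlo (by positivity) hq0
          refine le_trans (le_of_eq ?_) h1
          rw [hclo]
          field_simp
        have hqm2 : q * (M * N : ℕ) ≤ chi := by
          have h1 : q * (M * N : ℕ) ≤ 2 * eps / n * (e ^ 2 / 100 * n) :=
            mul_le_mul hqhi (hNaR.trans hlu) (by positivity) (by positivity)
          refine h1.trans (le_of_eq ?_)
          rw [hchi]
          field_simp
        refine le_trans (Pr_mono hq0 hq1 fun B _ hB => ?_)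
          (hprob n x hx π hπ q hq0 hq1 hqm1 hqm2)
        intro hAll
        refine hB ?_
        have hZc : (Zb M N (2 * (4 * A) + 1) (fun i => x (π i))).card ≤ r1 :=
          (Zb_card hπ hπA).trans (hZ A1 hY)
        obtain ⟨U, hUc, hU⟩ := srec_of_good (l := 4 * A) hx hM (by omega) (by nlinarith)
          (le_refl (3 * r1)) (by omega) hKD hπ hπA (good_of_allEv hAll hZc)
        refine ⟨U, ?_, hU⟩
        have h1 : 36 * r1 ≤ N := (Nat.mul_le_mul_right r1 hA36).trans hr1a
        have h2 : M * N ≤ 2 * U.card := by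
          have h3 : 6 * (3 * r1) * M * 2 ≤ M * N := by
            calc 6 * (3 * r1) * M * 2 = M * (36 * r1) := by ring
              _ ≤ M * N := Nat.mul_le_mul_left M h1
          omega
        have h3 : ((M * N : ℕ) : ℝ) ≤ 2 * U.card := by exact_mod_cast h2
        rw [hmin]
        nlinarith
    · rw [if_pos (by simpa using hP)]
      have h1 := Pr_le_one hq0 hq1 (Epairs n) (fun B => ¬ Ev (A1 ∪ B))
      have h2 : (0:ℝ) ≤ if t ≤ (Ybad x L A1).card then (1:ℝ) else 0 := by
        split_ifs <;> norm_num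
      linarith
  rw [hsplit]
  refine hbound.trans ?_
  rw [Ex_add, Ex_add, Ex_const]
  have b1 : Ex p1 (Epairs n) (fun A1 => if ¬ HasPath A1 l then (1:ℝ) else 0) ≤
      3 * (64 / e ^ 3) / n := by
    have h1 := path_prob he0 he1 hn200
    rw [Pr_eq] at h1
    refine h1.trans ?_
    rw [Real.exp_add]
    have h2 : Real.exp (-(e ^ 3 * n / 64)) ≤ 1 / (e ^ 3 * n / 64) := exp_neg_le_inv (by positivity)
    have h3 : Real.exp 1 ≤ 3 := by
      have := Real.exp_one_lt_d9
      linarith
    calc Real.exp (-(e ^ 3 * n / 64)) * Real.exp 1 ≤ 1 / (e ^ 3 * n / 64) * 3 :=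
          mul_le_mul h2 h3 (Real.exp_pos _).le (by positivity)
      _ = 3 * (64 / e ^ 3) / n := by
          field_simp
  have b2 : Ex p1 (Epairs n) (fun A1 => if t ≤ (Ybad x L A1).card then (1:ℝ) else 0) ≤
      (3 ^ L * (4 * A * (Lam + 1))) / N := by
    have h1 := Ybad_prob hx L (p := p1) (t := t) hp10 (by linarith) ht0
    rw [Pr_eq] at h1
    refine h1.trans ?_
    have h2 : 2 * (n:ℝ) * p1 ≤ 3 := by
      rw [hp1]
      have : 2 * (n:ℝ) * ((1 + e) / n) = 2 * (1 + e) := by
        field_simp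
      rw [this]
      linarith
    have h3 : (2 * (n:ℝ) * p1) ^ L ≤ 3 ^ L := pow_le_pow_left₀ (by positivity) h2 L
    calc (2 * (n:ℝ) * p1) ^ L / t ≤ 3 ^ L / t := div_le_div_of_nonneg_right h3 ht0.le
      _ = (3 ^ L * (4 * A * (Lam + 1))) / N := by
          rw [ht]
          field_simp
  have hinv : ∀ c : ℝ, 0 ≤ c → c / N ≤ c / kap / n := by
    intro c hc
    rw [div_div]
    exact div_le_div_of_nonneg_left hc (by positivity) hNkap
  have b3 := hinv (3 ^ L * (4 * A * (Lam + 1))) (by positivity)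
  have b4 := hinv C1 hC1.le
  calc _ ≤ 3 * (64 / e ^ 3) / n + ((3 ^ L * (4 * A * (Lam + 1))) / kap / n + C1 / kap / n) :=
        add_le_add b1 (add_le_add (b2.trans b3) b4)
    _ = C / n := by
        rw [hC]
        ring

end LR82
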