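import Mathlib

/-!
# Elementary estimates
-/

set_option linter.unusedSectionVars false
set_option linter.style.whitespace false

open Finset

namespace LR82

theorem two_pow_le_exp (j : ℕ) : (2 : ℝ) ^ j ≤ Real.exp (7 / 10 * j) := by
  have h1 : (2 : ℝ) ≤ Real.exp (7 / 10) := by
    have := Real.log_two_lt_d9
    rw [← Real.exp_log (show (0:ℝ) < 2 by norm_num)]
    exact Real.exp_le_exp.2 (by linarith)
  calc (2 : ℝ) ^ j ≤ Real.exp (7 / 10) ^ j := pow_le_pow_left₀ (by norm_num) h1 j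
    _ = Real.exp (7 / 10 * j) := by
      rw [← Real.exp_nat_mul]
      congr 1
      ring

theorem choose_mul_pow_le (a k : ℕ) (hk : 1 ≤ k) {q : ℝ} (hq : 0 ≤ q) :
    (a.choose k : ℝ) * q ^ k ≤ (Real.exp 1 * (a * q) / k) ^ k := by
  have h1 : (a.choose k : ℝ) ≤ (a : ℝ) ^ k / (Nat.factorial k : ℝ) := by
    exact_mod_cast Nat.choose_le_pow_div (α := ℝ) k a
  have h2 : ((k : ℝ)) ^ k / (Nat.factorial k : ℝ) ≤ Real.exp k :=
    Real.pow_div_factorial_le_exp k (by positivity) k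
  have hk0 : (0:ℝ) < k := by exact_mod_cast hk
  have h3 : 1 / (Nat.factorial k : ℝ) ≤ Real.exp k / (k : ℝ) ^ k := by
    rw [le_div_iff₀ (by positivity)]
    calc 1 / (Nat.factorial k : ℝ) * (k : ℝ) ^ k = (k : ℝ) ^ k / (Nat.factorial k : ℝ) := by ring
      _ ≤ _ := h2
  calc (a.choose k : ℝ) * q ^ k ≤ ((a : ℝ) ^ k / (Nat.factorial k : ℝ)) * q ^ k :=
        mul_le_mul_of_nonneg_right h1 (by positivity)
    _ = (a : ℝ) ^ k * q ^ k * (1 / (Nat.factorial k : ℝ)) := by ring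
    _ ≤ (a : ℝ) ^ k * q ^ k * (Real.exp k / (k : ℝ) ^ k) :=
        mul_le_mul_of_nonneg_left h3 (by positivity)
    _ = _ := by
        rw [div_pow, mul_pow, mul_pow, ← Real.exp_nat_mul, mul_one]
        ring

/-- class event -/
theorem asy_cls {clo chi : ℝ} (h0 : 0 < clo) {A T m s0 : ℕ} (hA : 0 < A)
    (hT : 64 ≤ clo * T) (hAT : 768 * Real.exp 1 * chi * 4 ^ T ≤ clo * A)
    (hm : 64 ≤ clo * m) (hm2 : 2 ≤ m) (hs0 : A * s0 ≤ 6 * m) {q : ℝ} (hq1 : clo ≤ q * m)
    (hq2 : q * m ≤ chi) (hq : 0 ≤ q) :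
    2 ^ ⌊clo * m / 32⌋₊ * Real.exp (-(q * ((m / 2) * (m - m / 2 : ℕ) : ℕ)) / 2) +
        2 ^ m * ((2 * s0 * m).choose ⌊clo * m / 32⌋₊ * q ^ ⌊clo * m / 32⌋₊) ≤
      Real.exp (-(clo * m / 32)) + (1 / 2) ^ m := by
  set j1 := ⌊clo * m / 32⌋₊ with hj1
  have hj1u : (j1 : ℝ) ≤ clo * m / 32 := Nat.floor_le (by positivity)
  have hj1l : clo * m / 64 ≤ (j1 : ℝ) := by
    have := Nat.lt_floor_add_one (clo * m / 32)
    rw [← hj1] at this
    linarith
  have hj1p : 1 ≤ j1 := by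
    have : (1 : ℝ) ≤ j1 := by linarith
    exact_mod_cast this
  have hmR : (2 : ℝ) ≤ m := by exact_mod_cast hm2
  refine add_le_add ?_ ?_
  · have h2 : m * m ≤ 8 * ((m / 2) * (m - m / 2)) := by
      obtain ⟨k, hk | hk⟩ := Nat.even_or_odd' m
      · have e1 : m / 2 = k := by omega
        have e2 : m - m / 2 = k := by omega
        rw [e2, e1, hk]
        nlinarith
      · have e1 : m / 2 = k := by omega
        have e2 : m - m / 2 = k + 1 := by omega
        rw [e2, e1, hk]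
        have : 1 ≤ k := by omega
        nlinarith
    have h3 : (m : ℝ) * m ≤ 8 * (((m / 2) * (m - m / 2 : ℕ) : ℕ) : ℝ) := by exact_mod_cast h2
    have h4 : clo * m ≤ 8 * (q * (((m / 2) * (m - m / 2 : ℕ) : ℕ) : ℝ)) := by
      have h5 := mul_le_mul_of_nonneg_left h3 hq
      nlinarith
    calc 2 ^ j1 * Real.exp (-(q * ((m / 2) * (m - m / 2 : ℕ) : ℕ)) / 2) ≤
        Real.exp (7 / 10 * j1) * Real.exp (-(clo * m / 16)) := by
          refine mul_le_mul (two_pow_le_exp j1) (Real.exp_le_exp.2 (by linarith))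
            (Real.exp_pos _).le (Real.exp_pos _).le
      _ = Real.exp (7 / 10 * j1 + -(clo * m / 16)) := by rw [Real.exp_add]
      _ ≤ _ := Real.exp_le_exp.2 (by
          have : 0 ≤ clo * m := by positivity
          linarith)
  · have h2 := choose_mul_pow_le (2 * s0 * m) j1 hj1p hq
    have hAR : (0:ℝ) < A := by exact_mod_cast hA
    have hs0R : (A : ℝ) * s0 ≤ 6 * m := by exact_mod_cast hs0
    have h3 : Real.exp 1 * (((2 * s0 * m : ℕ) : ℝ) * q) / j1 ≤ (1 / 4) ^ T := by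
      have h4 : (0:ℝ) < j1 := by linarith
      rw [div_le_iff₀ h4]
      push_cast
      have h5 : (s0 : ℝ) ≤ 6 * m / A := by
        rw [le_div_iff₀ hAR]
        linarith
      have h6 : Real.exp 1 * (2 * s0 * m * q) ≤ Real.exp 1 * (12 * m * chi / A) := by
        refine mul_le_mul_of_nonneg_left ?_ (Real.exp_pos _).le
        calc 2 * (s0:ℝ) * m * q = 2 * s0 * (q * m) := by ring
          _ ≤ 2 * (6 * m / A) * chi := by
              refine mul_le_mul (by linarith) hq2 (by positivity) (by positivity)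
          _ = 12 * m * chi / A := by ring
      refine h6.trans ?_
      have h7 : Real.exp 1 * (12 * m * chi / A) ≤ (1 / 4) ^ T * (clo * m / 64) := by
        rw [one_div_pow]
        rw [show Real.exp 1 * (12 * m * chi / A) = (768 * Real.exp 1 * chi) * m / (64 * A) by ring]
        rw [show 1 / (4:ℝ) ^ T * (clo * m / 64) = clo * m / (64 * 4 ^ T) by
          field_simp]
        rw [div_le_div_iff₀ (by positivity) (by positivity)]
        have h8 := mul_le_mul_of_nonneg_right hAT (show (0:ℝ) ≤ 64 * m by positivity)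
        nlinarith
      exact h7.trans (mul_le_mul_of_nonneg_left hj1l (by positivity))
    have h4 : (Real.exp 1 * (((2 * s0 * m : ℕ) : ℝ) * q) / j1) ^ j1 ≤ (1 / 4) ^ m := by
      calc _ ≤ ((1 / 4 : ℝ) ^ T) ^ j1 := pow_le_pow_left₀ (by positivity) h3 _
        _ = (1 / 4) ^ (T * j1) := by rw [← pow_mul]
        _ ≤ (1 / 4) ^ m := by
            refine pow_le_pow_of_le_one (by norm_num) (by norm_num) ?_
            have h5 : (m : ℝ) ≤ T * j1 := by
              have h6 := mul_le_mul_of_nonneg_left hj1l (show (0:ℝ) ≤ T by positivity)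
              nlinarith
            exact_mod_cast h5
    calc 2 ^ m * (((2 * s0 * m).choose j1 : ℝ) * q ^ j1) ≤ 2 ^ m * (1 / 4) ^ m :=
          mul_le_mul_of_nonneg_left (h2.trans h4) (by positivity)
      _ = (1 / 2) ^ m := by
          rw [← mul_pow]
          norm_num

theorem asy_refl {m j0 T : ℕ} {q : ℝ} (hq : 0 ≤ q) (hq2 : q ≤ (1 / 16) ^ T) (hT : m ≤ T * j0) :
    2 ^ m * m * (2 ^ m * q ^ j0) ≤ (1 / 2) ^ m := by
  have h1 : q ^ j0 ≤ (1 / 16) ^ m := by
    calc q ^ j0 ≤ ((1 / 16 : ℝ) ^ T) ^ j0 := pow_le_pow_left₀ hq hq2 _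
      _ = (1 / 16) ^ (T * j0) := by rw [← pow_mul]
      _ ≤ (1 / 16) ^ m := pow_le_pow_of_le_one (by norm_num) (by norm_num) hT
  have h2 : (m : ℝ) ≤ 2 ^ m := by exact_mod_cast Nat.lt_two_pow_self.le
  calc 2 ^ m * (m : ℝ) * (2 ^ m * q ^ j0) ≤ 2 ^ m * 2 ^ m * (2 ^ m * (1 / 16) ^ m) := by
        refine mul_le_mul (mul_le_mul_of_nonneg_left h2 (by positivity))
          (mul_le_mul_of_nonneg_left h1 (by positivity)) (by positivity) (by positivity)
    _ = (1 / 2) ^ m := by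
        rw [← mul_pow, ← mul_pow, ← mul_pow]
        norm_num

theorem asy_exp {clo : ℝ} (h0 : 0 < clo) {A M N r0 j0 : ℕ} (hA : 0 < A)
    (hM : 6 * (A:ℝ) ^ 2 ≤ clo * M) (hr0 : 3 * N ≤ 2 * A * r0)
    (hj0 : (j0 : ℝ) ≤ clo * (M * N : ℕ) / (4 * A ^ 2)) {q : ℝ}
    (hq1 : clo ≤ q * (M * N : ℕ)) (hq : 0 ≤ q) :
    4 ^ N * (2 ^ j0 * Real.exp (-(q * ((M * r0) * (M * r0) : ℕ)) / 2)) ≤
      Real.exp (-(clo * (M * N : ℕ) / (2 * A ^ 2))) := by
  have hAR : (0:ℝ) < A := by exact_mod_cast hA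
  have h1 : (4:ℝ) ^ N ≤ Real.exp (clo * (M * N : ℕ) / (4 * A ^ 2)) := by
    have h2 := two_pow_le_exp (2 * N)
    rw [pow_mul] at h2
    norm_num at h2
    refine h2.trans (Real.exp_le_exp.2 ?_)
    rw [le_div_iff₀ (by positivity)]
    push_cast
    have h3 := mul_le_mul_of_nonneg_right hM (show (0:ℝ) ≤ N by positivity)
    nlinarith [show (0:ℝ) ≤ A ^ 2 * N by positivity]
  have h2 : (2:ℝ) ^ j0 ≤ Real.exp (clo * (M * N : ℕ) / (4 * A ^ 2)) := by
    refine (two_pow_le_exp j0).trans (Real.exp_le_exp.2 ?_)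
    have : (0:ℝ) ≤ j0 := by positivity
    linarith
  have h3 : clo * (M * N : ℕ) / A ^ 2 ≤ (q * ((M * r0) * (M * r0) : ℕ)) / 2 := by
    rw [div_le_div_iff₀ (by positivity) (by norm_num)]
    have hr0R : 3 * (N:ℝ) ≤ 2 * A * r0 := by exact_mod_cast hr0
    have h4 : (3 * (N:ℝ)) ^ 2 ≤ (2 * A * r0) ^ 2 := pow_le_pow_left₀ (by positivity) hr0R 2
    have h5 : 9 * (N:ℝ) ^ 2 * M ^ 2 ≤ 4 * A ^ 2 * ((M * r0) * (M * r0)) := by
      have h6 := mul_le_mul_of_nonneg_right h4 (show (0:ℝ) ≤ M ^ 2 by positivity)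
      nlinarith
    have h6 := mul_le_mul_of_nonneg_left h5 hq
    push_cast at hq1 ⊢
    have h7 := mul_le_mul_of_nonneg_right hq1 (show (0:ℝ) ≤ M * N by positivity)
    nlinarith
  calc 4 ^ N * (2 ^ j0 * Real.exp (-(q * ((M * r0) * (M * r0) : ℕ)) / 2)) ≤
      Real.exp (clo * (M * N : ℕ) / (4 * A ^ 2)) * (Real.exp (clo * (M * N : ℕ) / (4 * A ^ 2)) *
        Real.exp (-(clo * (M * N : ℕ) / A ^ 2))) := by
        refine mul_le_mul h1 (mul_le_mul h2 (Real.exp_le_exp.2 (by linarith))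
          (Real.exp_pos _).le (Real.exp_pos _).le) (by positivity) (Real.exp_pos _).le
    _ = _ := by
        rw [← Real.exp_add, ← Real.exp_add]
        congr 1
        field_simp
        ring

theorem asy_light {clo : ℝ} {A M N r1 D : ℕ} (hA : 0 < A)
    (hM : 23 * (A:ℝ) ≤ clo * M) (hr1 : N ≤ 2 * A * r1) (hr2 : 2 * r1 ≤ N)
    (hD : 12 * (D : ℝ) ≤ clo * M) {q : ℝ} (hN : 0 < N)
    (hq1 : clo ≤ q * (M * N : ℕ)) (hq : 0 ≤ q) :
    2 ^ N * (2 ^ (2 * D * r1) * Real.exp (-(q * ((M * r1) * (M * (N - r1)) : ℕ)) / 2)) ≤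
      Real.exp (-(clo * M * r1 / 16)) := by
  have hAR : (0:ℝ) < A := by exact_mod_cast hA
  have hNR : (0:ℝ) < N := by exact_mod_cast hN
  have hr1R : (N:ℝ) ≤ 2 * A * r1 := by exact_mod_cast hr1
  have h1 : (2:ℝ) ^ N ≤ Real.exp (clo * M * r1 / 16) := by
    refine (two_pow_le_exp N).trans (Real.exp_le_exp.2 ?_)
    have h3 := mul_le_mul_of_nonneg_right hM (show (0:ℝ) ≤ r1 by positivity)
    nlinarith
  have h2 : (2:ℝ) ^ (2 * D * r1) ≤ Real.exp (clo * M * r1 / 8) := by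
    refine (two_pow_le_exp _).trans (Real.exp_le_exp.2 ?_)
    push_cast
    have h3 := mul_le_mul_of_nonneg_right hD (show (0:ℝ) ≤ r1 by positivity)
    nlinarith [show (0:ℝ) ≤ D * r1 by positivity]
  have h3 : clo * M * r1 / 4 ≤ (q * ((M * r1) * (M * (N - r1)) : ℕ)) / 2 := by
    have h4 : M * N ≤ 2 * (M * (N - r1)) := by
      have : N ≤ 2 * (N - r1) := by omega
      calc M * N ≤ M * (2 * (N - r1)) := Nat.mul_le_mul_left M this
        _ = _ := by ring
    have h5 : (M * r1) * (M * N) ≤ 2 * ((M * r1) * (M * (N - r1))) := by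
      calc (M * r1) * (M * N) ≤ (M * r1) * (2 * (M * (N - r1))) := Nat.mul_le_mul_left _ h4
        _ = _ := by ring
    have h6 : (((M * r1) * (M * N) : ℕ) : ℝ) ≤ 2 * (((M * r1) * (M * (N - r1)) : ℕ) : ℝ) := by
      exact_mod_cast h5
    have h7 := mul_le_mul_of_nonneg_left h6 hq
    have h8 := mul_le_mul_of_nonneg_right hq1 (show (0:ℝ) ≤ (M * r1 : ℕ) by positivity)
    push_cast at h7 h8 ⊢
    nlinarith
  calc 2 ^ N * (2 ^ (2 * D * r1) * Real.exp (-(q * ((M * r1) * (M * (N - r1)) : ℕ)) / 2)) ≤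
      Real.exp (clo * M * r1 / 16) * (Real.exp (clo * M * r1 / 8) *
        Real.exp (-(clo * M * r1 / 4))) := by
        refine mul_le_mul h1 (mul_le_mul h2 (Real.exp_le_exp.2 (by linarith))
          (Real.exp_pos _).le (Real.exp_pos _).le) (by positivity) (Real.exp_pos _).le
    _ = _ := by
        rw [← Real.exp_add, ← Real.exp_add]
        congr 1
        ring

theorem sum_half (J : ℕ) : ∑ j ∈ Finset.Icc 1 J, (j : ℝ) * (1 / 2) ^ j ≤ 2 - (J + 2) * (1 / 2) ^ J := by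
  induction J with
  | zero => simp
  | succ J ih =>
    rw [Finset.sum_Icc_succ_top (by omega)]
    have : ((J : ℝ) + 1) * (1 / 2) ^ (J + 1) = ((J : ℝ) + 1) / 2 * (1 / 2) ^ J := by
      rw [pow_succ]
      ring
    push_cast
    rw [this]
    have h2 : ((J:ℝ) + 1 + 2) * (1 / 2) ^ (J + 1) = ((J : ℝ) + 3) / 2 * (1 / 2) ^ J := by
      rw [pow_succ]
      ring
    rw [h2]
    linarith

/-- sparse event -/
theorem asy_sparse {chi C7 : ℝ} {M N J tau : ℕ} (hM : 0 < M) (hN : 0 < N)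
    (htau : 2 ≤ tau) (hC : Real.exp 1 * chi * M ≤ C7 * tau) (hC1 : 0 < C7)
    (hJ : 2 * C7 * J ≤ N) (hpow : Real.exp 1 * C7 * (1 / 2) ^ (tau - 2) ≤ 1 / 2) {q : ℝ}
    (hq2 : q * (M * N : ℕ) ≤ chi) (hq : 0 ≤ q) :
    ∑ j ∈ Finset.Icc 1 J, (N.choose j : ℝ) * ((((M * j) ^ 2).choose (tau * j) : ℕ) *
        q ^ (tau * j)) ≤ 2 * C7 / N := by
  have hNR : (0:ℝ) < N := by exact_mod_cast hN
  have hMR : (0:ℝ) < M := by exact_mod_cast hM
  have key : ∀ j ∈ Finset.Icc 1 J, (N.choose j : ℝ) * ((((M * j) ^ 2).choose (tau * j) : ℕ) *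
        q ^ (tau * j)) ≤ C7 / N * (j * (1 / 2) ^ j) := by
    intro j hj
    rw [Finset.mem_Icc] at hj
    have hj0 : (0:ℝ) < j := by exact_mod_cast hj.1
    have hjJ : (j:ℝ) ≤ J := by exact_mod_cast hj.2
    have htR : (0:ℝ) < tau := by
      have : 0 < tau := by omega
      exact_mod_cast this
    set b : ℝ := C7 * j / N with hb
    have hb0 : 0 ≤ b := by positivity
    have hb1 : b ≤ 1 / 2 := by
      rw [hb, div_le_iff₀ hNR]
      nlinarith
    have h2 : (((((M * j) ^ 2).choose (tau * j) : ℕ)) : ℝ) * q ^ (tau * j) ≤ b ^ (tau * j) := by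
      refine (choose_mul_pow_le _ _ (by nlinarith [hj.1]) hq).trans ?_
      refine pow_le_pow_left₀ (by positivity) ?_ _
      rw [hb]
      push_cast
      rw [div_le_div_iff₀ (by positivity) hNR]
      push_cast at hq2
      have h3 : Real.exp 1 * ((M * j) ^ 2 * q) * N = (Real.exp 1 * M) * j ^ 2 * (q * (M * N)) := by
        ring
      rw [h3]
      calc (Real.exp 1 * M) * j ^ 2 * (q * (M * N)) ≤ (Real.exp 1 * M) * (j:ℝ) ^ 2 * chi :=
            mul_le_mul_of_nonneg_left hq2 (by positivity)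
        _ = (Real.exp 1 * chi * M) * j ^ 2 := by ring
        _ ≤ (C7 * tau) * j ^ 2 := mul_le_mul_of_nonneg_right hC (by positivity)
        _ = C7 * j * (tau * j) := by ring
    have h4 : (N.choose j : ℝ) ≤ (Real.exp 1 * N / j) ^ j := by
      have := choose_mul_pow_le N j hj.1 (q := 1) (by norm_num)
      simpa using this
    have h5 : (N.choose j : ℝ) * ((((M * j) ^ 2).choose (tau * j) : ℕ) * q ^ (tau * j)) ≤
        (Real.exp 1 * N / j * b ^ tau) ^ j := by
      rw [mul_pow (Real.exp 1 * (N:ℝ) / j) (b ^ tau) j, ← pow_mul]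
      exact mul_le_mul h4 h2 (by positivity) (by positivity)
    refine h5.trans ?_
    have h6 : Real.exp 1 * N / j * b ^ tau ≤ 1 / 2 * b := by
      have h7 : b ^ tau = b * b * b ^ (tau - 2) := by
        rw [← pow_two, ← pow_add]
        congr 1
        omega
      have h8 : Real.exp 1 * N / j * b ^ tau = (Real.exp 1 * C7) * b ^ (tau - 2) * b := by
        rw [h7]
        rw [hb]
        field_simp
      rw [h8]
      refine mul_le_mul_of_nonneg_right ?_ hb0
      refine le_trans ?_ hpow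
      refine mul_le_mul_of_nonneg_left ?_ (by positivity)
      exact pow_le_pow_left₀ hb0 hb1 _
    calc (Real.exp 1 * N / j * b ^ tau) ^ j ≤ (1 / 2 * b) ^ j :=
          pow_le_pow_left₀ (by positivity) h6 _
      _ = (1 / 2) ^ j * b ^ j := by rw [mul_pow]
      _ ≤ (1 / 2) ^ j * b := by
          refine mul_le_mul_of_nonneg_left ?_ (by positivity)
          calc b ^ j ≤ b ^ 1 := pow_le_pow_of_le_one hb0 (by linarith) hj.1
            _ = b := pow_one b
      _ = C7 / N * (j * (1 / 2) ^ j) := by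
          rw [hb]
          ring
  refine (Finset.sum_le_sum key).trans ?_
  rw [← Finset.mul_sum]
  have h2 := sum_half J
  have h3 : ∑ j ∈ Finset.Icc 1 J, (j : ℝ) * (1 / 2) ^ j ≤ 2 := by
    have : 0 ≤ ((J:ℝ) + 2) * (1 / 2) ^ J := by positivity
    linarith
  calc C7 / N * ∑ j ∈ Finset.Icc 1 J, (j : ℝ) * (1 / 2) ^ j ≤ C7 / N * 2 :=
        mul_le_mul_of_nonneg_left h3 (by positivity)
    _ = _ := by ring

end LR82
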