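import Pool.Agent.LR82.Ev2
import Pool.Agent.LR82.Asy

/-!
# All chord events together
-/

set_option linter.unusedSectionVars false
set_option linter.style.whitespace false

open Finset

noncomputable section

namespace LR82

/-- all chord events -/
def AllEv (M N l r0 r1 D K j0 : ℕ) (a : ℕ → ℝ) (adj : ℕ → ℕ → Prop) : Prop :=
  Ncls (M * N) (2 * r0 * M) a adj ∧ NRefl (M * N) a adj j0 ∧ Nexp M N r0 j0 adj ∧
    Sparse (wt (M * N) M adj) N (6 * r0) K ∧ Nlight M N r1 D adj ∧ NDR M N r1 a adj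

theorem good_of_allEv {M N l r0 r1 D K j0 : ℕ} {a : ℕ → ℝ} {adj : ℕ → ℕ → Prop}
    (h : AllEv M N l r0 r1 D K j0 a adj) (hZ : (Zb M N (2 * l + 1) a).card ≤ r1) :
    Good M N l r0 r1 D K j0 a adj :=
  ⟨h.1, h.2.1, h.2.2.1, h.2.2.2.1, h.2.2.2.2.1, h.2.2.2.2.2, hZ⟩

theorem exp_neg_le_inv {t : ℝ} (ht : 0 < t) : Real.exp (-t) ≤ 1 / t := by
  rw [Real.exp_neg, ← one_div]
  exact one_div_le_one_div_of_le ht (by linarith [Real.add_one_le_exp t])

theorem chords_prob {clo chi : ℝ} (hclo : 0 < clo) (hchi : 0 < chi) :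
    ∃ (A M N0 : ℕ) (C : ℝ), 36 ≤ A ∧ 0 < M ∧ 0 < C ∧ ∀ N, N0 ≤ N → 2 * A ≤ N ∧ ∃ D K j0 : ℕ,
      6 * K ≤ D ∧ ∀ (n : ℕ) (x : Fin n → ℝ), Function.Injective x → ∀ π : ℕ → Fin n,
        PInj π (M * N) → ∀ q : ℝ, 0 ≤ q → q ≤ 1 → clo ≤ q * (M * N : ℕ) → q * (M * N : ℕ) ≤ chi →
        Pr q (Epairs n) (fun B => ¬ AllEv M N (4 * A) (3 * (N / A)) (N / A) D K j0
          (fun i => x (π i)) (adjB π B)) ≤ C / N := by
  -- constants
  set C7 : ℝ := 288 * Real.exp 1 * chi / clo with hC7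
  have hC7p : 0 < C7 := by positivity
  set T : ℕ := ⌈64 / clo⌉₊ with hT
  have hT2 : 64 ≤ clo * T := by
    have := Nat.le_ceil (64 / clo)
    rw [div_le_iff₀ hclo] at this
    linarith
  obtain ⟨A, hA⟩ := exists_nat_ge (36 + 36 * C7 + 768 * Real.exp 1 * chi * 4 ^ T / clo)
  have hA36 : (36 : ℝ) ≤ A := by
    have : 0 ≤ 768 * Real.exp 1 * chi * 4 ^ T / clo := by positivity
    linarith
  have hAC : 36 * C7 ≤ A := by
    have : 0 ≤ 768 * Real.exp 1 * chi * 4 ^ T / clo := by positivity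
    linarith
  have hAT : 768 * Real.exp 1 * chi * 4 ^ T ≤ clo * A := by
    have : 768 * Real.exp 1 * chi * 4 ^ T / clo ≤ A := by linarith
    rw [div_le_iff₀ hclo] at this
    linarith
  have hA36' : 36 ≤ A := by exact_mod_cast hA36
  have hApos : 0 < A := by omega
  have hAR : (0:ℝ) < A := by exact_mod_cast hApos
  -- tau0
  obtain ⟨t0, ht0⟩ := exists_pow_lt_of_lt_one (show (0:ℝ) < 1 / (2 * (Real.exp 1 * C7)) by positivity)
    (show (1 / 2 : ℝ) < 1 by norm_num)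
  obtain ⟨M, hM⟩ := exists_nat_ge ((6 * (A:ℝ) ^ 2 + 23 * A + 312 + 288 * (t0 + 2)) / clo)
  rw [div_le_iff₀ hclo, mul_comm (M:ℝ) clo] at hM
  have hA2 : (0:ℝ) ≤ 6 * (A:ℝ) ^ 2 := by positivity
  have ht0R : (0:ℝ) ≤ t0 := by positivity
  have hM1 : 6 * (A:ℝ) ^ 2 ≤ clo * M := by linarith
  have hM2 : 23 * (A:ℝ) ≤ clo * M := by linarith
  have hM3 : 312 ≤ clo * M := by linarith
  have hM4 : 288 * ((t0:ℝ) + 2) ≤ clo * M := by linarith
  have hMp : 0 < M := by
    rcases Nat.eq_zero_or_pos M with h | h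
    · rw [h] at hM3
      norm_num at hM3
    · exact h
  have hMR : (0:ℝ) < M := by exact_mod_cast hMp
  have hMR1 : (1:ℝ) ≤ M := by exact_mod_cast hMp
  set D : ℕ := ⌊clo * M / 12⌋₊ with hD
  set tau : ℕ := D / 12 with htau
  have hDu : (D : ℝ) ≤ clo * M / 12 := Nat.floor_le (by positivity)
  have hDl : clo * M / 12 < D + 1 := Nat.lt_floor_add_one _
  have htl : clo * M / 288 ≤ tau := by
    have h1 : D < 12 * (tau + 1) := by omega
    have h2 : (D : ℝ) < 12 * (tau + 1) := by exact_mod_cast h1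
    have h3 : (D : ℝ) + 1 ≤ 12 * (tau + 1) := by exact_mod_cast h1
    linarith
  have ht2 : t0 + 2 ≤ tau := by
    have : ((t0:ℝ) + 2) ≤ tau := by linarith
    exact_mod_cast this
  set T2 : ℕ := ⌈8 * (A:ℝ) ^ 2 / clo⌉₊ with hT2d
  have hT2' : 8 * (A:ℝ) ^ 2 ≤ clo * T2 := by
    have := Nat.le_ceil (8 * (A:ℝ) ^ 2 / clo)
    rw [div_le_iff₀ hclo] at this
    linarith
  obtain ⟨N1, hN1⟩ := exists_nat_ge ((8 * (A:ℝ) ^ 2 + 64) / clo + chi * 16 ^ T2)
  set C : ℝ := 32 / clo + 1 + 1 + 2 * (A:ℝ) ^ 2 / clo + 32 * A / clo + 2 * C7 +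
    M * 2 ^ M * chi ^ 2 * (2 * A) with hC
  refine ⟨A, M, max N1 (2 * A), C, hA36', hMp, by positivity, fun N hN => ?_⟩
  have hN2 : 2 * A ≤ N := le_trans (le_max_right _ _) hN
  have hN3 : N1 ≤ N := le_trans (le_max_left _ _) hN
  refine ⟨hN2, D, 2 * tau, ⌊clo * (M * N : ℕ) / (4 * A ^ 2)⌋₊, by omega, ?_⟩
  intro n x hx π hπ q hq0 hq1 hqlo hqhi
  have hNp : 0 < N := by omega
  have hNR : (0:ℝ) < N := by exact_mod_cast hNp
  have hN1R : (N1:ℝ) ≤ N := by exact_mod_cast hN3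
  set m : ℕ := M * N with hm
  have hmN : (N:ℝ) ≤ m := by
    rw [hm]
    push_cast
    nlinarith
  have hmR : (0:ℝ) < m := by linarith
  have hcm : 8 * (A:ℝ) ^ 2 + 64 ≤ clo * m := by
    have h1 : (8 * (A:ℝ) ^ 2 + 64) / clo ≤ N := by
      have : 0 ≤ chi * (16:ℝ) ^ T2 := by positivity
      linarith
    rw [div_le_iff₀ hclo] at h1
    nlinarith
  have hcm2 : chi * 16 ^ T2 ≤ m := by
    have : 0 ≤ (8 * (A:ℝ) ^ 2 + 64) / clo := by positivity
    linarith
  set r1 : ℕ := N / A with hr1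
  have hr1a : A * r1 ≤ N := Nat.mul_div_le N A
  have hr1b : N < A * (r1 + 1) := by
    rw [hr1, Nat.mul_comm]
    exact Nat.lt_mul_of_div_lt (Nat.lt_succ_self _) hApos
  have hr1c : N ≤ 2 * A * r1 := by nlinarith
  have hr1R : (N:ℝ) ≤ 2 * A * r1 := by exact_mod_cast hr1c
  set j0 : ℕ := ⌊clo * (m : ℕ) / (4 * A ^ 2)⌋₊ with hj0
  have hj0u : (j0 : ℝ) ≤ clo * (m : ℕ) / (4 * A ^ 2) := Nat.floor_le (by positivity)
  have hj0l : clo * m / (8 * (A:ℝ) ^ 2) ≤ j0 := by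
    have h1 := Nat.lt_floor_add_one (clo * (m : ℕ) / (4 * (A:ℝ) ^ 2))
    rw [← hj0] at h1
    have h2 : 1 ≤ clo * m / (8 * (A:ℝ) ^ 2) := by
      rw [le_div_iff₀ (by positivity)]
      linarith
    have h3 : clo * m / (4 * (A:ℝ) ^ 2) = 2 * (clo * m / (8 * (A:ℝ) ^ 2)) := by
      field_simp
      ring
    linarith
  -- the events
  have b1 : Pr q (Epairs n) (fun B => ¬ Ncls m (2 * (3 * r1) * M) (fun i => x (π i)) (adjB π B)) ≤
      (32 / clo) / N + 1 / N := by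
    refine (ev_cls (m := m) hπ hq0 hq1 (2 * (3 * r1) * M) ⌊clo * m / 32⌋₊ (m / 2) (by omega)).trans ?_
    have hs0 : A * (2 * (3 * r1) * M) ≤ 6 * m := by
      rw [hm]
      calc A * (2 * (3 * r1) * M) = 6 * M * (A * r1) := by ring
        _ ≤ 6 * M * N := Nat.mul_le_mul_left _ hr1a
        _ = _ := by ring
    have hm2 : 2 ≤ m := by
      rw [hm]
      nlinarith
    refine (asy_cls hclo hApos hT2 hAT (by linarith) hm2 hs0 hqlo hqhi hq0).trans ?_
    refine add_le_add ?_ ?_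
    · refine (exp_neg_le_inv (by positivity)).trans ?_
      rw [div_div, div_le_div_iff₀ (by positivity) (by positivity)]
      nlinarith
    · rw [one_div_pow]
      refine one_div_le_one_div_of_le hNR ?_
      have h1 : (m : ℝ) ≤ 2 ^ m := by exact_mod_cast Nat.lt_two_pow_self.le
      linarith
  have b2 : Pr q (Epairs n) (fun B => ¬ NRefl m (fun i => x (π i)) (adjB π B) j0) ≤ 1 / N := by
    refine (ev_refl hx hπ hq0 hq1 j0).trans ?_
    refine (asy_refl (T := T2) hq0 ?_ ?_).trans ?_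
    · rw [one_div_pow, le_div_iff₀ (by positivity)]
      have h1 : q * m * 16 ^ T2 ≤ chi * 16 ^ T2 := mul_le_mul_of_nonneg_right hqhi (by positivity)
      have h2 : q * 16 ^ T2 * m ≤ 1 * m := by nlinarith
      exact le_of_mul_le_mul_right h2 hmR
    · have h1 : (m:ℝ) ≤ T2 * j0 := by
        have h2 := mul_le_mul_of_nonneg_left hj0l (show (0:ℝ) ≤ T2 by positivity)
        refine le_trans ?_ h2
        rw [mul_div_assoc', le_div_iff₀ (by positivity)]
        have h3 := mul_le_mul_of_nonneg_right hT2' hmR.le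
        nlinarith
      exact_mod_cast h1
    · rw [one_div_pow]
      refine one_div_le_one_div_of_le hNR ?_
      have h1 : (m : ℝ) ≤ 2 ^ m := by exact_mod_cast Nat.lt_two_pow_self.le
      linarith
  have b3 : Pr q (Epairs n) (fun B => ¬ Nexp M N (3 * r1) j0 (adjB π B)) ≤
      (2 * (A:ℝ) ^ 2 / clo) / N := by
    refine (ev_exp hMp hπ hq0 hq1 (3 * r1) j0).trans ?_
    refine (asy_exp hclo hApos hM1 (r0 := 3 * r1) (by nlinarith) hj0u hqlo hq0).trans ?_
    refine (exp_neg_le_inv (by positivity)).trans ?_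
    rw [div_div_eq_mul_div, one_mul, div_div, div_le_div_iff₀ (by positivity) (by positivity)]
    have h1 : clo * N ≤ clo * m := mul_le_mul_of_nonneg_left hmN hclo.le
    nlinarith
  have b4 : Pr q (Epairs n) (fun B => ¬ Sparse (wt m M (adjB π B)) N (6 * (3 * r1)) (2 * tau)) ≤
      (2 * C7) / N := by
    refine (ev_sparse hMp hπ hq0 hq1 (6 * (3 * r1)) tau).trans ?_
    refine asy_sparse (chi := chi) (C7 := C7) hMp hNp (by omega) ?_ hC7p ?_ ?_ hqhi hq0
    · have h1 := mul_le_mul_of_nonneg_left htl hC7p.le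
      refine le_trans (le_of_eq ?_) h1
      rw [hC7]
      field_simp
    · push_cast
      have h1 : (A:ℝ) * r1 ≤ N := by exact_mod_cast hr1a
      have h2 := mul_le_mul_of_nonneg_right hAC (show (0:ℝ) ≤ r1 by positivity)
      nlinarith
    · have h1 : (1 / 2 : ℝ) ^ (tau - 2) ≤ (1 / 2) ^ t0 :=
        pow_le_pow_of_le_one (by norm_num) (by norm_num) (by omega)
      have h2 := mul_le_mul_of_nonneg_left (h1.trans ht0.le) (show 0 ≤ Real.exp 1 * C7 by positivity)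
      refine h2.trans (le_of_eq ?_)
      field_simp
  have b5 : Pr q (Epairs n) (fun B => ¬ Nlight M N r1 D (adjB π B)) ≤ (32 * A / clo) / N := by
    refine (ev_light hMp hπ hq0 hq1 r1 D).trans ?_
    refine (asy_light hApos hM2 hr1c (by nlinarith) (by linarith) hNp hqlo hq0).trans ?_
    have hr1p : (0:ℝ) < r1 := by
      by_contra hcon
      have : (r1:ℝ) = 0 := le_antisymm (not_lt.1 hcon) (by positivity)
      rw [this] at hr1R
      linarith
    refine (exp_neg_le_inv (by positivity)).trans ?_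
    rw [div_div, div_le_div_iff₀ (by positivity) (by positivity)]
    have h1 : (N:ℝ) ≤ 2 * A * (M * r1) := by
      have : (r1:ℝ) ≤ M * r1 := by nlinarith
      nlinarith
    have h2 := mul_le_mul_of_nonneg_left h1 hclo.le
    nlinarith
  have b6 : Pr q (Epairs n) (fun B => ¬ NDR M N r1 (fun i => x (π i)) (adjB π B)) ≤
      (M * 2 ^ M * chi ^ 2 * (2 * A)) / N := by
    refine (ev_DR hx hMp hπ hq0 hq1 r1).trans ?_
    rw [div_le_div_iff₀ (by positivity) hNR]
    have h1 : (q * m) ^ 2 ≤ chi ^ 2 := pow_le_pow_left₀ (by positivity) hqhi 2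
    have h2 : (N:ℝ) ≤ 2 * A * (r1 + 1) := by nlinarith
    have h3 : (((M * N) * (M * 2 ^ M) * (M * N) : ℕ) : ℝ) * q ^ 2 = (M * 2 ^ M) * (q * m) ^ 2 := by
      rw [hm]
      push_cast
      ring
    rw [h3]
    calc (M * 2 ^ M : ℝ) * (q * m) ^ 2 * N ≤ (M * 2 ^ M) * chi ^ 2 * (2 * A * (r1 + 1)) := by
          refine mul_le_mul (mul_le_mul_of_nonneg_left h1 (by positivity)) h2 hNR.le (by positivity)
      _ = _ := by ring
  -- union bound
  have key : Pr q (Epairs n) (fun B => ¬ AllEv M N (4 * A) (3 * r1) r1 D (2 * tau) j0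
      (fun i => x (π i)) (adjB π B)) ≤
      Pr q (Epairs n) (fun B => (¬ Ncls m (2 * (3 * r1) * M) (fun i => x (π i)) (adjB π B)) ∨
        (¬ NRefl m (fun i => x (π i)) (adjB π B) j0) ∨ (¬ Nexp M N (3 * r1) j0 (adjB π B)) ∨
        (¬ Sparse (wt m M (adjB π B)) N (6 * (3 * r1)) (2 * tau)) ∨
        (¬ Nlight M N r1 D (adjB π B)) ∨ (¬ NDR M N r1 (fun i => x (π i)) (adjB π B))) := by
    refine Pr_mono hq0 hq1 fun B _ hB => ?_
    by_contra hcon
    push Not at hcon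
    exact hB hcon
  refine key.trans ?_
  refine (Pr_or hq0 hq1 _ _ _).trans ?_
  refine (add_le_add b1 ((Pr_or hq0 hq1 _ _ _).trans (add_le_add b2
    ((Pr_or hq0 hq1 _ _ _).trans (add_le_add b3 ((Pr_or hq0 hq1 _ _ _).trans (add_le_add b4
    ((Pr_or hq0 hq1 _ _ _).trans (add_le_add b5 b6))))))))).trans (le_of_eq ?_)
  rw [hC]
  field_simp
  ring

end LR82
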