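import Pool.Agent.LR82.Dfs

/-!
# Short additive coincidences along paths are rare
-/

set_option linter.unusedSectionVars false
set_option linter.style.whitespace false

open Finset

noncomputable section

namespace LR82

variable {n : ℕ}

/-- a window of `L + 1` vertices with a vanishing nonempty partial sum of steps -/
def BadW (x : Fin n → ℝ) (L : ℕ) (u : Fin (L + 1) → Fin n) : Prop :=
  ∃ F : Finset (Fin L), F.Nonempty ∧ ∑ k ∈ F, (x (u k.succ) - x (u k.castSucc)) = 0

/-- the pairs of consecutive vertices of a window -/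
def Wp (L : ℕ) (u : Fin (L + 1) → Fin n) : Finset (Sym2 (Fin n)) :=
  Finset.univ.image (fun k : Fin L => s(u k.castSucc, u k.succ))

theorem Wp_card {L : ℕ} {u : Fin (L + 1) → Fin n} (hu : Function.Injective u) :
    (Wp L u).card = L := by
  unfold Wp
  rw [Finset.card_image_of_injective, Finset.card_univ, Fintype.card_fin]
  intro j k h
  simp only [Sym2.eq_iff] at h
  rcases h with ⟨h1, _⟩ | ⟨h1, h2⟩
  · exact Fin.castSucc_injective L (hu h1)
  · have h3 := congrArg Fin.val (hu h1)
    have h4 := congrArg Fin.val (hu h2)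
    simp only [Fin.val_castSucc, Fin.val_succ] at h3 h4
    omega

theorem Wp_subset {L : ℕ} {u : Fin (L + 1) → Fin n} (hu : Function.Injective u) :
    Wp L u ⊆ Epairs n := by
  intro e he
  unfold Wp at he
  rw [Finset.mem_image] at he
  obtain ⟨k, _, rfl⟩ := he
  rw [mem_Epairs]
  intro h
  have h3 := congrArg Fin.val (hu h)
  simp only [Fin.val_castSucc, Fin.val_succ] at h3
  omega

open Classical in
/-- for a fixed pattern, one vertex of the window is determined by the others -/
theorem count_pattern {x : Fin n → ℝ} (hx : Function.Injective x) {L : ℕ} {F : Finset (Fin L)}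
    (hF : F.Nonempty) :
    ((Finset.univ : Finset (Fin (L + 1) → Fin n)).filter
      (fun u => ∑ k ∈ F, (x (u k.succ) - x (u k.castSucc)) = 0)).card ≤ n ^ L := by
  set i : Fin L := F.min' hF with hi
  have hiF : i ∈ F := F.min'_mem hF
  have h1 : ((Finset.univ : Finset (Fin (L + 1) → Fin n)).filter
      (fun u => ∑ k ∈ F, (x (u k.succ) - x (u k.castSucc)) = 0)).card ≤
      (Finset.univ : Finset (Fin L → Fin n)).card := by
    refine Finset.card_le_card_of_injOn (fun u => i.castSucc.removeNth u)
      (fun _ _ => Finset.mem_coe.2 (Finset.mem_univ _)) ?_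
    intro u hu v hv huv
    simp only [Finset.coe_filter, Finset.mem_univ, true_and, Set.mem_ofPred_eq] at hu hv
    have hoff : ∀ j, j ≠ i.castSucc → u j = v j := by
      intro j hj
      obtain ⟨k, rfl⟩ := Fin.exists_succAbove_eq hj
      exact congrFun huv k
    have hi2 : u i.castSucc = v i.castSucc := by
      rw [← Finset.add_sum_erase _ _ hiF] at hu hv
      have h2 : ∑ k ∈ F.erase i, (x (u k.succ) - x (u k.castSucc)) =
          ∑ k ∈ F.erase i, (x (v k.succ) - x (v k.castSucc)) := by
        refine Finset.sum_congr rfl fun k hk => ?_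
        have hk1 : i ≤ k := F.min'_le k (Finset.mem_of_mem_erase hk)
        have hk2 : k ≠ i := Finset.ne_of_mem_erase hk
        have hk3 : (i : ℕ) < k := by
          have : (i : ℕ) ≤ k := hk1
          have : (i : ℕ) ≠ k := fun h => hk2 (Fin.ext h.symm)
          omega
        rw [hoff k.succ, hoff k.castSucc]
        · intro h
          exact hk2 (Fin.castSucc_injective L h)
        · intro h
          have := congrArg Fin.val h
          simp only [Fin.val_succ, Fin.val_castSucc] at this
          omega
      have h3 : u i.succ = v i.succ := by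
        refine hoff _ fun h => ?_
        have := congrArg Fin.val h
        simp only [Fin.val_succ, Fin.val_castSucc] at this
        omega
      rw [h2, h3] at hu
      exact hx (by linarith)
    funext j
    by_cases hj : j = i.castSucc
    · rw [hj, hi2]
    · exact hoff j hj
  simpa using h1

open Classical in
/-- the number of injective bad windows -/
theorem count_bad {x : Fin n → ℝ} (hx : Function.Injective x) (L : ℕ) :
    ((Finset.univ : Finset (Fin (L + 1) → Fin n)).filter
      (fun u => Function.Injective u ∧ BadW x L u)).card ≤ 2 ^ L * n ^ L := by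
  have h1 : ((Finset.univ : Finset (Fin (L + 1) → Fin n)).filter
      (fun u => Function.Injective u ∧ BadW x L u)) ⊆
      ((Finset.univ : Finset (Finset (Fin L))).filter (fun F => F.Nonempty)).biUnion
        (fun F => (Finset.univ : Finset (Fin (L + 1) → Fin n)).filter
          (fun u => ∑ k ∈ F, (x (u k.succ) - x (u k.castSucc)) = 0)) := by
    intro u hu
    rw [Finset.mem_filter] at hu
    obtain ⟨F, hF, hs⟩ := hu.2.2
    rw [Finset.mem_biUnion]
    exact ⟨F, Finset.mem_filter.2 ⟨Finset.mem_univ _, hF⟩,
      Finset.mem_filter.2 ⟨Finset.mem_univ _, hs⟩⟩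
  refine (Finset.card_le_card h1).trans (Finset.card_biUnion_le.trans ?_)
  refine (Finset.sum_le_card_nsmul _ _ (n ^ L) ?_).trans ?_
  · intro F hF
    exact count_pattern hx (Finset.mem_filter.1 hF).2
  · rw [smul_eq_mul]
    refine Nat.mul_le_mul_right _ ?_
    refine (Finset.card_le_card (Finset.filter_subset _ _)).trans ?_
    simp

open Classical in
/-- the injective bad windows of `A` -/
def Ybad (x : Fin n → ℝ) (L : ℕ) (A : Finset (Sym2 (Fin n))) :
    Finset (Fin (L + 1) → Fin n) :=
  Finset.univ.filter (fun u => (Function.Injective u ∧ BadW x L u) ∧ Wp L u ⊆ A)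

theorem Ybad_prob {x : Fin n → ℝ} (hx : Function.Injective x) (L : ℕ) {p t : ℝ} (h0 : 0 ≤ p)
    (h1 : p ≤ 1) (ht : 0 < t) :
    Pr p (Epairs n) (fun A => t ≤ (Ybad x L A).card) ≤ (2 * n * p) ^ L / t := by
  classical
  have h2 := Pr_markov (p := p) h0 h1 (E := Epairs n) (P := fun A => t ≤ (Ybad x L A).card)
    (F := fun A => ((Ybad x L A).card : ℝ)) ht (fun A _ => by positivity) (fun A _ h => h)
  refine h2.trans ?_
  refine div_le_div_of_nonneg_right ?_ ht.le
  have h3 : Ex p (Epairs n) (fun A => ((Ybad x L A).card : ℝ)) =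
      ∑ u ∈ (Finset.univ : Finset (Fin (L + 1) → Fin n)).filter
        (fun u => Function.Injective u ∧ BadW x L u), p ^ L := by
    have h4 : ∀ A, ((Ybad x L A).card : ℝ) =
        ∑ u ∈ (Finset.univ : Finset (Fin (L + 1) → Fin n)).filter
        (fun u => Function.Injective u ∧ BadW x L u), if Wp L u ⊆ A then (1:ℝ) else 0 := by
      intro A
      rw [Finset.sum_boole]
      congr 2
      unfold Ybad
      rw [Finset.filter_filter]
    rw [Ex_congr (fun A _ => h4 A), Ex_sum]
    refine Finset.sum_congr rfl fun u hu => ?_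
    have hu2 := (Finset.mem_filter.1 hu).2.1
    have := Ex_subset p (Wp_subset hu2)
    rw [Wp_card hu2] at this
    exact this
  rw [h3, Finset.sum_const, nsmul_eq_mul]
  have h5 : (((Finset.univ : Finset (Fin (L + 1) → Fin n)).filter
      (fun u => Function.Injective u ∧ BadW x L u)).card : ℝ) ≤ 2 ^ L * n ^ L := by
    exact_mod_cast count_bad hx L
  calc _ ≤ (2 ^ L * n ^ L : ℝ) * p ^ L := mul_le_mul_of_nonneg_right h5 (pow_nonneg h0 _)
    _ = _ := by rw [mul_pow, mul_pow]

end LR82
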