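import Mathlib

/-!
# The core of the block graph
-/

set_option linter.unusedSectionVars false
set_option linter.style.whitespace false

open Finset

namespace LR82

/-- `R` together with its neighbours on the line -/
def plus (N : ℕ) (R : Finset ℕ) : Finset ℕ :=
  (range N).filter (fun c => c ∈ R ∨ c + 1 ∈ R ∨ (1 ≤ c ∧ c - 1 ∈ R))

theorem mem_plus {N : ℕ} {R : Finset ℕ} {c : ℕ} :
    c ∈ plus N R ↔ c < N ∧ (c ∈ R ∨ c + 1 ∈ R ∨ (1 ≤ c ∧ c - 1 ∈ R)) := by
  simp [plus]

theorem plus_card (N : ℕ) (R : Finset ℕ) : (plus N R).card ≤ 3 * R.card := by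
  have h : plus N R ⊆ (R ∪ R.image (fun c => c - 1)) ∪ R.image (fun c => c + 1) := by
    intro c hc
    rw [mem_plus] at hc
    rcases hc.2 with h | h | ⟨h1, h2⟩
    · exact Finset.mem_union_left _ (Finset.mem_union_left _ h)
    · refine Finset.mem_union_left _ (Finset.mem_union_right _ ?_)
      exact Finset.mem_image.2 ⟨c + 1, h, by simp⟩
    · refine Finset.mem_union_right _ ?_
      exact Finset.mem_image.2 ⟨c - 1, h2, by omega⟩
  have h1 := Finset.card_le_card h
  have h2 := Finset.card_union_le (R ∪ R.image (fun c => c - 1)) (R.image (fun c => c + 1))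
  have h3 := Finset.card_union_le R (R.image (fun c => c - 1))
  have h4 := Finset.card_image_le (s := R) (f := fun c => c - 1)
  have h5 := Finset.card_image_le (s := R) (f := fun c => c + 1)
  omega

theorem plus_mono {N : ℕ} {R R' : Finset ℕ} (h : R ⊆ R') : plus N R ⊆ plus N R' := by
  intro c hc
  rw [mem_plus] at hc ⊢
  refine ⟨hc.1, ?_⟩
  rcases hc.2 with h1 | h1 | ⟨h1, h2⟩
  · exact Or.inl (h h1)
  · exact Or.inr (Or.inl (h h1))
  · exact Or.inr (Or.inr ⟨h1, h h2⟩)

theorem subset_plus {N : ℕ} {R : Finset ℕ} (h : R ⊆ range N) : R ⊆ plus N R := by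
  intro c hc
  rw [mem_plus]
  exact ⟨Finset.mem_range.1 (h hc), Or.inl hc⟩

/-- chords from `b` to the set `X`, not counting `b` itself -/
def dg (w : ℕ → ℕ → ℕ) (b : ℕ) (X : Finset ℕ) : ℕ := ∑ c ∈ X.erase b, w b c

theorem dg_mono (w : ℕ → ℕ → ℕ) (b : ℕ) {X Y : Finset ℕ} (h : X ⊆ Y) : dg w b X ≤ dg w b Y :=
  Finset.sum_le_sum_of_subset (Finset.erase_subset_erase b h)

theorem dg_union (w : ℕ → ℕ → ℕ) (b : ℕ) (X Y : Finset ℕ) :
    dg w b (X ∪ Y) ≤ dg w b X + dg w b Y := by
  unfold dg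
  have : (X ∪ Y).erase b = X.erase b ∪ Y.erase b := by
    ext c
    simp only [Finset.mem_erase, Finset.mem_union]
    tauto
  rw [this, ← Finset.sum_union_inter]
  omega

/-- `c(R)` -/
def cR (w : ℕ → ℕ → ℕ) (N : ℕ) (R : Finset ℕ) : ℕ := ∑ b ∈ R, dg w b (plus N R)

/-- the sparse property -/
def Sparse (w : ℕ → ℕ → ℕ) (N J K : ℕ) : Prop :=
  ∀ X : Finset ℕ, X ⊆ range N → X.Nonempty → X.card ≤ J → ∑ b ∈ X, ∑ c ∈ X, w b c < K * X.card

theorem dg_sum_le (w : ℕ → ℕ → ℕ) {R X : Finset ℕ} (h : R ⊆ X) :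
    ∑ b ∈ R, dg w b X ≤ ∑ b ∈ X, ∑ c ∈ X, w b c := by
  refine (Finset.sum_le_sum_of_subset h).trans ?_
  refine Finset.sum_le_sum fun b _ => ?_
  exact Finset.sum_le_sum_of_subset (Finset.erase_subset _ _)

theorem core_exists (w : ℕ → ℕ → ℕ) {N J K D r0 : ℕ} (hs : Sparse w N J K) {R0 : Finset ℕ}
    (hR0 : R0 ⊆ range N) (hr : R0.card ≤ r0) (hr1 : 1 ≤ r0) (hJ : 6 * r0 ≤ J) (hD : 6 * K ≤ D)
    (hl : ∀ b, b < N → b ∉ R0 → 2 * D ≤ dg w b (range N)) :
    ∃ R : Finset ℕ, R ⊆ range N ∧ R0 ⊆ R ∧ R.card ≤ 2 * r0 ∧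
      ∀ b, b < N → b ∉ R → D < dg w b (range N \ plus N R) := by
  classical
  set Fam : Finset (Finset ℕ) := (range N).powerset.filter
    (fun R => R0 ⊆ R ∧ R.card ≤ 2 * r0 ∧ D * (R.card - R0.card) ≤ cR w N R) with hFam
  have hne : Fam.Nonempty := by
    refine ⟨R0, ?_⟩
    rw [hFam, Finset.mem_filter, Finset.mem_powerset]
    refine ⟨hR0, subset_rfl, by omega, ?_⟩
    simp
  obtain ⟨R, hR, hmax⟩ := Finset.exists_max_image Fam Finset.card hne
  rw [hFam, Finset.mem_filter, Finset.mem_powerset] at hR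
  obtain ⟨hRN, hRR, hRc, hRD⟩ := hR
  have hlt : R.card < 2 * r0 := by
    by_contra hcon
    have h1 : R.card = 2 * r0 := by omega
    have h2 : D * r0 ≤ cR w N R := by
      refine le_trans (Nat.mul_le_mul_left D ?_) hRD
      omega
    have h3 : cR w N R ≤ ∑ b ∈ plus N R, ∑ c ∈ plus N R, w b c := dg_sum_le w (subset_plus hRN)
    have h4 := plus_card N R
    have h5 : (plus N R).Nonempty := by
      rw [← Finset.card_pos]
      have := Finset.card_le_card (subset_plus hRN)
      omega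
    have h6 := hs (plus N R) (Finset.filter_subset _ _) h5 (by omega)
    have h7 : K * (plus N R).card ≤ K * (6 * r0) := Nat.mul_le_mul_left K (by omega)
    have h8 : 6 * K * r0 ≤ D * r0 := Nat.mul_le_mul_right r0 hD
    nlinarith
  refine ⟨R, hRN, hRR, hRc, fun b hb hbR => ?_⟩
  have h1 : dg w b (plus N R) < D := by
    by_contra hcon
    push Not at hcon
    have hmem : insert b R ∈ Fam := by
      rw [hFam, Finset.mem_filter, Finset.mem_powerset, Finset.card_insert_of_notMem hbR]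
      refine ⟨?_, ?_, by omega, ?_⟩
      · rw [Finset.insert_subset_iff]
        exact ⟨Finset.mem_range.2 hb, hRN⟩
      · exact hRR.trans (Finset.subset_insert _ _)
      · have h2 : cR w N R + D ≤ cR w N (insert b R) := by
          unfold cR
          rw [Finset.sum_insert hbR]
          have h3 : ∑ x ∈ R, dg w x (plus N R) ≤ ∑ x ∈ R, dg w x (plus N (insert b R)) :=
            Finset.sum_le_sum fun x _ => dg_mono w x (plus_mono (Finset.subset_insert _ _))
          have h4 : dg w b (plus N R) ≤ dg w b (plus N (insert b R)) :=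
            dg_mono w b (plus_mono (Finset.subset_insert _ _))
          omega
        have h5 : R0.card ≤ R.card := Finset.card_le_card hRR
        have h6 : R.card + 1 - R0.card = (R.card - R0.card) + 1 := by omega
        rw [h6, Nat.mul_add, Nat.mul_one]
        omega
    have h2 := hmax _ hmem
    rw [Finset.card_insert_of_notMem hbR] at h2
    omega
  have h2 := hl b hb (fun h => hbR (hRR h))
  have h3 : dg w b (range N) ≤ dg w b (plus N R) + dg w b (range N \ plus N R) := by
    refine le_trans (dg_mono w b ?_) (dg_union w b _ _)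
    rw [Finset.union_sdiff_of_subset (show plus N R ⊆ range N from Finset.filter_subset _ _)]
  omega

theorem core_final (w : ℕ → ℕ → ℕ) {N J K D r0 : ℕ} (hs : Sparse w N J K) {R bb : Finset ℕ}
    (hJ : 6 * r0 ≤ J) (hD : 6 * K ≤ D)
    (hcore : ∀ b, b < N → b ∉ R → D < dg w b (range N \ plus N R))
    (hbN : bb ⊆ range N) (hbR : ∀ b ∈ bb, b ∉ R) (hbc : bb.card ≤ 2 * r0)
    (h1 : ∀ b ∈ bb, dg w b ((range N \ plus N R) \ plus N bb) ≤ 1) : bb = ∅ := by
  by_contra hne
  rw [← Ne, ← Finset.nonempty_iff_ne_empty] at hne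
  have h2 : ∀ b ∈ bb, D ≤ dg w b (plus N bb) := by
    intro b hb
    have h3 := hcore b (Finset.mem_range.1 (hbN hb)) (hbR b hb)
    have h4 := h1 b hb
    have h5 : dg w b (range N \ plus N R) ≤
        dg w b (plus N bb) + dg w b ((range N \ plus N R) \ plus N bb) := by
      refine le_trans (dg_mono w b ?_) (dg_union w b _ _)
      intro c hc
      by_cases h : c ∈ plus N bb
      · exact Finset.mem_union_left _ h
      · exact Finset.mem_union_right _ (Finset.mem_sdiff.2 ⟨hc, h⟩)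
    omega
  have h3 : D * bb.card ≤ ∑ b ∈ bb, dg w b (plus N bb) := by
    have := Finset.card_nsmul_le_sum bb (fun b => dg w b (plus N bb)) D h2
    rw [smul_eq_mul] at this
    rw [mul_comm]
    exact this
  have h4 := dg_sum_le w (subset_plus hbN)
  have h5 := plus_card N bb
  have h6 := hs (plus N bb) (Finset.filter_subset _ _)
    (hne.mono (subset_plus hbN)) (by omega)
  have h7 : K * (plus N bb).card ≤ K * (3 * bb.card) := Nat.mul_le_mul_left K h5
  have h8 : 6 * K * bb.card ≤ D * bb.card := Nat.mul_le_mul_right _ hD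
  nlinarith

end LR82
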