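import Pool.Agent.LR82.Pos

/-!
# The deterministic theorem
-/

set_option linter.unusedSectionVars false
set_option linter.style.whitespace false

open Finset

namespace LR82

theorem fiber_card {M : ℕ} (hM : 0 < M) (S : Finset ℕ) (b : ℕ) :
    (S.filter (fun i => i / M = b)).card ≤ M := by
  have h : S.filter (fun i => i / M = b) ⊆ Finset.Ico (b * M) ((b + 1) * M) := by
    intro i hi
    rw [Finset.mem_filter] at hi
    rw [Finset.mem_Ico]
    exact div_bounds hM hi.2
  have h1 := Finset.card_le_card h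
  rw [Nat.card_Ico] at h1
  have h2 : (b + 1) * M = b * M + M := by ring
  omega

/-- a class with many elements contains all positions outside the core's complement -/
theorem det_class {M N l r0 r1 D K j0 : ℕ} {a : ℕ → ℝ} {adj : ℕ → ℕ → Prop} (hM : 0 < M)
    (hl : 1 ≤ l) (hNl : 2 * N ≤ l * r1) (hr : 3 * r1 ≤ r0) (hr0 : 1 ≤ r0) (hKD : 6 * K ≤ D)
    (ha : ∀ i, i < M * N → ∀ j, j < M * N → a i = a j → i = j)
    (hG : Good M N l r0 r1 D K j0 a adj) {R : Finset ℕ}
    (hZR : Zb M N (2 * l + 1) a ⊆ R)
    (hDR : ∀ b, b < N → b ∉ R → ¬ DRb (M * N) M a adj b)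
    (hcore : ∀ b, b < N → b ∉ R → D < dg (wt (M * N) M adj) b (range N \ plus N R))
    {φ : ℕ → ℝ} (hφ : Valid (M * N) a adj φ) {w : ℕ} (hw : w < M * N)
    (hA : 2 * r0 * M ≤ ((range (M * N)).filter (fun i => φ i - a i = φ w - a w)).card) :
    ∀ i, i < M * N → i / M ∉ plus N R → φ i - a i = φ w - a w := by
  classical
  set t : ℝ := φ w - a w with ht
  set m := M * N with hm
  set FB : Finset ℕ := (range N).filter (fun c => ∀ i, i < m → i / M = c → φ i - a i ≠ t) with hFB
  set FA : Finset ℕ := (range N).filter (fun c => ∀ i, i < m → i / M = c → φ i - a i = t) with hFA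
  set MX : Finset ℕ := (range N).filter (fun c => (∃ i, i < m ∧ i / M = c ∧ φ i - a i = t) ∧
    ∃ i, i < m ∧ i / M = c ∧ φ i - a i ≠ t) with hMX
  set Z := Zb M N (2 * l + 1) a with hZ
  -- mixed blocks are few
  have hnZ : ∀ c, c < N → c ∉ Z → 2 * l + 1 < c ∧ c + (2 * l + 1) + 1 < N := by
    intro c hc hcZ
    rw [hZ, Zb, Finset.mem_filter] at hcZ
    push Not at hcZ
    have := hcZ (Finset.mem_range.2 hc)
    exact ⟨this.1, this.2.1⟩
  have hmix : MX.card ≤ 2 * r1 := by
    set Rt := MX.filter (fun c => c ∉ Z ∧ ∀ j, j < m → c < j / M → j / M ≤ c + l → φ j - a j ≠ t)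
      with hRt
    set Lt := MX.filter (fun c => c ∉ Z ∧ ∀ i, i < m → i / M < c → c ≤ i / M + l → φ i - a i ≠ t)
      with hLt
    have hsub : MX ⊆ (Z ∪ Rt) ∪ Lt := by
      intro c hc
      by_cases hcZ : c ∈ Z
      · exact Finset.mem_union_left _ (Finset.mem_union_left _ hcZ)
      · have hc' := hc
        rw [hMX, Finset.mem_filter] at hc'
        obtain ⟨_, _, v, hv, hvc, hvA⟩ := hc'
        rcases runs hM hφ hv hvc hvA hcZ with h | h
        · exact Finset.mem_union_left _ (Finset.mem_union_right _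
            (Finset.mem_filter.2 ⟨hc, hcZ, h⟩))
        · exact Finset.mem_union_right _ (Finset.mem_filter.2 ⟨hc, hcZ, h⟩)
    have h1 := Finset.card_le_card hsub
    have h2 := Finset.card_union_le (Z ∪ Rt) Lt
    have h3 := Finset.card_union_le Z Rt
    have h4 : Rt.card * l ≤ N := by
      refine few_right Rt ?_ ?_
      · intro c hc
        rw [hRt, Finset.mem_filter, hMX, Finset.mem_filter, Finset.mem_range] at hc
        have := hnZ c hc.1.1 hc.2.1
        omega
      · intro c hc s hs1 hs2 hcs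
        rw [hRt, Finset.mem_filter] at hc hcs
        rw [hMX, Finset.mem_filter] at hcs
        obtain ⟨⟨_, ⟨i, hi, hic, hiA⟩, _⟩, _⟩ := hcs
        exact hc.2.2 i hi (by omega) (by omega) hiA
    have h5 : Lt.card * l ≤ N := by
      refine few_left Lt ?_ ?_
      · intro c hc
        rw [hLt, Finset.mem_filter, hMX, Finset.mem_filter, Finset.mem_range] at hc
        have := hnZ c hc.1.1 hc.2.1
        omega
      · intro c hc s hs1 hs2 hcs
        rw [hLt, Finset.mem_filter] at hc hcs
        have hcN : c < N := Finset.mem_range.1 ((Finset.mem_filter.1 hc.1).1)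
        have hcl := hnZ c hcN hc.2.1
        rw [hMX, Finset.mem_filter] at hcs
        obtain ⟨⟨_, ⟨i, hi, hic, hiA⟩, _⟩, _⟩ := hcs
        exact hc.2.2 i hi (by omega) (by omega) hiA
    have h6 : (Rt.card + Lt.card) * l ≤ r1 * l := by
      rw [Nat.add_mul, Nat.mul_comm r1 l]
      omega
    have h7 : Rt.card + Lt.card ≤ r1 := Nat.le_of_mul_le_mul_right h6 (by omega)
    have h8 : Z.card ≤ r1 := hG.hZ
    omega
  -- many full blocks inside the class
  have hFAc : r0 ≤ FA.card := by
    have h1 := Finset.card_le_mul_card_image (f := fun i => i / M)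
      ((range m).filter (fun i => φ i - a i = t)) M (fun b _ => fiber_card hM _ b)
    have h2 : ((range m).filter (fun i => φ i - a i = t)).image (fun i => i / M) ⊆ FA ∪ MX := by
      intro c hc
      rw [Finset.mem_image] at hc
      obtain ⟨i, hi, rfl⟩ := hc
      rw [Finset.mem_filter, Finset.mem_range] at hi
      have hcN : i / M < N := Nat.div_lt_of_lt_mul hi.1
      by_cases hall : ∀ j, j < m → j / M = i / M → φ j - a j = t
      · exact Finset.mem_union_left _ (Finset.mem_filter.2 ⟨Finset.mem_range.2 hcN, hall⟩)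
      · push Not at hall
        obtain ⟨j, hj, hji, hjA⟩ := hall
        exact Finset.mem_union_right _ (Finset.mem_filter.2 ⟨Finset.mem_range.2 hcN,
          ⟨i, hi.1, rfl, hi.2⟩, ⟨j, hj, hji, hjA⟩⟩)
    have h3 := Finset.card_le_card h2
    have h4 := Finset.card_union_le FA MX
    have h5 : 2 * r0 * M ≤ (FA.card + MX.card) * M := by
      refine hA.trans (h1.trans ?_)
      rw [Nat.mul_comm]
      exact Nat.mul_le_mul_right M (h3.trans h4)
    have h6 := Nat.le_of_mul_le_mul_right h5 hM
    omega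
  -- few full blocks outside the class
  have hFBc : FB.card < r0 := by
    by_contra hcon
    push Not at hcon
    have hdis : Disjoint FB FA := by
      rw [Finset.disjoint_left]
      intro c hc hc'
      rw [hFB, Finset.mem_filter] at hc
      rw [hFA, Finset.mem_filter] at hc'
      have hcN := Finset.mem_range.1 hc.1
      have h1 : c * M < m := by
        rw [hm, Nat.mul_comm M N]
        exact Nat.mul_lt_mul_of_pos_right hcN hM
      have h2 : c * M / M = c := Nat.mul_div_cancel c hM
      exact hc.2 _ h1 h2 (hc'.2 _ h1 h2)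
    have h1 := hG.hexp FB FA (Finset.filter_subset _ _) (Finset.filter_subset _ _) hdis hcon hFAc
    rw [sum_wt] at h1
    have h2 := hG.hrefl φ hφ w hw _ (fun q (hq : q ∈ ((range m ×ˢ range m).filter
      (fun q => adj q.1 q.2 ∧ q.1 / M ∈ FB ∧ q.2 / M ∈ FA))) => ?_)
    · exact (not_le.2 h2) h1
    · rw [Finset.mem_filter, Finset.mem_product, Finset.mem_range, Finset.mem_range] at hq
      obtain ⟨⟨h3, h4⟩, h5, h6, h7⟩ := hq
      exact ⟨h3, h4, h5, (Finset.mem_filter.1 h6).2 _ h3 rfl, (Finset.mem_filter.1 h7).2 _ h4 rfl⟩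
  -- a position outside the class in a block far from `R` has a full neighbour block
  have hnb : ∀ v, v < m → v / M ∉ plus N R → φ v - a v ≠ t →
      v / M ∈ plus N (FB.filter (fun c => c ∉ R)) := by
    intro v hv hvR hvA
    have hcN : v / M < N := Nat.div_lt_of_lt_mul hv
    have hcR : v / M ∉ R := fun h => hvR (mem_plus.2 ⟨hcN, Or.inl h⟩)
    have hcZ : v / M ∉ Z := fun h => hcR (hZR h)
    have hcl := hnZ _ hcN hcZ
    rw [mem_plus]
    refine ⟨hcN, ?_⟩
    rcases runs hM hφ hv rfl hvA hcZ with h | h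
    · refine Or.inr (Or.inl ?_)
      rw [Finset.mem_filter, hFB, Finset.mem_filter, Finset.mem_range]
      refine ⟨⟨by omega, fun i hi hic => h i hi (by omega) (by omega)⟩, fun hR => hvR ?_⟩
      exact mem_plus.2 ⟨hcN, Or.inr (Or.inl hR)⟩
    · refine Or.inr (Or.inr ⟨by omega, ?_⟩)
      rw [Finset.mem_filter, hFB, Finset.mem_filter, Finset.mem_range]
      refine ⟨⟨by omega, fun i hi hic => h i hi (by omega) (by omega)⟩, fun hR => hvR ?_⟩
      exact mem_plus.2 ⟨hcN, Or.inr (Or.inr ⟨by omega, hR⟩)⟩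
  have hbb : FB.filter (fun c => c ∉ R) = ∅ := by
    refine core_final (wt (M * N) M adj) (r0 := r0) hG.hsp le_rfl hKD hcore
      ((Finset.filter_subset _ _).trans (Finset.filter_subset _ _)) ?_ ?_ ?_
    · intro b hb
      exact (Finset.mem_filter.1 hb).2
    · have := Finset.card_le_card (Finset.filter_subset (fun c => c ∉ R) FB)
      omega
    · intro b hb
      have hbN : b < N := Finset.mem_range.1 (Finset.mem_filter.1 (Finset.mem_filter.1 hb).1).1
      have hbR : b ∉ R := (Finset.mem_filter.1 hb).2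
      have hbB : ∀ i, i < m → i / M = b → φ i - a i ≠ t :=
        (Finset.mem_filter.1 (Finset.mem_filter.1 hb).1).2
      have hnDR := hDR b hbN hbR
      set Y := ((range N \ plus N R) \ plus N (FB.filter (fun c => c ∉ R))).erase b with hY
      have h1 : dg (wt (M * N) M adj) b
          ((range N \ plus N R) \ plus N (FB.filter (fun c => c ∉ R))) =
          ((range m ×ˢ range m).filter (fun q => adj q.1 q.2 ∧ q.1 / M ∈ ({b} : Finset ℕ) ∧
            q.2 / M ∈ Y)).card := by
        rw [← sum_wt, Finset.sum_singleton]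
        rfl
      rw [h1, Finset.card_le_one]
      have key : ∀ q ∈ (range m ×ˢ range m).filter (fun q => adj q.1 q.2 ∧
          q.1 / M ∈ ({b} : Finset ℕ) ∧ q.2 / M ∈ Y), q.1 < m ∧ q.2 < m ∧ adj q.1 q.2 ∧
            q.1 / M = b ∧ q.2 / M ≠ b ∧ φ q.1 + a q.1 = 2 * a q.2 + t := by
        intro q hq
        rw [Finset.mem_filter, Finset.mem_product, Finset.mem_range, Finset.mem_range,
          Finset.mem_singleton] at hq
        obtain ⟨⟨h3, h4⟩, h5, h6, h7⟩ := hq
        rw [hY, Finset.mem_erase, Finset.mem_sdiff, Finset.mem_sdiff] at h7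
        have h8 : φ q.2 - a q.2 = t := by
          by_contra hcon
          exact h7.2.2 (hnb q.2 h4 h7.2.1.2 hcon)
        refine ⟨h3, h4, h5, h6, h7.1, ?_⟩
        have h9 := hφ.2 q.1 h3 q.2 h4 h5
        rcases abs_eq_abs.1 h9 with h10 | h10
        · exact absurd (by linarith) (hbB q.1 h3 h6)
        · linarith
      intro q hq q' hq'
      obtain ⟨h3, h4, h5, h6, h7, h8⟩ := key q hq
      obtain ⟨h3', h4', h5', h6', h7', h8'⟩ := key q' hq'
      rcases lt_trichotomy q.1 q'.1 with h | h | h
      · exfalso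
        refine hnDR ⟨q.1, q'.1, q.2, q'.2, h3, h3', h4, h4', h6, h6', h, h7, h7', h5, h5',
          (Finset.Ico q.1 q'.1).filter (fun k => φ (k + 1) - φ k = a (k + 1) - a k),
          Finset.filter_subset _ _, ?_⟩
        have h9 := diff_h hφ (i := q.1) (q'.1 - q.1) (by omega)
        rw [show q.1 + (q'.1 - q.1) = q'.1 by omega] at h9
        linarith
      · have h9 : a q.2 = a q'.2 := by
          rw [h] at h8
          linarith
        exact Prod.ext h (ha _ h4 _ h4' h9)
      · exfalso
        refine hnDR ⟨q'.1, q.1, q'.2, q.2, h3', h3, h4', h4, h6', h6, h, h7', h7, h5', h5,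
          (Finset.Ico q'.1 q.1).filter (fun k => φ (k + 1) - φ k = a (k + 1) - a k),
          Finset.filter_subset _ _, ?_⟩
        have h9 := diff_h hφ (i := q'.1) (q.1 - q'.1) (by omega)
        rw [show q'.1 + (q.1 - q'.1) = q.1 by omega] at h9
        linarith
  intro i hi hiR
  by_contra hcon
  have h1 := hnb i hi hiR hcon
  rw [hbb] at h1
  rw [mem_plus] at h1
  simp at h1

/-- the deterministic theorem -/
theorem det_main {M N l r0 r1 D K j0 : ℕ} {a : ℕ → ℝ} {adj : ℕ → ℕ → Prop} (hM : 0 < M)
    (hl : 1 ≤ l) (hNl : 2 * N ≤ l * r1) (hr : 3 * r1 ≤ r0) (hr0 : 1 ≤ r0) (hKD : 6 * K ≤ D)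
    (ha : ∀ i, i < M * N → ∀ j, j < M * N → a i = a j → i = j)
    (hG : Good M N l r0 r1 D K j0 a adj) :
    ∃ U : Finset ℕ, U ⊆ range (M * N) ∧ M * N ≤ U.card + 6 * r0 * M ∧
      ∀ φ, Valid (M * N) a adj φ → ∃ s t : ℝ, (s = 1 ∨ s = -1) ∧ ∀ i ∈ U, φ i = s * a i + t := by
  classical
  set LG : Finset ℕ := (range N).filter (fun b => dg (wt (M * N) M adj) b (range N) < 2 * D)
    with hLG
  set DRs : Finset ℕ := (range N).filter (fun b => DRb (M * N) M a adj b) with hDRs
  set Z := Zb M N (2 * l + 1) a with hZ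
  have hLGc : LG.card ≤ r1 := hG.hlight LG (Finset.filter_subset _ _)
    (fun b hb => (Finset.mem_filter.1 hb).2)
  have hDRc : DRs.card ≤ r1 := hG.hDR DRs (Finset.filter_subset _ _)
    (fun b hb => (Finset.mem_filter.1 hb).2)
  have hZc : Z.card ≤ r1 := hG.hZ
  have h1 : ((LG ∪ DRs) ∪ Z).card ≤ r0 := by
    have h2 := Finset.card_union_le (LG ∪ DRs) Z
    have h3 := Finset.card_union_le LG DRs
    omega
  have h2 : (LG ∪ DRs) ∪ Z ⊆ range N := by
    refine Finset.union_subset (Finset.union_subset ?_ ?_) ?_ <;> exact Finset.filter_subset _ _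
  obtain ⟨R, hRN, hRR, hRc, hcore⟩ := core_exists (wt (M * N) M adj) hG.hsp h2 h1 hr0 le_rfl hKD
    (fun b hb hbR => by
      by_contra hcon
      push Not at hcon
      exact hbR (Finset.mem_union_left _ (Finset.mem_union_left _
        (Finset.mem_filter.2 ⟨Finset.mem_range.2 hb, hcon⟩))))
  have hZR : Z ⊆ R := Finset.subset_union_right.trans hRR
  have hDR : ∀ b, b < N → b ∉ R → ¬ DRb (M * N) M a adj b := by
    intro b hb hbR hD
    exact hbR (hRR (Finset.mem_union_left _ (Finset.mem_union_right _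
      (Finset.mem_filter.2 ⟨Finset.mem_range.2 hb, hD⟩))))
  refine ⟨(range (M * N)).filter (fun i => i / M ∉ plus N R), Finset.filter_subset _ _, ?_, ?_⟩
  · have h3 : ((range (M * N)).filter (fun i => i / M ∈ plus N R)).card ≤ M * (plus N R).card := by
      refine (Finset.card_le_mul_card_image (f := fun i => i / M) _ M
        (fun b _ => fiber_card hM _ b)).trans (Nat.mul_le_mul_left M (Finset.card_le_card ?_))
      intro c hc
      rw [Finset.mem_image] at hc
      obtain ⟨i, hi, rfl⟩ := hc
      exact (Finset.mem_filter.1 hi).2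
    have h4 := plus_card N R
    have h5 : M * (plus N R).card ≤ 6 * r0 * M := by
      rw [Nat.mul_comm]
      exact Nat.mul_le_mul_right M (by omega)
    have h6 := Finset.card_filter_add_card_filter_not (s := range (M * N)) (fun i => i / M ∈ plus N R)
    rw [Finset.card_range] at h6
    omega
  · intro φ hφ
    obtain ⟨w, hw, hA | hA⟩ := hG.hcls φ hφ
    · have h3 := det_class hM hl hNl hr hr0 hKD ha hG hZR hDR hcore hφ hw hA
      refine ⟨1, φ w - a w, Or.inl rfl, fun i hi => ?_⟩
      rw [Finset.mem_filter, Finset.mem_range] at hi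
      have := h3 i hi.1 hi.2
      linarith
    · have hA' : 2 * r0 * M ≤ ((range (M * N)).filter (fun i => (fun i => - φ i) i - a i =
          (fun i => - φ i) w - a w)).card := by
        refine hA.trans (le_of_eq ?_)
        congr 1
        refine Finset.filter_congr fun i _ => ?_
        constructor <;> intro h <;> linarith
      have h3 := det_class hM hl hNl hr hr0 hKD ha hG hZR hDR hcore hφ.neg hw hA'
      refine ⟨-1, φ w + a w, Or.inr rfl, fun i hi => ?_⟩
      rw [Finset.mem_filter, Finset.mem_range] at hi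
      have := h3 i hi.1 hi.2
      linarith

end LR82
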