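import Pool.Agent.LR82.Prob

/-!
# Long paths by depth first search (Krivelevich–Sudakov)
-/

set_option linter.unusedSectionVars false
set_option linter.style.whitespace false

open Finset

noncomputable section

namespace LR82

/-- the unordered pairs of distinct elements of `Fin n` -/
def Epairs (n : ℕ) : Finset (Sym2 (Fin n)) := Finset.univ.filter (fun e => ¬ e.IsDiag)

theorem mem_Epairs {n : ℕ} {u v : Fin n} : s(u, v) ∈ Epairs n ↔ u ≠ v := by
  simp [Epairs]

/-- `A` contains a path with at least `l` vertices -/
def HasPath {n : ℕ} (A : Finset (Sym2 (Fin n))) (l : ℕ) : Prop :=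
  ∃ P : List (Fin n), P.Nodup ∧ l ≤ P.length ∧ P.IsChain (fun u v => s(u, v) ∈ A)

/-- state of the search -/
structure Inv {n : ℕ} (sm : ℕ) (E A : Finset (Sym2 (Fin n))) (S T : Finset (Fin n))
    (U : List (Fin n)) (k : ℕ) : Prop where
  hE : E ⊆ Epairs n
  hST : Disjoint S T
  hSU : ∀ v ∈ U, v ∉ S
  hTU : ∀ v ∈ U, v ∉ T
  hcov : ∀ v, v ∈ S ∨ v ∈ U ∨ v ∈ T
  hnd : U.Nodup
  hch : U.IsChain (fun u v => s(u, v) ∈ A)
  hq : ∀ s ∈ S, ∀ t ∈ T, s(s, t) ∉ E
  hk : k ≤ S.card + U.length
  hS : S.card ≤ sm

theorem Inv.card {n sm : ℕ} {E A : Finset (Sym2 (Fin n))} {S T : Finset (Fin n)}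
    {U : List (Fin n)} {k : ℕ} (h : Inv sm E A S T U k) : S.card + U.length + T.card = n := by
  have h1 : (Finset.univ : Finset (Fin n)) = (S ∪ U.toFinset) ∪ T := by
    ext v
    simp only [Finset.mem_univ, Finset.mem_union, List.mem_toFinset, true_iff]
    rcases h.hcov v with h1 | h1 | h1 <;> tauto
  have h2 : Disjoint S U.toFinset := by
    rw [Finset.disjoint_left]
    intro v hv hu
    exact h.hSU v (List.mem_toFinset.1 hu) hv
  have h3 : Disjoint (S ∪ U.toFinset) T := by
    rw [Finset.disjoint_union_left]
    refine ⟨h.hST, ?_⟩
    rw [Finset.disjoint_left]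
    intro v hv ht
    exact h.hTU v (List.mem_toFinset.1 hv) ht
  have h4 := congrArg Finset.card h1
  rw [Finset.card_univ, Fintype.card_fin, Finset.card_union_of_disjoint h3,
    Finset.card_union_of_disjoint h2, List.toFinset_card_of_nodup h.hnd] at h4
  exact h4.symm

/-- pairs between two disjoint vertex sets -/
theorem card_pairs_le {n : ℕ} {E : Finset (Sym2 (Fin n))} (hE : E ⊆ Epairs n)
    {S T : Finset (Fin n)} (hST : Disjoint S T) (hq : ∀ s ∈ S, ∀ t ∈ T, s(s, t) ∉ E) :
    S.card * T.card + E.card ≤ (Epairs n).card := by
  classical
  have h1 : ((S ×ˢ T).image (fun q => s(q.1, q.2))).card = S.card * T.card := by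
    rw [Finset.card_image_of_injOn, Finset.card_product]
    rintro ⟨a, b⟩ hab ⟨c, d⟩ hcd h
    simp only [Finset.coe_product, Set.mem_prod, Finset.mem_coe] at hab hcd
    simp only [Sym2.eq_iff] at h
    rcases h with ⟨h1, h2⟩ | ⟨h1, h2⟩
    · rw [h1, h2]
    · exact absurd (h1 ▸ hab.1) (fun h => Finset.disjoint_left.1 hST h hcd.2)
  have h2 : (S ×ˢ T).image (fun q => s(q.1, q.2)) ⊆ Epairs n \ E := by
    intro e he
    rw [Finset.mem_image] at he
    obtain ⟨⟨a, b⟩, hab, rfl⟩ := he
    rw [Finset.mem_product] at hab
    rw [Finset.mem_sdiff, mem_Epairs]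
    refine ⟨fun h => Finset.disjoint_left.1 hST hab.1 (h ▸ hab.2), hq a hab.1 b hab.2⟩
  have h3 := Finset.card_le_card h2
  rw [Finset.card_sdiff_of_subset hE, h1] at h3
  have h4 := Finset.card_le_card hE
  omega

open Classical in
theorem dfs_aux {n : ℕ} {p lam : ℝ} (h0 : 0 ≤ p) (h1 : p ≤ 1) {sm l N0 : ℕ} (hlam : 0 ≤ lam)
    (hc : N0 < (sm + 1) * (n - l - (sm + 1))) (r : ℕ) :
    ∀ (w : ℕ) (E A : Finset (Sym2 (Fin n))) (S T : Finset (Fin n)) (U : List (Fin n)) (k : ℕ),
      Inv sm E A S T U k → E.card + N0 = (Epairs n).card + r → 2 * T.card + U.length ≤ w →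
      Ex p E (fun B => if ¬ HasPath (A ∪ B) l then 1 else 0) ≤
        Real.exp (lam * ((sm + l : ℕ) - (k : ℝ))) * (1 - p + p * Real.exp (-lam)) ^ r := by
  have hq0 : 0 ≤ 1 - p + p * Real.exp (-lam) := by
    have := mul_nonneg h0 (Real.exp_pos (-lam)).le
    linarith
  -- the case of a long stack
  have hlong : ∀ (r : ℕ) (E A : Finset (Sym2 (Fin n))) (S T : Finset (Fin n)) (U : List (Fin n))
      (k : ℕ), Inv sm E A S T U k → l ≤ U.length →
      Ex p E (fun B => if ¬ HasPath (A ∪ B) l then 1 else 0) ≤
        Real.exp (lam * ((sm + l : ℕ) - (k : ℝ))) * (1 - p + p * Real.exp (-lam)) ^ r := by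
    intro r E A S T U k hI hl
    have h2 : Ex p E (fun B => if ¬ HasPath (A ∪ B) l then (1:ℝ) else 0) = Ex p E (fun _ => 0) := by
      refine Ex_congr fun B _ => ?_
      rw [if_neg]
      rw [not_not]
      exact ⟨U, hI.hnd, hl, hI.hch.imp fun a b hab => Finset.mem_union_left _ hab⟩
    rw [h2, Ex_const]
    positivity
  induction r with
  | zero =>
    intro w E A S T U k hI _ _
    by_cases hl : l ≤ U.length
    · exact hlong 0 E A S T U k hI hl
    · rw [pow_zero, mul_one]
      have h2 : (k : ℝ) ≤ (sm + l : ℕ) := by
        have := hI.hk
        have := hI.hS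
        exact_mod_cast (by omega : k ≤ sm + l)
      have h3 : (1:ℝ) ≤ Real.exp (lam * ((sm + l : ℕ) - (k : ℝ))) := by
        rw [← Real.exp_zero]
        exact Real.exp_le_exp.2 (mul_nonneg hlam (by linarith))
      refine le_trans ?_ h3
      have h4 : Ex p E (fun B => if ¬ HasPath (A ∪ B) l then (1:ℝ) else 0) ≤ Ex p E (fun _ => 1) :=
        Ex_mono h0 h1 fun B _ => by split_ifs <;> norm_num
      rwa [Ex_const] at h4
  | succ r ihr =>
    intro w
    induction w with
    | zero =>
      intro E A S T U k hI hEc hw
      have := hI.card
      have hS := hI.hS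
      exfalso
      have h5 : 0 < n - l - (sm + 1) := by
        by_contra h
        rw [show n - l - (sm + 1) = 0 by omega] at hc
        simp at hc
      omega
    | succ w ihw =>
      intro E A S T U k hI hEc hw
      by_cases hl : l ≤ U.length
      · exact hlong _ E A S T U k hI hl
      have hcard := hI.card
      have hS := hI.hS
      have h5 : 0 < n - l - (sm + 1) := by
        by_contra h
        rw [show n - l - (sm + 1) = 0 by omega] at hc
        simp at hc
      rcases U with _ | ⟨u, U'⟩
      · -- push a root
        have hT : T.Nonempty := by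
          rw [← Finset.card_pos]
          simp only [List.length_nil] at hcard
          omega
        obtain ⟨v, hv⟩ := hT
        have hI' : Inv sm E A S (T.erase v) [v] k := by
          refine ⟨hI.hE, ?_, ?_, ?_, ?_, by simp, by simp, ?_, ?_, hI.hS⟩
          · exact hI.hST.mono_right (Finset.erase_subset _ _)
          · intro x hx hxS
            rw [List.mem_singleton] at hx
            exact Finset.disjoint_left.1 hI.hST hxS (hx ▸ hv)
          · intro x hx
            rw [List.mem_singleton] at hx
            simp [hx]
          · intro x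
            rcases hI.hcov x with h | h | h
            · exact Or.inl h
            · simp at h
            · by_cases hx : x = v
              · exact Or.inr (Or.inl (by simp [hx]))
              · exact Or.inr (Or.inr (Finset.mem_erase.2 ⟨hx, h⟩))
          · exact fun s hs t ht => hI.hq s hs t (Finset.mem_of_mem_erase ht)
          · have := hI.hk
            simp only [List.length_nil, List.length_singleton] at this ⊢
            omega
        refine ihw E A S (T.erase v) [v] k hI' hEc ?_
        rw [Finset.card_erase_of_mem hv]
        have := Finset.card_pos.2 ⟨v, hv⟩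
        simp only [List.length_nil, List.length_singleton] at hw ⊢
        omega
      · by_cases hex : ∃ v ∈ T, s(u, v) ∈ E
        · -- query
          obtain ⟨v, hvT, hvE⟩ := hex
          have hE' : insert s(u, v) (E.erase s(u, v)) = E := Finset.insert_erase hvE
          have hEc' : (E.erase s(u, v)).card + N0 = (Epairs n).card + r := by
            rw [Finset.card_erase_of_mem hvE]
            have := Finset.card_pos.2 ⟨_, hvE⟩
            omega
          have hIn : Inv sm (E.erase s(u, v)) A S T (u :: U') k := by
            refine ⟨(Finset.erase_subset _ _).trans hI.hE, hI.hST, hI.hSU, hI.hTU, hI.hcov,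
              hI.hnd, hI.hch, ?_, hI.hk, hI.hS⟩
            exact fun s hs t ht h => hI.hq s hs t ht (Finset.mem_of_mem_erase h)
          have hvu : v ∉ u :: U' := fun h => hI.hTU v h hvT
          have hIp : Inv sm (E.erase s(u, v)) (insert s(u, v) A) S (T.erase v) (v :: u :: U')
              (k + 1) := by
            refine ⟨(Finset.erase_subset _ _).trans hI.hE, ?_, ?_, ?_, ?_, ?_, ?_, ?_, ?_, hI.hS⟩
            · exact hI.hST.mono_right (Finset.erase_subset _ _)
            · intro x hx hxS
              rcases List.mem_cons.1 hx with h | h
              · exact Finset.disjoint_left.1 hI.hST hxS (h ▸ hvT)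
              · exact hI.hSU x h hxS
            · intro x hx hxT
              rcases List.mem_cons.1 hx with h | h
              · exact Finset.ne_of_mem_erase hxT h
              · exact hI.hTU x h (Finset.mem_of_mem_erase hxT)
            · intro x
              rcases hI.hcov x with h | h | h
              · exact Or.inl h
              · exact Or.inr (Or.inl (List.mem_cons_of_mem _ h))
              · by_cases hx : x = v
                · exact Or.inr (Or.inl (by simp [hx]))
                · exact Or.inr (Or.inr (Finset.mem_erase.2 ⟨hx, h⟩))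
            · exact List.nodup_cons.2 ⟨hvu, hI.hnd⟩
            · rw [List.isChain_cons_cons]
              refine ⟨?_, hI.hch.imp fun a b hab => Finset.mem_insert_of_mem hab⟩
              rw [Sym2.eq_swap]
              exact Finset.mem_insert_self _ _
            · exact fun s hs t ht h => hI.hq s hs t (Finset.mem_of_mem_erase ht)
                (Finset.mem_of_mem_erase h)
            · have := hI.hk
              simp only [List.length_cons] at this ⊢
              omega
          have e1 := ihr (2 * T.card + (u :: U').length) _ _ _ _ _ _ hIn hEc' le_rfl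
          have e2 := ihr (2 * (T.erase v).card + (v :: u :: U').length) _ _ _ _ _ _ hIp hEc' le_rfl
          have h6 : Ex p E (fun B => if ¬ HasPath (A ∪ B) l then (1:ℝ) else 0) =
              (1 - p) * Ex p (E.erase s(u, v)) (fun B => if ¬ HasPath (A ∪ B) l then (1:ℝ) else 0) +
              p * Ex p (E.erase s(u, v)) (fun B => if ¬ HasPath (insert s(u, v) A ∪ B) l
                then (1:ℝ) else 0) := by
            conv_lhs => rw [← hE']
            rw [Ex_insert _ (Finset.notMem_erase _ _)]
            congr 2
            refine Ex_congr fun B _ => ?_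
            rw [Finset.union_insert, Finset.insert_union]
          rw [h6]
          have h7 : Real.exp (lam * ((sm + l : ℕ) - ((k + 1 : ℕ) : ℝ))) =
              Real.exp (lam * ((sm + l : ℕ) - (k : ℝ))) * Real.exp (-lam) := by
            rw [← Real.exp_add]
            congr 1
            push_cast
            ring
          rw [h7] at e2
          calc _ ≤ (1 - p) * (Real.exp (lam * ((sm + l : ℕ) - (k : ℝ))) *
                (1 - p + p * Real.exp (-lam)) ^ r) + p * (Real.exp (lam * ((sm + l : ℕ) - (k : ℝ))) *
                Real.exp (-lam) * (1 - p + p * Real.exp (-lam)) ^ r) := by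
                refine add_le_add (mul_le_mul_of_nonneg_left e1 (by linarith))
                  (mul_le_mul_of_nonneg_left e2 h0)
            _ = _ := by
                rw [pow_succ]
                ring
        · -- pop
          push Not at hex
          have huS : u ∉ S := hI.hSU u (by simp)
          have huT : u ∉ T := hI.hTU u (by simp)
          have hdis : Disjoint (insert u S) T := by
            rw [Finset.disjoint_insert_left]
            exact ⟨huT, hI.hST⟩
          have hq' : ∀ s ∈ insert u S, ∀ t ∈ T, s(s, t) ∉ E := by
            intro s hs t ht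
            rcases Finset.mem_insert.1 hs with h | h
            · rw [h]
              exact hex t ht
            · exact hI.hq s h t ht
          have h8 := card_pairs_le hI.hE hdis hq'
          rw [Finset.card_insert_of_notMem huS] at h8
          have h9 : S.card + 1 ≤ sm := by
            by_contra hcon
            have h10 : S.card = sm := by omega
            rw [h10] at h8
            have h11 : n - l - (sm + 1) ≤ T.card := by
              simp only [List.length_cons] at hcard hl
              omega
            have h12 := Nat.mul_le_mul_left (sm + 1) h11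
            omega
          have hI' : Inv sm E A (insert u S) T U' k := by
            refine ⟨hI.hE, hdis, ?_, ?_, ?_, (List.nodup_cons.1 hI.hnd).2, ?_, hq', ?_, ?_⟩
            · intro x hx hxS
              rcases Finset.mem_insert.1 hxS with h | h
              · exact (List.nodup_cons.1 hI.hnd).1 (h ▸ hx)
              · exact hI.hSU x (List.mem_cons_of_mem _ hx) h
            · exact fun x hx => hI.hTU x (List.mem_cons_of_mem _ hx)
            · intro x
              rcases hI.hcov x with h | h | h
              · exact Or.inl (Finset.mem_insert_of_mem h)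
              · rcases List.mem_cons.1 h with h | h
                · exact Or.inl (h ▸ Finset.mem_insert_self _ _)
                · exact Or.inr (Or.inl h)
              · exact Or.inr (Or.inr h)
            · exact hI.hch.tail
            · have := hI.hk
              rw [Finset.card_insert_of_notMem huS]
              simp only [List.length_cons] at this ⊢
              omega
            · rw [Finset.card_insert_of_notMem huS]
              exact h9
          refine ihw E A (insert u S) T U' k hI' hEc ?_
          simp only [List.length_cons] at hw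
          omega

/-- no long path is exponentially unlikely -/
theorem dfs_path {n : ℕ} {p lam : ℝ} (h0 : 0 ≤ p) (h1 : p ≤ 1) {sm l N0 : ℕ} (hlam : 0 ≤ lam)
    (hc : N0 < (sm + 1) * (n - l - (sm + 1))) :
    Pr p (Epairs n) (fun A => ¬ HasPath A l) ≤
      Real.exp (lam * (sm + l : ℕ)) * (1 - p + p * Real.exp (-lam)) ^ N0 := by
  classical
  have hI : Inv sm (Epairs n) ∅ (∅ : Finset (Fin n)) Finset.univ [] 0 := by
    refine ⟨subset_rfl, by simp, by simp, by simp, by simp, by simp, by simp, by simp, by simp,
      by simp⟩
  have h2 := dfs_aux h0 h1 hlam hc N0 _ _ _ _ _ _ _ hI rfl le_rfl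
  rw [Pr_eq]
  refine le_trans (le_of_eq ?_) (h2.trans (le_of_eq ?_))
  · refine Ex_congr fun B _ => ?_
    simp
  · simp

end LR82
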