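import Pool.Agent.LR82.Det
import Pool.Agent.LR82.Coin

/-!
# The random events, part 1
-/

set_option linter.unusedSectionVars false
set_option linter.style.whitespace false

open Finset

noncomputable section

namespace LR82

variable {n : ℕ}

/-- chords seen on the positions of the path -/
def adjB (π : ℕ → Fin n) (B : Finset (Sym2 (Fin n))) (i j : ℕ) : Prop := s(π i, π j) ∈ B

/-- the pairs of vertices belonging to pairs of positions -/
def prs (π : ℕ → Fin n) (Q : Finset (ℕ × ℕ)) : Finset (Sym2 (Fin n)) :=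
  Q.image (fun q => s(π q.1, π q.2))

/-- `π` is injective on positions below `m` -/
def PInj (π : ℕ → Fin n) (m : ℕ) : Prop := ∀ i, i < m → ∀ j, j < m → π i = π j → i = j

theorem prs_subset {π : ℕ → Fin n} {m : ℕ} (hπ : PInj π m) {Q : Finset (ℕ × ℕ)}
    (hQ : ∀ q ∈ Q, q.1 < m ∧ q.2 < m ∧ q.1 ≠ q.2) : prs π Q ⊆ Epairs n := by
  intro e he
  unfold prs at he
  rw [Finset.mem_image] at he
  obtain ⟨q, hq, rfl⟩ := he
  rw [mem_Epairs]
  obtain ⟨h1, h2, h3⟩ := hQ q hq
  exact fun h => h3 (hπ _ h1 _ h2 h)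

theorem prs_injOn {π : ℕ → Fin n} {m : ℕ} (hπ : PInj π m) {Q : Finset (ℕ × ℕ)}
    (hQ : ∀ q ∈ Q, q.1 < m ∧ q.2 < m) (ho : ∀ q ∈ Q, ∀ q' ∈ Q, q.1 = q'.2 → q.2 ≠ q'.1) :
    Set.InjOn (fun q : ℕ × ℕ => s(π q.1, π q.2)) (Q : Set (ℕ × ℕ)) := by
  intro q hq q' hq' h
  have h1 := hQ q hq
  have h2 := hQ q' hq'
  simp only [Sym2.eq_iff] at h
  rcases h with ⟨h3, h4⟩ | ⟨h3, h4⟩
  · exact Prod.ext (hπ _ h1.1 _ h2.1 h3) (hπ _ h1.2 _ h2.2 h4)
  · exact absurd (hπ _ h1.2 _ h2.1 h4) (ho q hq q' hq' (hπ _ h1.1 _ h2.2 h3))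

theorem prs_card {π : ℕ → Fin n} {m : ℕ} (hπ : PInj π m) {Q : Finset (ℕ × ℕ)}
    (hQ : ∀ q ∈ Q, q.1 < m ∧ q.2 < m) (ho : ∀ q ∈ Q, ∀ q' ∈ Q, q.1 = q'.2 → q.2 ≠ q'.1) :
    (prs π Q).card = Q.card :=
  Finset.card_image_of_injOn (prs_injOn hπ hQ ho)

theorem prs_card_le (π : ℕ → Fin n) (Q : Finset (ℕ × ℕ)) : (prs π Q).card ≤ Q.card :=
  Finset.card_image_le

/-- oriented chords are counted by the intersection -/
theorem card_le_inter {π : ℕ → Fin n} {m : ℕ} (hπ : PInj π m) {B : Finset (Sym2 (Fin n))}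
    {Q Q' : Finset (ℕ × ℕ)} (hQ : ∀ q ∈ Q, q.1 < m ∧ q.2 < m)
    (ho : ∀ q ∈ Q, ∀ q' ∈ Q, q.1 = q'.2 → q.2 ≠ q'.1) (hadj : ∀ q ∈ Q, adjB π B q.1 q.2)
    (hsub : Q ⊆ Q') : Q.card ≤ (B ∩ prs π Q').card := by
  refine Finset.card_le_card_of_injOn (fun q : ℕ × ℕ => s(π q.1, π q.2)) ?_ (prs_injOn hπ hQ ho)
  intro q hq
  refine Finset.mem_coe.2 (Finset.mem_inter.2 ⟨hadj q hq, ?_⟩)
  exact Finset.mem_image.2 ⟨q, hsub hq, rfl⟩

open Classical in
theorem inter_le_card {π : ℕ → Fin n} {B : Finset (Sym2 (Fin n))}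
    (Q : Finset (ℕ × ℕ)) : (B ∩ prs π Q).card ≤ (Q.filter (fun q => adjB π B q.1 q.2)).card := by
  have h : B ∩ prs π Q ⊆ (Q.filter (fun q => adjB π B q.1 q.2)).image
      (fun q => s(π q.1, π q.2)) := by
    intro e he
    rw [Finset.mem_inter] at he
    obtain ⟨h1, h2⟩ := he
    unfold prs at h2
    rw [Finset.mem_image] at h2
    obtain ⟨q, hq, rfl⟩ := h2
    exact Finset.mem_image.2 ⟨q, Finset.mem_filter.2 ⟨hq, h1⟩, rfl⟩
  exact (Finset.card_le_card h).trans Finset.card_image_le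

/-- the map with flipped steps `F` -/
def phF (a : ℕ → ℝ) (F : Finset ℕ) (i : ℕ) : ℝ :=
  a i - 2 * ∑ k ∈ F.filter (fun k => k < i), (a (k + 1) - a k)

open Classical in
/-- the flipped steps of `φ` -/
def flp (m : ℕ) (a φ : ℕ → ℝ) : Finset ℕ :=
  (range m).filter (fun k => φ (k + 1) - φ k ≠ a (k + 1) - a k)

theorem phF_eq {m : ℕ} {a φ : ℕ → ℝ} {adj : ℕ → ℕ → Prop} (h : Valid m a adj φ) {i : ℕ}
    (hi : i < m) : φ i = phF a (flp m a φ) i + (φ 0 - a 0) := by
  classical
  have h1 := diff_g h (i := 0) i (by omega)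
  rw [Nat.zero_add] at h1
  unfold phF
  have h2 : (flp m a φ).filter (fun k => k < i) =
      (Finset.Ico 0 i).filter (fun k => φ (k + 1) - φ k ≠ a (k + 1) - a k) := by
    ext k
    simp only [flp, Finset.mem_filter, Finset.mem_range, Finset.mem_Ico]
    constructor
    · rintro ⟨⟨h3, h4⟩, h5⟩
      exact ⟨⟨by omega, h5⟩, h4⟩
    · rintro ⟨⟨h3, h4⟩, h5⟩
      exact ⟨⟨by omega, h5⟩, h4⟩
  rw [h2]
  linarith

open Classical in
/-- the possible reflecting pairs of the class of `w` -/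
def RQ (m : ℕ) (a : ℕ → ℝ) (F : Finset ℕ) (w : ℕ) : Finset (ℕ × ℕ) :=
  (range m ×ˢ range m).filter (fun q => phF a F q.1 - a q.1 ≠ phF a F w - a w ∧
    phF a F q.2 - a q.2 = phF a F w - a w ∧ phF a F q.1 + a q.1 = phF a F q.2 + a q.2)

theorem RQ_card {m : ℕ} {a : ℕ → ℝ} (ha : ∀ i, i < m → ∀ j, j < m → a i = a j → i = j)
    (F : Finset ℕ) (w : ℕ) : (RQ m a F w).card ≤ m := by
  classical
  have h : (RQ m a F w).card ≤ (range m).card := by
    refine Finset.card_le_card_of_injOn (fun q => q.1) ?_ ?_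
    · intro q hq
      have := (Finset.mem_filter.1 (Finset.mem_coe.1 hq)).1
      exact Finset.mem_coe.2 (Finset.mem_product.1 this).1
    · intro q hq q' hq' h
      have h1 := Finset.mem_filter.1 (Finset.mem_coe.1 hq)
      have h2 := Finset.mem_filter.1 (Finset.mem_coe.1 hq')
      simp only at h
      rw [Finset.mem_product, Finset.mem_range, Finset.mem_range] at h1 h2
      obtain ⟨⟨_, h3⟩, _, h4, h5⟩ := h1
      obtain ⟨⟨_, h3'⟩, _, h4', h5'⟩ := h2
      refine Prod.ext h (ha _ h3 _ h3' ?_)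
      rw [h] at h5
      linarith
  rwa [Finset.card_range] at h

/-- statement of the reflection event -/
def NRefl (m : ℕ) (a : ℕ → ℝ) (adj : ℕ → ℕ → Prop) (j0 : ℕ) : Prop :=
  ∀ φ, Valid m a adj φ → ∀ w, w < m → ∀ Q : Finset (ℕ × ℕ),
    (∀ q ∈ Q, q.1 < m ∧ q.2 < m ∧ adj q.1 q.2 ∧ φ q.1 - a q.1 ≠ φ w - a w ∧
      φ q.2 - a q.2 = φ w - a w) → Q.card < j0

theorem ev_refl {x : Fin n → ℝ} (hx : Function.Injective x) {π : ℕ → Fin n} {m : ℕ}
    (hπ : PInj π m) {q : ℝ} (h0 : 0 ≤ q) (h1 : q ≤ 1) (j0 : ℕ) :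
    Pr q (Epairs n) (fun B => ¬ NRefl m (fun i => x (π i)) (adjB π B) j0) ≤
      2 ^ m * m * (2 ^ m * q ^ j0) := by
  classical
  set a : ℕ → ℝ := fun i => x (π i) with haa
  have ha : ∀ i, i < m → ∀ j, j < m → a i = a j → i = j := fun i hi j hj h =>
    hπ i hi j hj (hx h)
  have h2 : Pr q (Epairs n) (fun B => ¬ NRefl m a (adjB π B) j0) ≤
      Pr q (Epairs n) (fun B => ∃ z ∈ (range m).powerset ×ˢ range m,
        j0 ≤ (B ∩ prs π (RQ m a z.1 z.2)).card) := by
    refine Pr_mono h0 h1 fun B _ hB => ?_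
    by_contra hcon
    push Not at hcon
    refine hB fun φ hφ w hw Q hQ => ?_
    have h3 := hcon (flp m a φ, w) (by
      rw [Finset.mem_product, Finset.mem_powerset, Finset.mem_range]
      exact ⟨Finset.filter_subset _ _, hw⟩)
    refine lt_of_le_of_lt ?_ h3
    refine card_le_inter hπ (fun q hq => ⟨(hQ q hq).1, (hQ q hq).2.1⟩) ?_
      (fun q hq => (hQ q hq).2.2.1) ?_
    · intro q hq q' hq' h4 _
      have h5 := (hQ q hq).2.2.2.1
      have h6 := (hQ q' hq').2.2.2.2
      rw [h4] at h5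
      exact h5 h6
    · intro q hq
      obtain ⟨h4, h5, h6, h7, h8⟩ := hQ q hq
      unfold RQ
      rw [Finset.mem_filter, Finset.mem_product, Finset.mem_range, Finset.mem_range]
      have e1 := phF_eq hφ h4
      have e2 := phF_eq hφ h5
      have e3 := phF_eq hφ hw
      refine ⟨⟨h4, h5⟩, fun h => h7 ?_, ?_, ?_⟩
      · simp only at h
        linarith
      · simp only
        linarith
      · have h9 := hφ.2 q.1 h4 q.2 h5 h6
        rcases abs_eq_abs.1 h9 with h10 | h10
        · exact absurd (by linarith) h7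
        · simp only
          linarith
  refine h2.trans ((Pr_exists h0 h1 _ _ _).trans ?_)
  have h3 : ∀ z ∈ (range m).powerset ×ˢ range m,
      Pr q (Epairs n) (fun B => j0 ≤ (B ∩ prs π (RQ m a z.1 z.2)).card) ≤ 2 ^ m * q ^ j0 := by
    intro z _
    refine (Pr_upper h0 h1 (prs_subset hπ ?_) j0).trans ?_
    · intro q hq
      unfold RQ at hq
      rw [Finset.mem_filter, Finset.mem_product, Finset.mem_range, Finset.mem_range] at hq
      refine ⟨hq.1.1, hq.1.2, fun h => hq.2.1 ?_⟩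
      rw [h]
      exact hq.2.2.1
    · refine mul_le_mul_of_nonneg_right ?_ (pow_nonneg h0 _)
      have h4 : (prs π (RQ m a z.1 z.2)).card ≤ m :=
        (prs_card_le π _).trans (RQ_card ha z.1 z.2)
      have h5 : (prs π (RQ m a z.1 z.2)).card.choose j0 ≤ 2 ^ m :=
        (Nat.choose_le_choose j0 h4).trans (Nat.choose_le_two_pow m j0)
      exact_mod_cast h5
  refine (Finset.sum_le_sum h3).trans ?_
  rw [Finset.sum_const, Finset.card_product, Finset.card_powerset, Finset.card_range,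
    nsmul_eq_mul]
  push_cast
  exact le_rfl

/-- statement of the class event -/
def Ncls (m s0 : ℕ) (a : ℕ → ℝ) (adj : ℕ → ℕ → Prop) : Prop :=
  ∀ φ, Valid m a adj φ → ∃ w, w < m ∧
    (s0 ≤ ((range m).filter (fun i => φ i - a i = φ w - a w)).card ∨
      s0 ≤ ((range m).filter (fun i => φ i + a i = φ w + a w)).card)

open Classical in
/-- the good pairs of a pattern -/
def QQ (m : ℕ) (a : ℕ → ℝ) (F : Finset ℕ) : Finset (ℕ × ℕ) :=
  (range m ×ˢ range m).filter (fun q => q.1 ≠ q.2 ∧ |phF a F q.1 - phF a F q.2| = |a q.1 - a q.2|)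

open Classical in
theorem QQ_card {m s0 : ℕ} {a : ℕ → ℝ} {F : Finset ℕ}
    (hc : ∀ w, w < m → ((range m).filter (fun i => phF a F i - a i = phF a F w - a w)).card < s0 ∧
      ((range m).filter (fun i => phF a F i + a i = phF a F w + a w)).card < s0) :
    (QQ m a F).card ≤ 2 * s0 * m := by
  have h1 : QQ m a F ⊆ (range m).biUnion (fun u =>
      (((range m).filter (fun i => phF a F i - a i = phF a F u - a u)) ∪
        ((range m).filter (fun i => phF a F i + a i = phF a F u + a u))).image (fun v => (u, v))) := by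
    intro q hq
    unfold QQ at hq
    rw [Finset.mem_filter, Finset.mem_product, Finset.mem_range, Finset.mem_range] at hq
    rw [Finset.mem_biUnion]
    refine ⟨q.1, Finset.mem_range.2 hq.1.1, Finset.mem_image.2 ⟨q.2, ?_, rfl⟩⟩
    rcases abs_eq_abs.1 hq.2.2 with h | h
    · exact Finset.mem_union_left _ (Finset.mem_filter.2 ⟨Finset.mem_range.2 hq.1.2, by linarith⟩)
    · exact Finset.mem_union_right _ (Finset.mem_filter.2 ⟨Finset.mem_range.2 hq.1.2, by linarith⟩)
  refine (Finset.card_le_card h1).trans (Finset.card_biUnion_le.trans ?_)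
  refine (Finset.sum_le_card_nsmul _ _ (2 * s0) ?_).trans ?_
  · intro u hu
    have h2 := hc u (Finset.mem_range.1 hu)
    refine Finset.card_image_le.trans ((Finset.card_union_le _ _).trans ?_)
    omega
  · rw [Finset.card_range, smul_eq_mul]
    exact le_of_eq (Nat.mul_comm _ _)

theorem ev_cls {x : Fin n → ℝ} {π : ℕ → Fin n} {m : ℕ}
    (hπ : PInj π m) {q : ℝ} (h0 : 0 ≤ q) (h1 : q ≤ 1) (s0 j1 h : ℕ) (hh : h ≤ m) :
    Pr q (Epairs n) (fun B => ¬ Ncls m s0 (fun i => x (π i)) (adjB π B)) ≤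
      2 ^ j1 * Real.exp (-(q * (h * (m - h : ℕ) : ℕ)) / 2) +
        2 ^ m * ((2 * s0 * m).choose j1 * q ^ j1) := by
  classical
  set a : ℕ → ℝ := fun i => x (π i) with haa
  set AL : Finset (ℕ × ℕ) := range h ×ˢ Finset.Ico h m with hAL
  have hALm : ∀ z ∈ AL, z.1 < h ∧ h ≤ z.2 ∧ z.2 < m := by
    intro z hz
    rw [hAL, Finset.mem_product, Finset.mem_range, Finset.mem_Ico] at hz
    exact ⟨hz.1, hz.2.1, hz.2.2⟩
  set Sm : Finset ℕ → Prop := fun F => ∀ w, w < m →
    ((range m).filter (fun i => phF a F i - a i = phF a F w - a w)).card < s0 ∧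
      ((range m).filter (fun i => phF a F i + a i = phF a F w + a w)).card < s0 with hSm
  have h2 : Pr q (Epairs n) (fun B => ¬ Ncls m s0 a (adjB π B)) ≤
      Pr q (Epairs n) (fun B => (B ∩ prs π AL).card ≤ j1 ∨
        ∃ F ∈ (range m).powerset.filter Sm, j1 ≤ (B ∩ prs π (QQ m a F)).card) := by
    refine Pr_mono h0 h1 fun B _ hB => ?_
    by_contra hcon
    push Not at hcon
    obtain ⟨hc1, hc2⟩ := hcon
    refine hB fun φ hφ => ?_
    by_contra hcon2
    push Not at hcon2
    have hF : flp m a φ ∈ (range m).powerset.filter Sm := by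
      rw [Finset.mem_filter, Finset.mem_powerset]
      refine ⟨Finset.filter_subset _ _, fun w hw => ?_⟩
      obtain ⟨h3, h4⟩ := hcon2 w hw
      have e3 := phF_eq hφ hw
      constructor
      · refine lt_of_le_of_lt (Finset.card_le_card ?_) h3
        intro i hi
        rw [Finset.mem_filter, Finset.mem_range] at hi ⊢
        have e1 := phF_eq hφ hi.1
        exact ⟨hi.1, by linarith [hi.2]⟩
      · refine lt_of_le_of_lt (Finset.card_le_card ?_) h4
        intro i hi
        rw [Finset.mem_filter, Finset.mem_range] at hi ⊢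
        have e1 := phF_eq hφ hi.1
        exact ⟨hi.1, by linarith [hi.2]⟩
    have h5 := hc2 _ hF
    have h6 : (B ∩ prs π AL).card ≤ (B ∩ prs π (QQ m a (flp m a φ))).card := by
      refine Finset.card_le_card ?_
      intro e he
      rw [Finset.mem_inter] at he ⊢
      refine ⟨he.1, ?_⟩
      have h7 := he.2
      unfold prs at h7
      rw [Finset.mem_image] at h7
      obtain ⟨z, hz, rfl⟩ := h7
      obtain ⟨h8, h9, h10⟩ := hALm z hz
      refine Finset.mem_image.2 ⟨z, ?_, rfl⟩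
      unfold QQ
      rw [Finset.mem_filter, Finset.mem_product, Finset.mem_range, Finset.mem_range]
      refine ⟨⟨by omega, h10⟩, by omega, ?_⟩
      have h11 := hφ.2 z.1 (by omega) z.2 h10 he.1
      rw [phF_eq hφ (show z.1 < m by omega), phF_eq hφ h10] at h11
      rw [← h11]
      congr 1
      ring
    omega
  refine h2.trans ((Pr_or h0 h1 _ _ _).trans (add_le_add ?_ ?_))
  · refine (Pr_lower h0 h1 (prs_subset hπ ?_) j1).trans ?_
    · intro z hz
      obtain ⟨h8, h9, h10⟩ := hALm z hz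
      omega
    · rw [prs_card hπ]
      · rw [hAL, Finset.card_product, Finset.card_range, Nat.card_Ico]
      · intro z hz
        obtain ⟨h8, h9, h10⟩ := hALm z hz
        omega
      · intro z hz z' hz' h3
        have := hALm z hz
        have := hALm z' hz'
        omega
  · refine (Pr_exists h0 h1 _ _ _).trans ?_
    have h3 : ∀ F ∈ (range m).powerset.filter Sm,
        Pr q (Epairs n) (fun B => j1 ≤ (B ∩ prs π (QQ m a F)).card) ≤
          (2 * s0 * m).choose j1 * q ^ j1 := by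
      intro F hF
      have hSF := (Finset.mem_filter.1 hF).2
      refine (Pr_upper h0 h1 (prs_subset hπ ?_) j1).trans ?_
      · intro z hz
        unfold QQ at hz
        rw [Finset.mem_filter, Finset.mem_product, Finset.mem_range, Finset.mem_range] at hz
        exact ⟨hz.1.1, hz.1.2, hz.2.1⟩
      · refine mul_le_mul_of_nonneg_right ?_ (pow_nonneg h0 _)
        have h4 : (prs π (QQ m a F)).card ≤ 2 * s0 * m :=
          (prs_card_le π _).trans (QQ_card hSF)
        exact_mod_cast Nat.choose_le_choose j1 h4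
    refine (Finset.sum_le_sum h3).trans ?_
    rw [Finset.sum_const, nsmul_eq_mul]
    refine mul_le_mul_of_nonneg_right ?_ (by positivity)
    have h4 : ((range m).powerset.filter Sm).card ≤ 2 ^ m := by
      refine (Finset.card_le_card (Finset.filter_subset _ _)).trans ?_
      rw [Finset.card_powerset, Finset.card_range]
    exact_mod_cast h4

end LR82
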