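import Pool.Agent.LR82.Ev1

/-!
# The random events, part 2
-/

set_option linter.unusedSectionVars false
set_option linter.style.whitespace false

open Finset

noncomputable section

namespace LR82

variable {n : ℕ}

/-- positions of the blocks in `X` -/
def PX (M N : ℕ) (X : Finset ℕ) : Finset ℕ := (range (M * N)).filter (fun i => i / M ∈ X)

theorem PX_card {M N : ℕ} (hM : 0 < M) {X : Finset ℕ} (hX : X ⊆ range N) :
    (PX M N X).card = M * X.card := by
  have h1 : (PX M N X).card = ∑ b ∈ X, ((PX M N X).filter (fun i => i / M = b)).card :=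
    Finset.card_eq_sum_card_fiberwise (fun i hi => (Finset.mem_filter.1 (Finset.mem_coe.1 hi)).2)
  rw [h1, Finset.sum_congr rfl (g := fun _ => M)]
  · rw [Finset.sum_const, smul_eq_mul, Nat.mul_comm]
  · intro b hb
    have h2 : (PX M N X).filter (fun i => i / M = b) = Finset.Ico (b * M) ((b + 1) * M) := by
      ext i
      simp only [PX, Finset.mem_filter, Finset.mem_range, Finset.mem_Ico]
      constructor
      · rintro ⟨_, h⟩
        exact div_bounds hM h
      · rintro ⟨h3, h4⟩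
        have h5 : i / M = b := by
          refine Nat.div_eq_of_lt_le h3 ?_
          exact h4
        have h6 : b < N := Finset.mem_range.1 (hX hb)
        have h7 : (b + 1) * M ≤ N * M := Nat.mul_le_mul_right M h6
        refine ⟨⟨?_, h5 ▸ hb⟩, h5⟩
        rw [Nat.mul_comm M N]
        omega
    rw [h2, Nat.card_Ico]
    have : (b + 1) * M = b * M + M := by ring
    omega

/-- pairs of positions between blocks -/
def SQ (M N : ℕ) (X Y : Finset ℕ) : Finset (ℕ × ℕ) := PX M N X ×ˢ PX M N Y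

theorem mem_SQ {M N : ℕ} {X Y : Finset ℕ} {z : ℕ × ℕ} : z ∈ SQ M N X Y ↔
    (z.1 < M * N ∧ z.1 / M ∈ X) ∧ (z.2 < M * N ∧ z.2 / M ∈ Y) := by
  simp [SQ, PX]

theorem prs_SQ_subset {π : ℕ → Fin n} {M N : ℕ} (hπ : PInj π (M * N)) {X Y : Finset ℕ}
    (hd : Disjoint X Y) : prs π (SQ M N X Y) ⊆ Epairs n := by
  refine prs_subset hπ fun z hz => ?_
  rw [mem_SQ] at hz
  refine ⟨hz.1.1, hz.2.1, fun h => ?_⟩
  have h1 := hz.2.2
  rw [← h] at h1
  exact Finset.disjoint_left.1 hd hz.1.2 h1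

theorem prs_SQ_card {π : ℕ → Fin n} {M N : ℕ} (hM : 0 < M) (hπ : PInj π (M * N)) {X Y : Finset ℕ}
    (hX : X ⊆ range N) (hY : Y ⊆ range N) (hd : Disjoint X Y) :
    (prs π (SQ M N X Y)).card = (M * X.card) * (M * Y.card) := by
  rw [prs_card hπ]
  · rw [SQ, Finset.card_product, PX_card hM hX, PX_card hM hY]
  · intro z hz
    rw [mem_SQ] at hz
    exact ⟨hz.1.1, hz.2.1⟩
  · intro z hz z' hz' h _
    rw [mem_SQ] at hz hz'
    have h1 := hz'.2.2
    rw [← h] at h1
    exact Finset.disjoint_left.1 hd hz.1.2 h1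

open Classical in
theorem inter_SQ_le {π : ℕ → Fin n} {M N : ℕ} (B : Finset (Sym2 (Fin n))) (X Y : Finset ℕ) :
    (B ∩ prs π (SQ M N X Y)).card ≤ ∑ b ∈ X, ∑ c ∈ Y, wt (M * N) M (adjB π B) b c := by
  rw [sum_wt]
  refine (inter_le_card _).trans (Finset.card_le_card ?_)
  intro z hz
  rw [Finset.mem_filter, mem_SQ] at hz
  rw [Finset.mem_filter, Finset.mem_product, Finset.mem_range, Finset.mem_range]
  exact ⟨⟨hz.1.1.1, hz.1.2.1⟩, hz.2, hz.1.1.2, hz.1.2.2⟩

/-- statement of the expansion event -/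
def Nexp (M N r0 j0 : ℕ) (adj : ℕ → ℕ → Prop) : Prop :=
  ∀ X Y : Finset ℕ, X ⊆ range N → Y ⊆ range N → Disjoint X Y → r0 ≤ X.card →
    r0 ≤ Y.card → j0 ≤ ∑ b ∈ X, ∑ c ∈ Y, wt (M * N) M adj b c

theorem ev_exp {π : ℕ → Fin n} {M N : ℕ} (hM : 0 < M) (hπ : PInj π (M * N)) {q : ℝ} (h0 : 0 ≤ q)
    (h1 : q ≤ 1) (r0 j0 : ℕ) :
    Pr q (Epairs n) (fun B => ¬ Nexp M N r0 j0 (adjB π B)) ≤
      4 ^ N * (2 ^ j0 * Real.exp (-(q * ((M * r0) * (M * r0) : ℕ)) / 2)) := by
  classical
  set I : Finset (Finset ℕ × Finset ℕ) := ((range N).powerset ×ˢ (range N).powerset).filter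
    (fun z => Disjoint z.1 z.2 ∧ r0 ≤ z.1.card ∧ r0 ≤ z.2.card) with hI
  have h2 : Pr q (Epairs n) (fun B => ¬ Nexp M N r0 j0 (adjB π B)) ≤
      Pr q (Epairs n) (fun B => ∃ z ∈ I, (B ∩ prs π (SQ M N z.1 z.2)).card ≤ j0) := by
    refine Pr_mono h0 h1 fun B _ hB => ?_
    by_contra hcon
    push Not at hcon
    refine hB fun X Y hX hY hd hXc hYc => ?_
    have h3 := hcon (X, Y) (by
      rw [hI, Finset.mem_filter, Finset.mem_product, Finset.mem_powerset, Finset.mem_powerset]
      exact ⟨⟨hX, hY⟩, hd, hXc, hYc⟩)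
    exact h3.le.trans (inter_SQ_le B X Y)
  refine h2.trans ((Pr_exists h0 h1 _ _ _).trans ?_)
  have h3 : ∀ z ∈ I, Pr q (Epairs n) (fun B => (B ∩ prs π (SQ M N z.1 z.2)).card ≤ j0) ≤
      2 ^ j0 * Real.exp (-(q * ((M * r0) * (M * r0) : ℕ)) / 2) := by
    intro z hz
    rw [hI, Finset.mem_filter, Finset.mem_product, Finset.mem_powerset, Finset.mem_powerset] at hz
    obtain ⟨⟨hX, hY⟩, hd, hXc, hYc⟩ := hz
    refine (Pr_lower h0 h1 (prs_SQ_subset hπ hd) j0).trans ?_
    rw [prs_SQ_card hM hπ hX hY hd]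
    refine mul_le_mul_of_nonneg_left (Real.exp_le_exp.2 ?_) (by positivity)
    have h4 : (M * r0) * (M * r0) ≤ (M * z.1.card) * (M * z.2.card) :=
      Nat.mul_le_mul (Nat.mul_le_mul_left M hXc) (Nat.mul_le_mul_left M hYc)
    have h5 : (((M * r0) * (M * r0) : ℕ) : ℝ) ≤ (((M * z.1.card) * (M * z.2.card) : ℕ) : ℝ) := by
      exact_mod_cast h4
    have h6 := mul_le_mul_of_nonneg_left h5 h0
    linarith
  refine (Finset.sum_le_sum h3).trans ?_
  rw [Finset.sum_const, nsmul_eq_mul]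
  refine mul_le_mul_of_nonneg_right ?_ (by positivity)
  have h4 : I.card ≤ 4 ^ N := by
    refine (Finset.card_le_card (Finset.filter_subset _ _)).trans ?_
    rw [Finset.card_product, Finset.card_powerset, Finset.card_range, ← mul_pow]
    norm_num
  exact_mod_cast h4

/-- statement of the light block event -/
def Nlight (M N r1 D : ℕ) (adj : ℕ → ℕ → Prop) : Prop :=
  ∀ X : Finset ℕ, X ⊆ range N → (∀ b ∈ X, dg (wt (M * N) M adj) b (range N) < 2 * D) →
    X.card ≤ r1

theorem ev_light {π : ℕ → Fin n} {M N : ℕ} (hM : 0 < M) (hπ : PInj π (M * N)) {q : ℝ} (h0 : 0 ≤ q)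
    (h1 : q ≤ 1) (r1 D : ℕ) :
    Pr q (Epairs n) (fun B => ¬ Nlight M N r1 D (adjB π B)) ≤
      2 ^ N * (2 ^ (2 * D * r1) * Real.exp (-(q * ((M * r1) * (M * (N - r1)) : ℕ)) / 2)) := by
  classical
  set I : Finset (Finset ℕ) := (range N).powerset.filter (fun X => X.card = r1) with hI
  have h2 : Pr q (Epairs n) (fun B => ¬ Nlight M N r1 D (adjB π B)) ≤
      Pr q (Epairs n) (fun B => ∃ X ∈ I, (B ∩ prs π (SQ M N X (range N \ X))).card ≤
        2 * D * r1) := by
    refine Pr_mono h0 h1 fun B _ hB => ?_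
    by_contra hcon
    push Not at hcon
    refine hB fun X hX hl => ?_
    by_contra hXc
    push Not at hXc
    obtain ⟨X', hX', hX'c⟩ := Finset.exists_subset_card_eq hXc.le
    have h3 := hcon X' (by
      rw [hI, Finset.mem_filter, Finset.mem_powerset]
      exact ⟨hX'.trans hX, hX'c⟩)
    have h4 := inter_SQ_le (M := M) (N := N) (π := π) B X' (range N \ X')
    have h5 : ∑ b ∈ X', ∑ c ∈ range N \ X', wt (M * N) M (adjB π B) b c ≤
        ∑ b ∈ X', 2 * D := by
      refine Finset.sum_le_sum fun b hb => ?_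
      refine le_trans ?_ (hl b (hX' hb)).le
      unfold dg
      refine Finset.sum_le_sum_of_subset ?_
      intro c hc
      rw [Finset.mem_sdiff] at hc
      exact Finset.mem_erase.2 ⟨fun h => hc.2 (h ▸ hb), hc.1⟩
    rw [Finset.sum_const, hX'c, smul_eq_mul] at h5
    have h6 : r1 * (2 * D) = 2 * D * r1 := Nat.mul_comm _ _
    omega
  refine h2.trans ((Pr_exists h0 h1 _ _ _).trans ?_)
  have h3 : ∀ X ∈ I, Pr q (Epairs n) (fun B => (B ∩ prs π (SQ M N X (range N \ X))).card ≤
      2 * D * r1) ≤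
      2 ^ (2 * D * r1) * Real.exp (-(q * ((M * r1) * (M * (N - r1)) : ℕ)) / 2) := by
    intro X hX
    rw [hI, Finset.mem_filter, Finset.mem_powerset] at hX
    have hd : Disjoint X (range N \ X) := Finset.disjoint_sdiff
    refine (Pr_lower h0 h1 (prs_SQ_subset hπ hd) _).trans ?_
    rw [prs_SQ_card hM hπ hX.1 Finset.sdiff_subset hd, Finset.card_sdiff_of_subset hX.1, hX.2,
      Finset.card_range]
  refine (Finset.sum_le_sum h3).trans ?_
  rw [Finset.sum_const, nsmul_eq_mul]
  refine mul_le_mul_of_nonneg_right ?_ (by positivity)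
  have h4 : I.card ≤ 2 ^ N := by
    refine (Finset.card_le_card (Finset.filter_subset _ _)).trans ?_
    rw [Finset.card_powerset, Finset.card_range]
  exact_mod_cast h4

/-- increasing pairs of positions inside the blocks `X` -/
def TQ (M N : ℕ) (X : Finset ℕ) : Finset (ℕ × ℕ) :=
  (PX M N X ×ˢ PX M N X).filter (fun z => z.1 < z.2)

theorem mem_TQ {M N : ℕ} {X : Finset ℕ} {z : ℕ × ℕ} : z ∈ TQ M N X ↔
    ((z.1 < M * N ∧ z.1 / M ∈ X) ∧ (z.2 < M * N ∧ z.2 / M ∈ X)) ∧ z.1 < z.2 := by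
  simp [TQ, PX]

theorem TQ_card {M N : ℕ} (hM : 0 < M) {X : Finset ℕ} (hX : X ⊆ range N) :
    (TQ M N X).card ≤ (M * X.card) ^ 2 := by
  refine (Finset.card_le_card (Finset.filter_subset _ _)).trans ?_
  rw [Finset.card_product, PX_card hM hX, sq]

open Classical in
theorem sum_le_TQ {π : ℕ → Fin n} {M N : ℕ} (hπ : PInj π (M * N)) {B : Finset (Sym2 (Fin n))}
    (hB : B ⊆ Epairs n) (X : Finset ℕ) :
    ∑ b ∈ X, ∑ c ∈ X, wt (M * N) M (adjB π B) b c ≤ 2 * (B ∩ prs π (TQ M N X)).card := by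
  rw [sum_wt]
  set S := (range (M * N) ×ˢ range (M * N)).filter
    (fun q => adjB π B q.1 q.2 ∧ q.1 / M ∈ X ∧ q.2 / M ∈ X) with hS
  have hmem : ∀ z ∈ S, (z.1 < M * N ∧ z.2 < M * N) ∧ adjB π B z.1 z.2 ∧ z.1 / M ∈ X ∧
      z.2 / M ∈ X := by
    intro z hz
    rw [hS, Finset.mem_filter, Finset.mem_product, Finset.mem_range, Finset.mem_range] at hz
    exact hz
  have hne : ∀ z ∈ S, z.1 ≠ z.2 := by
    intro z hz h
    have h1 := hB (hmem z hz).2.1
    rw [mem_Epairs, h] at h1
    exact h1 rfl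
  have h1 : S ⊆ S.filter (fun z => z.1 < z.2) ∪ S.filter (fun z => z.2 < z.1) := by
    intro z hz
    rcases lt_or_gt_of_ne (hne z hz) with h | h
    · exact Finset.mem_union_left _ (Finset.mem_filter.2 ⟨hz, h⟩)
    · exact Finset.mem_union_right _ (Finset.mem_filter.2 ⟨hz, h⟩)
  have h2 := (Finset.card_le_card h1).trans (Finset.card_union_le _ _)
  have h3 : (S.filter (fun z => z.1 < z.2)).card ≤ (B ∩ prs π (TQ M N X)).card := by
    refine card_le_inter hπ ?_ ?_ ?_ ?_
    · intro z hz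
      exact (hmem z (Finset.mem_filter.1 hz).1).1
    · intro z hz z' hz' h
      have e1 := (Finset.mem_filter.1 hz).2
      have e2 := (Finset.mem_filter.1 hz').2
      omega
    · intro z hz
      exact (hmem z (Finset.mem_filter.1 hz).1).2.1
    · intro z hz
      have e1 := (Finset.mem_filter.1 hz).2
      have e2 := hmem z (Finset.mem_filter.1 hz).1
      rw [mem_TQ]
      exact ⟨⟨⟨e2.1.1, e2.2.2.1⟩, ⟨e2.1.2, e2.2.2.2⟩⟩, e1⟩
  have h4 : (S.filter (fun z => z.2 < z.1)).card ≤ (B ∩ prs π (TQ M N X)).card := by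
    refine Finset.card_le_card_of_injOn (fun q : ℕ × ℕ => s(π q.1, π q.2)) ?_ (prs_injOn hπ ?_ ?_)
    · intro z hz
      have e1 := (Finset.mem_filter.1 (Finset.mem_coe.1 hz)).2
      have e2 := hmem z (Finset.mem_filter.1 (Finset.mem_coe.1 hz)).1
      refine Finset.mem_coe.2 (Finset.mem_inter.2 ⟨e2.2.1, ?_⟩)
      refine Finset.mem_image.2 ⟨(z.2, z.1), ?_, Sym2.eq_swap⟩
      rw [mem_TQ]
      exact ⟨⟨⟨e2.1.2, e2.2.2.2⟩, ⟨e2.1.1, e2.2.2.1⟩⟩, e1⟩
    · intro z hz
      exact (hmem z (Finset.mem_filter.1 hz).1).1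
    · intro z hz z' hz' h
      have e1 := (Finset.mem_filter.1 hz).2
      have e2 := (Finset.mem_filter.1 hz').2
      omega
  omega

theorem ev_sparse {π : ℕ → Fin n} {M N : ℕ} (hM : 0 < M) (hπ : PInj π (M * N)) {q : ℝ}
    (h0 : 0 ≤ q) (h1 : q ≤ 1) (J tau : ℕ) :
    Pr q (Epairs n) (fun B => ¬ Sparse (wt (M * N) M (adjB π B)) N J (2 * tau)) ≤
      ∑ j ∈ Finset.Icc 1 J, (N.choose j : ℝ) * ((((M * j) ^ 2).choose (tau * j) : ℕ) *
        q ^ (tau * j)) := by
  classical
  have h2 : Pr q (Epairs n) (fun B => ¬ Sparse (wt (M * N) M (adjB π B)) N J (2 * tau)) ≤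
      Pr q (Epairs n) (fun B => ∃ j ∈ Finset.Icc 1 J, ∃ X ∈ (range N).powersetCard j,
        tau * j ≤ (B ∩ prs π (TQ M N X)).card) := by
    refine Pr_mono h0 h1 fun B hBE hB => ?_
    by_contra hcon
    push Not at hcon
    refine hB fun X hX hXn hXc => ?_
    have h3 := hcon X.card (Finset.mem_Icc.2 ⟨Finset.card_pos.2 hXn, hXc⟩) X
      (Finset.mem_powersetCard.2 ⟨hX, rfl⟩)
    have h4 := sum_le_TQ hπ hBE X
    have h5 : 2 * tau * X.card = 2 * (tau * X.card) := by ring
    omega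
  refine h2.trans ((Pr_exists h0 h1 _ _ _).trans (Finset.sum_le_sum fun j _ => ?_))
  refine (Pr_exists h0 h1 _ _ _).trans ?_
  have h3 : ∀ X ∈ (range N).powersetCard j,
      Pr q (Epairs n) (fun B => tau * j ≤ (B ∩ prs π (TQ M N X)).card) ≤
        ((((M * j) ^ 2).choose (tau * j) : ℕ) : ℝ) * q ^ (tau * j) := by
    intro X hX
    rw [Finset.mem_powersetCard] at hX
    refine (Pr_upper h0 h1 (prs_subset hπ ?_) _).trans ?_
    · intro z hz
      rw [mem_TQ] at hz
      exact ⟨hz.1.1.1, hz.1.2.1, by omega⟩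
    · refine mul_le_mul_of_nonneg_right ?_ (pow_nonneg h0 _)
      have h4 : (prs π (TQ M N X)).card ≤ (M * j) ^ 2 := by
        refine (prs_card_le π _).trans ?_
        have := TQ_card hM hX.1
        rwa [hX.2] at this
      exact_mod_cast Nat.choose_le_choose _ h4
  refine (Finset.sum_le_sum h3).trans ?_
  rw [Finset.sum_const, nsmul_eq_mul, Finset.card_powersetCard, Finset.card_range]

/-- statement of the double reflection event -/
def NDR (M N r1 : ℕ) (a : ℕ → ℝ) (adj : ℕ → ℕ → Prop) : Prop :=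
  ∀ X : Finset ℕ, X ⊆ range N → (∀ b ∈ X, DRb (M * N) M a adj b) → X.card ≤ r1

open Classical in
/-- witnesses of double reflection: `((u, u', F), (v, v'))` -/
def WQ (M N : ℕ) (a : ℕ → ℝ) : Finset ((ℕ × ℕ) × (ℕ × ℕ)) :=
  ((range (M * N) ×ˢ range (M * N)) ×ˢ (range (M * N) ×ˢ range (M * N))).filter
    (fun z => z.1.1 < z.1.2 ∧ z.1.1 / M = z.1.2 / M ∧ z.2.1 / M ≠ z.1.1 / M ∧
      z.2.2 / M ≠ z.1.1 / M ∧ ∃ F : Finset ℕ, F ⊆ Finset.Ico z.1.1 z.1.2 ∧
        a z.2.2 - a z.2.1 = ∑ k ∈ F, (a (k + 1) - a k))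

open Classical in
theorem WQ_card {M N : ℕ} (hM : 0 < M) {a : ℕ → ℝ}
    (ha : ∀ i, i < M * N → ∀ j, j < M * N → a i = a j → i = j) :
    (WQ M N a).card ≤ (M * N) * (M * 2 ^ M) * (M * N) := by
  -- inject into (u, (u' - u, F shifted), v)
  set T : Finset (ℕ × (ℕ × Finset ℕ) × ℕ) :=
    range (M * N) ×ˢ ((range M ×ˢ (range M).powerset) ×ˢ range (M * N)) with hT
  have hTc : T.card = (M * N) * (M * 2 ^ M) * (M * N) := by
    rw [hT, Finset.card_product, Finset.card_product, Finset.card_product, Finset.card_powerset,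
      Finset.card_range, Finset.card_range]
    ring
  rw [← hTc]
  -- choose a pattern
  have hch : ∀ z ∈ WQ M N a, ∃ F : Finset ℕ, F ⊆ Finset.Ico z.1.1 z.1.2 ∧
        a z.2.2 - a z.2.1 = ∑ k ∈ F, (a (k + 1) - a k) := by
    intro z hz
    exact (Finset.mem_filter.1 hz).2.2.2.2.2
  set Fz : (ℕ × ℕ) × (ℕ × ℕ) → Finset ℕ := fun z =>
    if h : z ∈ WQ M N a then (hch z h).choose else ∅ with hFz
  have hFspec : ∀ z ∈ WQ M N a, Fz z ⊆ Finset.Ico z.1.1 z.1.2 ∧
        a z.2.2 - a z.2.1 = ∑ k ∈ Fz z, (a (k + 1) - a k) := by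
    intro z hz
    have : Fz z = (hch z hz).choose := by
      rw [hFz]
      simp [hz]
    rw [this]
    exact (hch z hz).choose_spec
  refine Finset.card_le_card_of_injOn
    (fun z => (z.1.1, (z.1.2 - z.1.1, (Fz z).image (fun k => k - z.1.1)), z.2.1)) ?_ ?_
  · intro z hz
    have hz' := Finset.mem_coe.1 hz
    have h1 := Finset.mem_filter.1 hz'
    obtain ⟨h2, h3, h4, h5, h6, _⟩ := h1
    rw [Finset.mem_product, Finset.mem_product, Finset.mem_product, Finset.mem_range,
      Finset.mem_range, Finset.mem_range, Finset.mem_range] at h2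
    have hF := (hFspec z hz').1
    have b1 := div_bounds hM (rfl : z.1.1 / M = z.1.1 / M)
    have b2 := div_bounds hM (rfl : z.1.2 / M = z.1.2 / M)
    rw [← h4] at b2
    have b3 : (z.1.1 / M + 1) * M = z.1.1 / M * M + M := by ring
    refine Finset.mem_coe.2 ?_
    rw [hT, Finset.mem_product, Finset.mem_product, Finset.mem_product, Finset.mem_range,
      Finset.mem_range, Finset.mem_range, Finset.mem_powerset]
    refine ⟨h2.1.1, ⟨by show z.1.2 - z.1.1 < M; omega, ?_⟩, h2.2.1⟩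
    intro k hk
    rw [Finset.mem_image] at hk
    obtain ⟨k', hk', rfl⟩ := hk
    have := Finset.mem_Ico.1 (hF hk')
    rw [Finset.mem_range]
    omega
  · intro z hz z' hz' h
    have hz1 := Finset.mem_coe.1 hz
    have hz1' := Finset.mem_coe.1 hz'
    simp only [Prod.mk.injEq] at h
    obtain ⟨e1, ⟨e2, e3⟩, e4⟩ := h
    have h1 := Finset.mem_filter.1 hz1
    have h1' := Finset.mem_filter.1 hz1'
    obtain ⟨h2, h3, _, _, _, _⟩ := h1
    obtain ⟨h2', h3', _, _, _, _⟩ := h1'
    rw [Finset.mem_product, Finset.mem_product, Finset.mem_product, Finset.mem_range,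
      Finset.mem_range, Finset.mem_range, Finset.mem_range] at h2 h2'
    have e5 : z.1.2 = z'.1.2 := by omega
    obtain ⟨hF1, hF2⟩ := hFspec z hz1
    obtain ⟨hF1', hF2'⟩ := hFspec z' hz1'
    have e6 : Fz z = Fz z' := by
      ext k
      constructor
      · intro hk
        have hk2 := Finset.mem_Ico.1 (hF1 hk)
        have h7 : k - z.1.1 ∈ (Fz z).image (fun k => k - z.1.1) :=
          Finset.mem_image.2 ⟨k, hk, rfl⟩
        rw [e3, Finset.mem_image] at h7
        obtain ⟨k', hk', h8⟩ := h7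
        have hk3 := Finset.mem_Ico.1 (hF1' hk')
        have : k = k' := by omega
        rw [this]
        exact hk'
      · intro hk
        have hk2 := Finset.mem_Ico.1 (hF1' hk)
        have h7 : k - z'.1.1 ∈ (Fz z').image (fun k => k - z'.1.1) :=
          Finset.mem_image.2 ⟨k, hk, rfl⟩
        rw [← e3, Finset.mem_image] at h7
        obtain ⟨k', hk', h8⟩ := h7
        have hk3 := Finset.mem_Ico.1 (hF1 hk')
        have : k = k' := by omega
        rw [this]
        exact hk'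
    have e7 : z.2.2 = z'.2.2 := by
      refine ha _ h2.2.2 _ h2'.2.2 ?_
      rw [e6, ← hF2'] at hF2
      rw [e4] at hF2
      linarith
    exact Prod.ext (Prod.ext e1 e5) (Prod.ext e4 e7)

theorem ev_DR {x : Fin n → ℝ} (hx : Function.Injective x) {π : ℕ → Fin n} {M N : ℕ} (hM : 0 < M)
    (hπ : PInj π (M * N)) {q : ℝ} (h0 : 0 ≤ q) (h1 : q ≤ 1) (r1 : ℕ) :
    Pr q (Epairs n) (fun B => ¬ NDR M N r1 (fun i => x (π i)) (adjB π B)) ≤
      ((M * N) * (M * 2 ^ M) * (M * N) : ℕ) * q ^ 2 / (r1 + 1 : ℝ) := by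
  classical
  set a : ℕ → ℝ := fun i => x (π i) with haa
  have ha : ∀ i, i < M * N → ∀ j, j < M * N → a i = a j → i = j := fun i hi j hj h =>
    hπ i hi j hj (hx h)
  set e2 : (ℕ × ℕ) × (ℕ × ℕ) → Finset (Sym2 (Fin n)) :=
    fun z => {s(π z.1.1, π z.2.1), s(π z.1.2, π z.2.2)} with he2
  have h2 := Pr_markov (p := q) h0 h1 (E := Epairs n)
    (P := fun B => ¬ NDR M N r1 a (adjB π B))
    (F := fun B => ∑ z ∈ WQ M N a, if e2 z ⊆ B then (1:ℝ) else 0) (t := (r1 + 1 : ℝ))
    (by positivity) (fun B _ => Finset.sum_nonneg fun z _ => by split_ifs <;> norm_num) ?_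
  · refine h2.trans (div_le_div_of_nonneg_right ?_ (by positivity))
    rw [Ex_sum]
    have h3 : ∀ z ∈ WQ M N a, Ex q (Epairs n) (fun B => if e2 z ⊆ B then (1:ℝ) else 0) = q ^ 2 := by
      intro z hz
      have h4 := Finset.mem_filter.1 hz
      obtain ⟨h5, h6, h7, h8, h9, _⟩ := h4
      rw [Finset.mem_product, Finset.mem_product, Finset.mem_product, Finset.mem_range,
        Finset.mem_range, Finset.mem_range, Finset.mem_range] at h5
      have hne : s(π z.1.1, π z.2.1) ≠ s(π z.1.2, π z.2.2) := by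
        intro h
        rw [Sym2.eq_iff] at h
        rcases h with ⟨h10, _⟩ | ⟨h10, _⟩
        · have := hπ _ h5.1.1 _ h5.1.2 h10
          omega
        · have := hπ _ h5.1.1 _ h5.2.2 h10
          rw [this] at h9
          exact h9 rfl
      have hsub : e2 z ⊆ Epairs n := by
        intro e he
        rw [he2] at he
        simp only [Finset.mem_insert, Finset.mem_singleton] at he
        rcases he with rfl | rfl
        · rw [mem_Epairs]
          intro h
          have := hπ _ h5.1.1 _ h5.2.1 h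
          rw [this] at h8
          exact h8 rfl
        · rw [mem_Epairs]
          intro h
          have := hπ _ h5.1.2 _ h5.2.2 h
          rw [← this, ← h7] at h9
          exact h9 rfl
      rw [Ex_subset q hsub, he2]
      simp only
      rw [Finset.card_pair hne]
    rw [Finset.sum_congr rfl h3, Finset.sum_const, nsmul_eq_mul]
    refine mul_le_mul_of_nonneg_right ?_ (by positivity)
    exact_mod_cast WQ_card hM ha
  · intro B _ hB
    unfold NDR at hB
    push Not at hB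
    obtain ⟨X, hX, hXD, hXc⟩ := hB
    have h3 : X ⊆ ((WQ M N a).filter (fun z => e2 z ⊆ B)).image (fun z => z.1.1 / M) := by
      intro b hb
      obtain ⟨u, u', v, v', hu, hu', hv, hv', hub, hub', huu, hvb, hvb', had, had', F, hF, hs⟩ :=
        hXD b hb
      rw [Finset.mem_image]
      refine ⟨((u, u'), (v, v')), ?_, hub⟩
      rw [Finset.mem_filter]
      constructor
      · unfold WQ
        rw [Finset.mem_filter, Finset.mem_product, Finset.mem_product, Finset.mem_product,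
          Finset.mem_range, Finset.mem_range, Finset.mem_range, Finset.mem_range]
        refine ⟨⟨⟨hu, hu'⟩, ⟨hv, hv'⟩⟩, huu, by simp only; omega, ?_, ?_, F, hF, hs⟩
        · simp only
          omega
        · simp only
          omega
      · intro e he
        rw [he2] at he
        simp only [Finset.mem_insert, Finset.mem_singleton] at he
        rcases he with rfl | rfl
        · exact had
        · exact had'
    have h4 := (Finset.card_le_card h3).trans Finset.card_image_le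
    rw [Finset.sum_boole]
    have h5 : r1 + 1 ≤ ((WQ M N a).filter (fun z => e2 z ⊆ B)).card := by omega
    exact_mod_cast h5

end LR82
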