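import Pool.Agent.LR82.Core

/-!
# The deterministic part
-/

set_option linter.unusedSectionVars false
set_option linter.style.whitespace false

open Finset

namespace LR82

/-- `φ` respects the known distances along the path and along the chords -/
def Valid (m : ℕ) (a : ℕ → ℝ) (adj : ℕ → ℕ → Prop) (φ : ℕ → ℝ) : Prop :=
  (∀ i, i + 1 < m → |φ (i + 1) - φ i| = |a (i + 1) - a i|) ∧
    ∀ i, i < m → ∀ j, j < m → adj i j → |φ i - φ j| = |a i - a j|

theorem Valid.neg {m : ℕ} {a : ℕ → ℝ} {adj : ℕ → ℕ → Prop} {φ : ℕ → ℝ} (h : Valid m a adj φ) :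
    Valid m a adj (fun i => - φ i) := by
  refine ⟨fun i hi => ?_, fun i hi j hj hij => ?_⟩
  · have := h.1 i hi
    rw [← this, ← abs_neg]
    congr 1
    ring
  · have := h.2 i hi j hj hij
    rw [← this, ← abs_neg]
    congr 1
    ring

/-- a bad window starts at `i` -/
def BadAt (m L : ℕ) (a : ℕ → ℝ) (i : ℕ) : Prop :=
  i + L < m ∧ ∃ F : Finset ℕ, F ⊆ Finset.Ico i (i + L) ∧ F.Nonempty ∧
    ∑ k ∈ F, (a (k + 1) - a k) = 0

theorem step_cases {m : ℕ} {a φ : ℕ → ℝ} {adj : ℕ → ℕ → Prop} (h : Valid m a adj φ) {k : ℕ}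
    (hk : k + 1 < m) : φ (k + 1) - φ k = a (k + 1) - a k ∨
      φ (k + 1) - φ k = -(a (k + 1) - a k) := abs_eq_abs.1 (h.1 k hk)

theorem Ico_succ_ins {i j : ℕ} (h : i ≤ j) : Finset.Ico i (j + 1) = insert j (Finset.Ico i j) := by
  ext k
  simp only [Finset.mem_Ico, Finset.mem_insert]
  omega

open Classical in
/-- differences of `φ - a` along the path -/
theorem diff_g {m : ℕ} {a φ : ℕ → ℝ} {adj : ℕ → ℕ → Prop} (h : Valid m a adj φ) {i : ℕ} (l : ℕ)
    (hl : i + l < m) :
    (φ (i + l) - a (i + l)) - (φ i - a i) =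
      -2 * ∑ k ∈ (Finset.Ico i (i + l)).filter (fun k => φ (k + 1) - φ k ≠ a (k + 1) - a k),
        (a (k + 1) - a k) := by
  induction l with
  | zero => simp
  | succ l ih =>
    have h1 := ih (by omega)
    rw [show i + (l + 1) = (i + l) + 1 by ring, Ico_succ_ins (by omega),
      Finset.filter_insert]
    by_cases hc : φ (i + l + 1) - φ (i + l) = a (i + l + 1) - a (i + l)
    · rw [if_neg (by simpa using hc), ← h1]
      linarith
    · rw [if_pos (by simpa using hc), Finset.sum_insert (by simp), mul_add, ← h1]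
      have h2 := (step_cases h (k := i + l) (by omega)).resolve_left hc
      linarith

open Classical in
/-- differences of `φ + a` along the path -/
theorem diff_h {m : ℕ} {a φ : ℕ → ℝ} {adj : ℕ → ℕ → Prop} (h : Valid m a adj φ) {i : ℕ} (l : ℕ)
    (hl : i + l < m) :
    (φ (i + l) + a (i + l)) - (φ i + a i) =
      2 * ∑ k ∈ (Finset.Ico i (i + l)).filter (fun k => φ (k + 1) - φ k = a (k + 1) - a k),
        (a (k + 1) - a k) := by
  induction l with
  | zero => simp
  | succ l ih =>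
    have h1 := ih (by omega)
    rw [show i + (l + 1) = (i + l) + 1 by ring, Ico_succ_ins (by omega),
      Finset.filter_insert]
    by_cases hc : φ (i + l + 1) - φ (i + l) = a (i + l + 1) - a (i + l)
    · rw [if_pos (by simpa using hc), Finset.sum_insert (by simp), mul_add, ← h1]
      linarith
    · rw [if_neg (by simpa using hc), ← h1]
      have h2 := (step_cases h (k := i + l) (by omega)).resolve_left hc
      linarith

/-- a position outside a class, between two positions of the class, gives a bad window -/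
theorem bad_of_between {m L : ℕ} {a φ : ℕ → ℝ} {adj : ℕ → ℕ → Prop} (h : Valid m a adj φ)
    {i v j : ℕ} {t : ℝ} (hiv : i < v) (hvj : v < j) (hj : j ≤ i + L) (hL : i + L < m)
    (hi : φ i - a i = t) (hj2 : φ j - a j = t) (hv : φ v - a v ≠ t) : BadAt m L a i := by
  classical
  refine ⟨hL, (Finset.Ico i j).filter (fun k => φ (k + 1) - φ k ≠ a (k + 1) - a k), ?_, ?_, ?_⟩
  · exact (Finset.filter_subset _ _).trans (Finset.Ico_subset_Ico_right hj)
  · by_contra hne
    rw [Finset.not_nonempty_iff_eq_empty] at hne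
    have h1 := diff_g h (i := i) (v - i) (by omega)
    rw [show i + (v - i) = v by omega] at h1
    have h2 : (Finset.Ico i v).filter (fun k => φ (k + 1) - φ k ≠ a (k + 1) - a k) = ∅ := by
      rw [Finset.eq_empty_iff_forall_notMem]
      intro k hk
      rw [Finset.mem_filter, Finset.mem_Ico] at hk
      have h3 : k ∈ (Finset.Ico i j).filter (fun k => φ (k + 1) - φ k ≠ a (k + 1) - a k) := by
        rw [Finset.mem_filter, Finset.mem_Ico]
        exact ⟨⟨hk.1.1, by omega⟩, hk.2⟩
      rw [hne] at h3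
      exact absurd h3 (Finset.notMem_empty _)
    rw [h2, Finset.sum_empty, mul_zero, hi] at h1
    exact hv (by linarith)
  · have h1 := diff_g h (i := i) (j - i) (by omega)
    rw [show i + (j - i) = j by omega, hi, hj2] at h1
    linarith

/-- double reflecting blocks -/
def DRb (m M : ℕ) (a : ℕ → ℝ) (adj : ℕ → ℕ → Prop) (b : ℕ) : Prop :=
  ∃ u u' v v' : ℕ, u < m ∧ u' < m ∧ v < m ∧ v' < m ∧ u / M = b ∧ u' / M = b ∧ u < u' ∧ v / M ≠ b ∧
    v' / M ≠ b ∧ adj u v ∧ adj u' v' ∧ ∃ F : Finset ℕ, F ⊆ Finset.Ico u u' ∧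
      a v' - a v = ∑ k ∈ F, (a (k + 1) - a k)

open Classical in
/-- chords between two blocks (ordered) -/
noncomputable def wt (m M : ℕ) (adj : ℕ → ℕ → Prop) (b c : ℕ) : ℕ :=
  ((range m ×ˢ range m).filter (fun q => adj q.1 q.2 ∧ q.1 / M = b ∧ q.2 / M = c)).card

open Classical in
theorem sum_wt (m M : ℕ) (adj : ℕ → ℕ → Prop) (X Y : Finset ℕ) :
    ∑ b ∈ X, ∑ c ∈ Y, wt m M adj b c =
      ((range m ×ˢ range m).filter (fun q => adj q.1 q.2 ∧ q.1 / M ∈ X ∧ q.2 / M ∈ Y)).card := by
  rw [← Finset.sum_product' X Y (fun b c => wt m M adj b c)]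
  rw [Finset.card_eq_sum_card_fiberwise (f := fun q : ℕ × ℕ => (q.1 / M, q.2 / M)) (t := X ×ˢ Y)]
  · refine Finset.sum_congr rfl fun bc hbc => ?_
    rw [Finset.mem_product] at hbc
    unfold wt
    congr 1
    ext q
    simp only [Finset.mem_filter, Finset.mem_product, Finset.mem_range]
    constructor
    · rintro ⟨h1, h2, h3, h4⟩
      refine ⟨⟨h1, h2, h3 ▸ hbc.1, h4 ▸ hbc.2⟩, ?_⟩
      rw [h3, h4]
    · rintro ⟨⟨h1, h2, _, _⟩, h5⟩
      exact ⟨h1, h2, congrArg Prod.fst h5, congrArg Prod.snd h5⟩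
  · intro q hq
    rw [Finset.mem_coe, Finset.mem_filter] at hq
    rw [Finset.mem_coe, Finset.mem_product]
    exact hq.2.2

open Classical in
/-- tainted blocks -/
noncomputable def Zb (M N Lam : ℕ) (a : ℕ → ℝ) : Finset ℕ :=
  (range N).filter (fun c => c ≤ Lam ∨ N ≤ c + Lam + 1 ∨
    ∃ i, BadAt (M * N) (Lam * M) a i ∧ i / M ≤ c ∧ c ≤ i / M + Lam)

theorem div_bounds {M i c : ℕ} (hM : 0 < M) (h : i / M = c) : c * M ≤ i ∧ i < (c + 1) * M := by
  constructor
  · rw [← h]
    exact Nat.div_mul_le_self i M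
  · rw [← h]
    exact Nat.lt_mul_of_div_lt (Nat.lt_succ_self _) hM

/-- an untainted block with a position outside the class is adjacent to a long run outside -/
theorem runs {M N l : ℕ} (hM : 0 < M) {a φ : ℕ → ℝ} {adj : ℕ → ℕ → Prop}
    (h : Valid (M * N) a adj φ) {t : ℝ} {v c : ℕ} (hvm : v < M * N) (hvc : v / M = c)
    (hv : φ v - a v ≠ t) (hc : c ∉ Zb M N (2 * l + 1) a) :
    (∀ j, j < M * N → c < j / M → j / M ≤ c + l → φ j - a j ≠ t) ∨
      (∀ i, i < M * N → i / M < c → c ≤ i / M + l → φ i - a i ≠ t) := by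
  classical
  by_contra hcon
  push Not at hcon
  obtain ⟨⟨j, hjm, hj1, hj2, hjA⟩, ⟨i, him, hi1, hi2, hiA⟩⟩ := hcon
  have hcN : c < N := by
    rw [← hvc]
    exact Nat.div_lt_of_lt_mul hvm
  have bv := div_bounds hM hvc
  have bi := div_bounds hM (rfl : i / M = i / M)
  have bj := div_bounds hM (rfl : j / M = j / M)
  have hiv : i < v := by
    have : (i / M + 1) * M ≤ c * M := Nat.mul_le_mul_right M hi1
    omega
  have hvj : v < j := by
    have : (c + 1) * M ≤ (j / M) * M := Nat.mul_le_mul_right M hj1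
    omega
  have hnZ : ¬ (c ≤ 2 * l + 1 ∨ N ≤ c + (2 * l + 1) + 1 ∨
      ∃ i, BadAt (M * N) ((2 * l + 1) * M) a i ∧ i / M ≤ c ∧ c ≤ i / M + (2 * l + 1)) := by
    intro hh
    exact hc (Finset.mem_filter.2 ⟨Finset.mem_range.2 hcN, hh⟩)
  push Not at hnZ
  obtain ⟨_, h2, h3⟩ := hnZ
  have hji : j ≤ i + (2 * l + 1) * M := by
    have h4 : (j / M + 1) * M ≤ (i / M + l + l + 1) * M :=
      Nat.mul_le_mul_right M (by omega)
    have h5 : (i / M + l + l + 1) * M = i / M * M + (2 * l + 1) * M := by ring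
    omega
  have hiL : i + (2 * l + 1) * M < M * N := by
    have h4 : (c + (2 * l + 1)) * M ≤ N * M := Nat.mul_le_mul_right M (by omega)
    have h5 : (c + (2 * l + 1)) * M = c * M + (2 * l + 1) * M := by ring
    have h6 : (i / M + 1) * M ≤ c * M := Nat.mul_le_mul_right M hi1
    have h7 : N * M = M * N := Nat.mul_comm _ _
    omega
  have hbad := bad_of_between h hiv hvj hji hiL hiA hjA hv
  have := h3 i hbad (by omega)
  omega

/-- everything needed from the chords -/
structure Good (M N l r0 r1 D K j0 : ℕ) (a : ℕ → ℝ) (adj : ℕ → ℕ → Prop) : Prop where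
  hcls : ∀ φ, Valid (M * N) a adj φ → ∃ w, w < M * N ∧
    (2 * r0 * M ≤ ((range (M * N)).filter (fun i => φ i - a i = φ w - a w)).card ∨
      2 * r0 * M ≤ ((range (M * N)).filter (fun i => φ i + a i = φ w + a w)).card)
  hrefl : ∀ φ, Valid (M * N) a adj φ → ∀ w, w < M * N → ∀ Q : Finset (ℕ × ℕ),
    (∀ q ∈ Q, q.1 < M * N ∧ q.2 < M * N ∧ adj q.1 q.2 ∧ φ q.1 - a q.1 ≠ φ w - a w ∧
      φ q.2 - a q.2 = φ w - a w) → Q.card < j0
  hexp : ∀ X Y : Finset ℕ, X ⊆ range N → Y ⊆ range N → Disjoint X Y → r0 ≤ X.card →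
    r0 ≤ Y.card → j0 ≤ ∑ b ∈ X, ∑ c ∈ Y, wt (M * N) M adj b c
  hsp : Sparse (wt (M * N) M adj) N (6 * r0) K
  hlight : ∀ X : Finset ℕ, X ⊆ range N → (∀ b ∈ X, dg (wt (M * N) M adj) b (range N) < 2 * D) →
    X.card ≤ r1
  hDR : ∀ X : Finset ℕ, X ⊆ range N → (∀ b ∈ X, DRb (M * N) M a adj b) → X.card ≤ r1
  hZ : (Zb M N (2 * l + 1) a).card ≤ r1

/-- long runs are few -/
theorem few_right {N l : ℕ} (X : Finset ℕ) (hX : ∀ c ∈ X, c + l < N)
    (hsep : ∀ c ∈ X, ∀ s, 1 ≤ s → s ≤ l → c + s ∉ X) : X.card * l ≤ N := by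
  have h : (X ×ˢ Finset.Icc 1 l).card ≤ (range N).card := by
    refine Finset.card_le_card_of_injOn (fun q => q.1 + q.2) ?_ ?_
    · intro q hq
      simp only [Finset.coe_product, Set.mem_prod, Finset.mem_coe, Finset.mem_Icc] at hq
      have := hX q.1 hq.1
      show q.1 + q.2 ∈ (range N : Set ℕ)
      rw [Finset.mem_coe, Finset.mem_range]
      omega
    · rintro ⟨c, s⟩ h1 ⟨c', s'⟩ h2 h3
      simp only [Finset.coe_product, Set.mem_prod, Finset.mem_coe, Finset.mem_Icc] at h1 h2 h3
      rcases lt_trichotomy c c' with h | h | h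
      · exact absurd h2.1 (by
          have := hsep c h1.1 (c' - c) (by omega) (by omega)
          rwa [show c + (c' - c) = c' by omega] at this)
      · subst h
        have : s = s' := by omega
        rw [this]
      · exact absurd h1.1 (by
          have := hsep c' h2.1 (c - c') (by omega) (by omega)
          rwa [show c' + (c - c') = c by omega] at this)
  rw [Finset.card_product, Nat.card_Icc, Finset.card_range] at h
  simpa using h

theorem few_left {N l : ℕ} (X : Finset ℕ) (hX : ∀ c ∈ X, l ≤ c ∧ c < N)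
    (hsep : ∀ c ∈ X, ∀ s, 1 ≤ s → s ≤ l → c - s ∉ X) : X.card * l ≤ N := by
  have h : (X ×ˢ Finset.Icc 1 l).card ≤ (range N).card := by
    refine Finset.card_le_card_of_injOn (fun q => q.1 - q.2) ?_ ?_
    · intro q hq
      simp only [Finset.coe_product, Set.mem_prod, Finset.mem_coe, Finset.mem_Icc] at hq
      have := hX q.1 hq.1
      show q.1 - q.2 ∈ (range N : Set ℕ)
      rw [Finset.mem_coe, Finset.mem_range]
      omega
    · rintro ⟨c, s⟩ h1 ⟨c', s'⟩ h2 h3
      simp only [Finset.coe_product, Set.mem_prod, Finset.mem_coe, Finset.mem_Icc] at h1 h2 h3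
      have hc := hX c h1.1
      have hc' := hX c' h2.1
      rcases lt_trichotomy c c' with h | h | h
      · exact absurd h1.1 (by
          have := hsep c' h2.1 (c' - c) (by omega) (by omega)
          rwa [show c' - (c' - c) = c by omega] at this)
      · subst h
        have : s = s' := by omega
        rw [this]
      · exact absurd h2.1 (by
          have := hsep c h1.1 (c - c') (by omega) (by omega)
          rwa [show c - (c - c') = c' by omega] at this)
  rw [Finset.card_product, Nat.card_Icc, Finset.card_range] at h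
  simpa using h

end LR82
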