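import Mathlib

/-!
# Random subsets of a finite set: finite expectations

`Ex p E F` is the expectation of `F A`, `A` the random subset of the finite set `E` which
contains each element of `E` independently with probability `p`.
-/

set_option linter.unusedSectionVars false
set_option linter.style.whitespace false

open Finset

noncomputable section

namespace LR82

variable {α : Type*} [DecidableEq α]

/-- expectation of `F` at a `p`-random subset of `E` -/
def Ex (p : ℝ) (E : Finset α) (F : Finset α → ℝ) : ℝ :=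
  ∑ A ∈ E.powerset, p ^ A.card * (1 - p) ^ (E.card - A.card) * F A

open Classical in
/-- probability of an event -/
def Pr (p : ℝ) (E : Finset α) (P : Finset α → Prop) : ℝ :=
  Ex p E (fun A => if P A then 1 else 0)

theorem Ex_empty (p : ℝ) (F : Finset α → ℝ) : Ex p ∅ F = F ∅ := by
  simp [Ex]

theorem Ex_insert (p : ℝ) {E : Finset α} {e : α} (he : e ∉ E) (F : Finset α → ℝ) :
    Ex p (insert e E) F = (1 - p) * Ex p E F + p * Ex p E (fun A => F (insert e A)) := by
  unfold Ex
  rw [Finset.sum_powerset_insert he, Finset.mul_sum, Finset.mul_sum]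
  congr 1
  · refine Finset.sum_congr rfl fun A hA => ?_
    have h1 := Finset.card_le_card (Finset.mem_powerset.1 hA)
    rw [Finset.card_insert_of_notMem he, Nat.succ_sub h1, pow_succ]
    ring
  · refine Finset.sum_congr rfl fun A hA => ?_
    have h1 := Finset.card_le_card (Finset.mem_powerset.1 hA)
    have h2 : e ∉ A := fun h => he (Finset.mem_powerset.1 hA h)
    rw [Finset.card_insert_of_notMem he, Finset.card_insert_of_notMem h2, Nat.succ_sub_succ,
      pow_succ]
    ring

theorem Ex_mono {p : ℝ} (h0 : 0 ≤ p) (h1 : p ≤ 1) {E : Finset α} {F G : Finset α → ℝ}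
    (h : ∀ A, A ⊆ E → F A ≤ G A) : Ex p E F ≤ Ex p E G := by
  refine Finset.sum_le_sum fun A hA => ?_
  exact mul_le_mul_of_nonneg_left (h A (Finset.mem_powerset.1 hA))
    (mul_nonneg (pow_nonneg h0 _) (pow_nonneg (by linarith) _))

theorem Ex_congr {p : ℝ} {E : Finset α} {F G : Finset α → ℝ}
    (h : ∀ A, A ⊆ E → F A = G A) : Ex p E F = Ex p E G := by
  refine Finset.sum_congr rfl fun A hA => ?_
  rw [h A (Finset.mem_powerset.1 hA)]

theorem Ex_nonneg {p : ℝ} (h0 : 0 ≤ p) (h1 : p ≤ 1) {E : Finset α} {F : Finset α → ℝ}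
    (h : ∀ A, A ⊆ E → 0 ≤ F A) : 0 ≤ Ex p E F := by
  refine Finset.sum_nonneg fun A hA => ?_
  exact mul_nonneg (mul_nonneg (pow_nonneg h0 _) (pow_nonneg (by linarith) _))
    (h A (Finset.mem_powerset.1 hA))

theorem Ex_add (p : ℝ) (E : Finset α) (F G : Finset α → ℝ) :
    Ex p E (fun A => F A + G A) = Ex p E F + Ex p E G := by
  unfold Ex
  rw [← Finset.sum_add_distrib]
  exact Finset.sum_congr rfl fun A _ => by ring

theorem Ex_mul (p : ℝ) (E : Finset α) (c : ℝ) (F : Finset α → ℝ) :
    Ex p E (fun A => c * F A) = c * Ex p E F := by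
  unfold Ex
  rw [Finset.mul_sum]
  exact Finset.sum_congr rfl fun A _ => by ring

theorem Ex_sum {ι : Type*} (p : ℝ) (E : Finset α) (I : Finset ι) (F : ι → Finset α → ℝ) :
    Ex p E (fun A => ∑ i ∈ I, F i A) = ∑ i ∈ I, Ex p E (F i) := by
  unfold Ex
  rw [Finset.sum_comm]
  exact Finset.sum_congr rfl fun A _ => by rw [Finset.mul_sum]

theorem Ex_const (p : ℝ) (E : Finset α) (c : ℝ) : Ex p E (fun _ => c) = c := by
  induction E using Finset.induction_on with
  | empty => rw [Ex_empty]
  | insert e E he ih =>
    rw [Ex_insert p he, ih]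
    ring

/-- union of two independent random subsets -/
theorem Ex_union (p q : ℝ) (E : Finset α) (F : Finset α → ℝ) :
    Ex p E (fun A => Ex q E (fun B => F (A ∪ B))) = Ex (p + q - p * q) E F := by
  induction E using Finset.induction_on generalizing F with
  | empty => simp [Ex_empty]
  | insert e E he ih =>
    rw [Ex_insert _ he]
    have h1 : (fun A => Ex q (insert e E) (fun B => F (A ∪ B))) =
        fun A => (1 - q) * Ex q E (fun B => F (A ∪ B)) +
          q * Ex q E (fun B => F (insert e (A ∪ B))) := by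
      funext A
      rw [Ex_insert _ he]
      simp [Finset.union_insert]
    have h2 : (fun A => Ex q (insert e E) (fun B => F (insert e A ∪ B))) =
        fun A => (1 - q) * Ex q E (fun B => F (insert e (A ∪ B))) +
          q * Ex q E (fun B => F (insert e (A ∪ B))) := by
      funext A
      rw [Ex_insert _ he]
      simp [Finset.insert_union, Finset.union_insert]
    rw [h1, h2, Ex_add, Ex_add, Ex_mul, Ex_mul, Ex_mul, ih, ih (fun A => F (insert e A)),
      Ex_insert _ he]
    ring

/-- generating function of the number of chosen elements of `S` -/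
theorem Ex_gen (p z : ℝ) {E S : Finset α} (hS : S ⊆ E) :
    Ex p E (fun A => z ^ (A ∩ S).card) = (1 - p + p * z) ^ S.card := by
  induction E using Finset.induction_on generalizing S with
  | empty =>
    rw [Finset.subset_empty.1 hS]
    simp [Ex_empty]
  | insert e E he ih =>
    rw [Ex_insert _ he]
    by_cases heS : e ∈ S
    · have h1 : Ex p E (fun A => z ^ (A ∩ S).card) = Ex p E (fun A => z ^ (A ∩ S.erase e).card) := by
        refine Ex_congr fun A hA => ?_
        congr 2
        ext x
        simp only [Finset.mem_inter, Finset.mem_erase]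
        constructor
        · rintro ⟨h1, h2⟩
          exact ⟨h1, fun h => he (h ▸ hA h1), h2⟩
        · rintro ⟨h1, _, h2⟩
          exact ⟨h1, h2⟩
      have h2 : Ex p E (fun A => z ^ (insert e A ∩ S).card) =
          Ex p E (fun A => z * z ^ (A ∩ S.erase e).card) := by
        refine Ex_congr fun A hA => ?_
        have h3 : insert e A ∩ S = insert e (A ∩ S.erase e) := by
          ext x
          simp only [Finset.mem_inter, Finset.mem_erase, Finset.mem_insert]
          constructor
          · rintro ⟨h1 | h1, h2⟩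
            · exact Or.inl h1
            · by_cases hx : x = e
              · exact Or.inl hx
              · exact Or.inr ⟨h1, hx, h2⟩
          · rintro (h | ⟨h1, _, h2⟩)
            · exact ⟨Or.inl h, h ▸ heS⟩
            · exact ⟨Or.inr h1, h2⟩
        have h4 : e ∉ A ∩ S.erase e := by simp
        rw [h3, Finset.card_insert_of_notMem h4, pow_succ]
        ring
      have h5 : S.erase e ⊆ E := by
        intro x hx
        have := hS (Finset.mem_of_mem_erase hx)
        rcases Finset.mem_insert.1 this with h | h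
        · exact absurd h (Finset.ne_of_mem_erase hx)
        · exact h
      rw [h1, h2, Ex_mul, ih h5]
      have h6 : S.card = (S.erase e).card + 1 := by
        rw [Finset.card_erase_of_mem heS]
        have := Finset.card_pos.2 ⟨e, heS⟩
        omega
      rw [h6, pow_succ]
      ring
    · have h5 : S ⊆ E := by
        intro x hx
        rcases Finset.mem_insert.1 (hS hx) with h | h
        · exact absurd (h ▸ hx) heS
        · exact h
      have h2 : Ex p E (fun A => z ^ (insert e A ∩ S).card) = Ex p E (fun A => z ^ (A ∩ S).card) := by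
        refine Ex_congr fun A hA => ?_
        rw [Finset.insert_inter_of_notMem heS]
      rw [h2, ih h5]
      ring

theorem Pr_nonneg {p : ℝ} (h0 : 0 ≤ p) (h1 : p ≤ 1) (E : Finset α) (P : Finset α → Prop) :
    0 ≤ Pr p E P := by
  classical
  exact Ex_nonneg h0 h1 fun A _ => by split_ifs <;> norm_num

theorem Pr_mono {p : ℝ} (h0 : 0 ≤ p) (h1 : p ≤ 1) {E : Finset α} {P Q : Finset α → Prop}
    (h : ∀ A, A ⊆ E → P A → Q A) : Pr p E P ≤ Pr p E Q := by
  classical
  refine Ex_mono h0 h1 fun A hA => ?_
  by_cases hP : P A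
  · simp [hP, h A hA hP]
  · simp only [hP, if_false]
    split_ifs <;> norm_num

theorem Pr_le_one {p : ℝ} (h0 : 0 ≤ p) (h1 : p ≤ 1) (E : Finset α) (P : Finset α → Prop) :
    Pr p E P ≤ 1 := by
  classical
  have : Pr p E P ≤ Ex p E (fun _ => 1) :=
    Ex_mono h0 h1 fun A _ => by split_ifs <;> norm_num
  rwa [Ex_const] at this

/-- the complement -/
theorem Pr_compl (p : ℝ) (E : Finset α) (P : Finset α → Prop) :
    Pr p E (fun A => ¬ P A) = 1 - Pr p E P := by
  classical
  have h : Pr p E P + Pr p E (fun A => ¬ P A) = 1 := by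
    unfold Pr
    rw [← Ex_add]
    refine (Ex_congr fun A _ => ?_).trans (Ex_const p E 1)
    by_cases h : P A <;> simp [h]
  linarith

/-- union bound -/
theorem Pr_exists {ι : Type*} {p : ℝ} (h0 : 0 ≤ p) (h1 : p ≤ 1) (E : Finset α) (I : Finset ι)
    (P : ι → Finset α → Prop) :
    Pr p E (fun A => ∃ i ∈ I, P i A) ≤ ∑ i ∈ I, Pr p E (P i) := by
  classical
  unfold Pr
  rw [← Ex_sum]
  refine Ex_mono h0 h1 fun A _ => ?_
  by_cases h : ∃ i ∈ I, P i A
  · obtain ⟨i, hi, hP⟩ := h
    rw [if_pos ⟨i, hi, hP⟩]
    have := Finset.single_le_sum (f := fun i => if P i A then (1:ℝ) else 0)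
      (fun j _ => by split_ifs <;> norm_num) hi
    simpa [hP] using this
  · rw [if_neg h]
    exact Finset.sum_nonneg fun j _ => by split_ifs <;> norm_num

theorem Pr_or {p : ℝ} (h0 : 0 ≤ p) (h1 : p ≤ 1) (E : Finset α) (P Q : Finset α → Prop) :
    Pr p E (fun A => P A ∨ Q A) ≤ Pr p E P + Pr p E Q := by
  classical
  unfold Pr
  rw [← Ex_add]
  refine Ex_mono h0 h1 fun A _ => ?_
  by_cases h : P A <;> by_cases h' : Q A <;> simp [h, h']

/-- Markov -/
theorem Pr_markov {p : ℝ} (h0 : 0 ≤ p) (h1 : p ≤ 1) {E : Finset α} {P : Finset α → Prop}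
    {F : Finset α → ℝ} {t : ℝ} (ht : 0 < t) (hF : ∀ A, A ⊆ E → 0 ≤ F A)
    (h : ∀ A, A ⊆ E → P A → t ≤ F A) : Pr p E P ≤ Ex p E F / t := by
  classical
  rw [le_div_iff₀ ht]
  have : Pr p E P * t = Ex p E (fun A => t * (if P A then 1 else 0)) := by
    rw [Ex_mul]
    unfold Pr
    ring
  rw [this]
  refine Ex_mono h0 h1 fun A hA => ?_
  by_cases hP : P A
  · simp [hP, h A hA hP]
  · simp [hP, hF A hA]

theorem Pr_eq (p : ℝ) (E : Finset α) (P : Finset α → Prop) [DecidablePred P] :
    Pr p E P = Ex p E (fun A => if P A then 1 else 0) := by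
  unfold Pr
  refine Ex_congr fun A _ => ?_
  by_cases h : P A <;> simp [h]

theorem Ex_subset (p : ℝ) {E S : Finset α} (hS : S ⊆ E) :
    Ex p E (fun A => if S ⊆ A then 1 else 0) = p ^ S.card := by
  induction E using Finset.induction_on generalizing S with
  | empty =>
    rw [Finset.subset_empty.1 hS]
    simp [Ex_empty]
  | insert e E he ih =>
    rw [Ex_insert _ he]
    by_cases heS : e ∈ S
    · have h1 : Ex p E (fun A => if S ⊆ A then (1:ℝ) else 0) = Ex p E (fun _ => 0) := by
        refine Ex_congr fun A hA => ?_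
        rw [if_neg]
        exact fun h => he (hA (h heS))
      have h5 : S.erase e ⊆ E := by
        intro x hx
        have := hS (Finset.mem_of_mem_erase hx)
        rcases Finset.mem_insert.1 this with h | h
        · exact absurd h (Finset.ne_of_mem_erase hx)
        · exact h
      have h2 : Ex p E (fun A => if S ⊆ insert e A then (1:ℝ) else 0) =
          Ex p E (fun A => if S.erase e ⊆ A then (1:ℝ) else 0) := by
        refine Ex_congr fun A hA => ?_
        simp only [Finset.subset_insert_iff]
      rw [h1, h2, Ex_const, ih h5]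
      have h6 : S.card = (S.erase e).card + 1 := by
        rw [Finset.card_erase_of_mem heS]
        have := Finset.card_pos.2 ⟨e, heS⟩
        omega
      rw [h6, pow_succ]
      ring
    · have h5 : S ⊆ E := by
        intro x hx
        rcases Finset.mem_insert.1 (hS hx) with h | h
        · exact absurd (h ▸ hx) heS
        · exact h
      have h2 : Ex p E (fun A => if S ⊆ insert e A then (1:ℝ) else 0) =
          Ex p E (fun A => if S ⊆ A then (1:ℝ) else 0) := by
        refine Ex_congr fun A hA => ?_
        simp only [Finset.subset_insert_iff_of_notMem heS]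
      rw [h2, ih h5]
      ring

/-- all elements of `S` chosen -/
theorem Pr_subset (p : ℝ) {E S : Finset α} (hS : S ⊆ E) :
    Pr p E (fun A => S ⊆ A) = p ^ S.card := by
  rw [Pr_eq, Ex_subset p hS]

/-- lower tail -/
theorem Pr_lower {p : ℝ} (h0 : 0 ≤ p) (h1 : p ≤ 1) {E S : Finset α} (hS : S ⊆ E) (k : ℕ) :
    Pr p E (fun A => (A ∩ S).card ≤ k) ≤ 2 ^ k * Real.exp (-(p * S.card) / 2) := by
  have h2 := Pr_markov (p := p) h0 h1 (E := E) (P := fun A => (A ∩ S).card ≤ k)
    (F := fun A => (1 / 2 : ℝ) ^ (A ∩ S).card) (t := (1 / 2 : ℝ) ^ k) (by positivity)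
    (fun A _ => by positivity)
    (fun A _ h => pow_le_pow_of_le_one (by norm_num) (by norm_num) h)
  rw [Ex_gen p _ hS] at h2
  refine h2.trans ?_
  have h3 : (1 - p + p * (1 / 2)) ≤ Real.exp (-p / 2) := by
    have := Real.add_one_le_exp (-p / 2)
    linarith
  have h4 : (1 - p + p * (1 / 2)) ^ S.card ≤ Real.exp (-(p * S.card) / 2) := by
    calc (1 - p + p * (1 / 2)) ^ S.card ≤ Real.exp (-p / 2) ^ S.card :=
          pow_le_pow_left₀ (by linarith) h3 _
      _ = Real.exp (-(p * S.card) / 2) := by
          rw [← Real.exp_nat_mul]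
          congr 1
          ring
  rw [div_eq_mul_inv, ← one_div, one_div_pow, one_div_one_div, mul_comm]
  exact mul_le_mul_of_nonneg_left h4 (by positivity)

/-- upper tail -/
theorem Pr_upper {p : ℝ} (h0 : 0 ≤ p) (h1 : p ≤ 1) {E S : Finset α} (hS : S ⊆ E) (k : ℕ) :
    Pr p E (fun A => k ≤ (A ∩ S).card) ≤ S.card.choose k * p ^ k := by
  classical
  have h2 : Pr p E (fun A => k ≤ (A ∩ S).card) ≤
      Pr p E (fun A => ∃ T ∈ S.powersetCard k, T ⊆ A) := by
    refine Pr_mono h0 h1 fun A _ h => ?_
    obtain ⟨T, hT, hc⟩ := Finset.exists_subset_card_eq h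
    exact ⟨T, Finset.mem_powersetCard.2 ⟨hT.trans Finset.inter_subset_right, hc⟩,
      hT.trans Finset.inter_subset_left⟩
  refine h2.trans ((Pr_exists h0 h1 E _ _).trans ?_)
  rw [Finset.sum_congr rfl (g := fun _ => p ^ k)]
  · rw [Finset.sum_const, Finset.card_powersetCard, nsmul_eq_mul]
  · intro T hT
    rw [Finset.mem_powersetCard] at hT
    rw [Pr_subset p (hT.1.trans hS), hT.2]

end LR82
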